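import Pool.Agent.TH143.Sys

/-!
The functions with linear differential equations are closed under multiplication by the variable.
-/

set_option autoImplicit false

open Pool.Agent.TH143

namespace Pool.Agent.TH8.TEN

theorem iter_diff {g : ℂ → ℂ} (hg : Differentiable ℂ g) (k : ℕ) :
    Differentiable ℂ (iteratedDeriv k g) := by
  intro z
  have h1 : AnalyticAt ℂ g z := hg.analyticAt z
  have h2 : AnalyticAt ℂ (iteratedDeriv k g) z := by
    rw [iteratedDeriv_eq_iterate]
    exact h1.iterated_deriv k
  exact h2.differentiableAt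

theorem iter_mulX {g : ℂ → ℂ} (hg : Differentiable ℂ g) (k : ℕ) :
    iteratedDeriv (k + 1) (fun z => z * g z) =
      fun z => z * iteratedDeriv (k + 1) g z + (k + 1) * iteratedDeriv k g z := by
  induction k with
  | zero =>
    funext z
    rw [zero_add, iteratedDeriv_one, iteratedDeriv_one, iteratedDeriv_zero]
    have h1 := (hasDerivAt_id z).mul (hg z).hasDerivAt
    have h2 : (fun z => z * g z) = id * g := rfl
    rw [h2, h1.deriv]
    simp only [id]
    push_cast
    ring
  | succ k ih =>
    funext z
    rw [iteratedDeriv_succ, ih]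
    have h1 := (hasDerivAt_id z).mul (iter_diff hg (k + 1) z).hasDerivAt
    have h2 := ((iter_diff hg k z).hasDerivAt).const_mul ((k : ℂ) + 1)
    have h3 := h1.add h2
    have h4 : (fun z => z * iteratedDeriv (k + 1) g z + (k + 1) * iteratedDeriv k g z) =
        id * iteratedDeriv (k + 1) g + fun z => ((k : ℂ) + 1) * iteratedDeriv k g z := rfl
    rw [h4, h3.deriv]
    simp only [id, iteratedDeriv_succ]
    push_cast
    ring

theorem lower {g : ℂ → ℂ} (hg : Differentiable ℂ g) (k : ℕ) :
    ∃ c : ℕ → ℂ, c k = 1 ∧ ∀ z, z ^ (k + 1) * iteratedDeriv k g z =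
      ∑ j ∈ Finset.range (k + 1), c j * z ^ j * iteratedDeriv j (fun z => z * g z) z := by
  induction k with
  | zero =>
    refine ⟨fun _ => 1, rfl, fun z => ?_⟩
    simp
  | succ k ih =>
    obtain ⟨c, hc, h⟩ := ih
    refine ⟨fun j => if j = k + 1 then 1 else -(k + 1) * c j, if_pos rfl, fun z => ?_⟩
    rw [Finset.sum_range_succ]
    beta_reduce
    rw [if_pos rfl]
    have h1 : ∑ j ∈ Finset.range (k + 1), (if j = k + 1 then (1 : ℂ) else -(k + 1) * c j) * z ^ j *
        iteratedDeriv j (fun z => z * g z) z = -(k + 1) * (z ^ (k + 1) * iteratedDeriv k g z) := by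
      rw [h, Finset.mul_sum]
      refine Finset.sum_congr rfl fun j hj => ?_
      rw [if_neg (by have := Finset.mem_range.1 hj; omega)]
      ring
    rw [h1, iter_mulX hg k]
    ring

theorem PolODE_mulX {g : ℂ → ℂ} (hg : Differentiable ℂ g) (h : PolODE g) :
    PolODE (fun z => z * g z) := by
  classical
  obtain ⟨m, a, ⟨k0, hk0, hn⟩, h⟩ := h
  let T := (Finset.range (m + 1)).filter fun k => a k ≠ 0
  have hT : T.Nonempty :=
    ⟨k0, Finset.mem_filter.mpr ⟨Finset.mem_range.mpr (Nat.lt_succ_of_le hk0), hn⟩⟩
  set l := T.max' hT with hl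
  have hlT : l ∈ T := T.max'_mem hT
  have hlm : l ≤ m := Nat.lt_succ_iff.mp (Finset.mem_range.mp (Finset.mem_filter.mp hlT).1)
  have hlN : a l ≠ 0 := (Finset.mem_filter.mp hlT).2
  have hbig : ∀ k ∈ Finset.range (m + 1), k ∉ Finset.range (l + 1) → a k = 0 := by
    intro k hk hkl
    by_contra hcon
    have : k ∈ T := Finset.mem_filter.mpr ⟨hk, hcon⟩
    have h2 := T.le_max' k this
    rw [Finset.mem_range] at hkl
    omega
  have hsub : Finset.range (l + 1) ⊆ Finset.range (m + 1) := by
    intro k hk
    rw [Finset.mem_range] at hk ⊢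
    omega
  have h1 : ∀ z, ∑ k ∈ Finset.range (l + 1), (a k).eval z * iteratedDeriv k g z = 0 := by
    intro z
    rw [Finset.sum_subset hsub (by
      intro k hk hk'
      rw [hbig k hk hk', Polynomial.eval_zero, zero_mul])]
    exact h z
  choose c hc hlow using fun k => lower hg k
  let b : ℕ → Polynomial ℂ := fun j => ∑ k ∈ Finset.range (l + 1),
    if j ≤ k then a k * Polynomial.X ^ (l - k) * Polynomial.C (c k j) * Polynomial.X ^ j else 0
  refine ⟨l, b, ⟨l, le_rfl, ?_⟩, fun z => ?_⟩
  · have h2 : b l = a l * Polynomial.X ^ l := by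
      simp only [b]
      rw [Finset.sum_range_succ, if_pos le_rfl, Nat.sub_self, hc, Finset.sum_eq_zero]
      · simp
      · intro k hk
        rw [if_neg (by have := Finset.mem_range.1 hk; omega)]
    rw [h2]
    exact mul_ne_zero hlN (pow_ne_zero _ Polynomial.X_ne_zero)
  · have h2 : ∑ j ∈ Finset.range (l + 1), (b j).eval z *
        iteratedDeriv j (fun z => z * g z) z =
        z ^ (l + 1) * ∑ k ∈ Finset.range (l + 1), (a k).eval z * iteratedDeriv k g z := by
      simp only [b, Polynomial.eval_finsetSum, Finset.sum_mul]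
      rw [Finset.sum_comm, Finset.mul_sum]
      refine Finset.sum_congr rfl fun k hk => ?_
      have hk' : k ≤ l := by have := Finset.mem_range.1 hk; omega
      have h3 : z ^ (l + 1) * ((a k).eval z * iteratedDeriv k g z) =
          (a k).eval z * z ^ (l - k) * (z ^ (k + 1) * iteratedDeriv k g z) := by
        have : z ^ (l + 1) = z ^ (l - k) * z ^ (k + 1) := by
          rw [← pow_add]
          congr 1
          omega
        rw [this]
        ring
      rw [h3, hlow, Finset.mul_sum]
      have h4 : Finset.range (k + 1) ⊆ Finset.range (l + 1) := by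
        intro j hj
        rw [Finset.mem_range] at hj ⊢
        omega
      rw [← Finset.sum_subset h4]
      · refine Finset.sum_congr rfl fun j hj => ?_
        rw [if_pos (by have := Finset.mem_range.1 hj; omega)]
        simp only [Polynomial.eval_mul, Polynomial.eval_pow, Polynomial.eval_X, Polynomial.eval_C]
        ring
      · intro j _ hj
        rw [Finset.mem_range] at hj
        rw [if_neg (by omega), Polynomial.eval_zero, zero_mul]
    rw [h2, h1, mul_zero]

end Pool.Agent.TH8.TEN
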