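import Pool.Agent.TH8.TEN.Emb
import Pool.Agent.TH8.QD.QHol

/-!
Curves given by linear differential equations with polynomial coefficients have many families.
-/

set_option autoImplicit false

namespace Pool.Agent.TH8.TEN

open MvPolynomial Metric Set Filter Topology Pool.Agent.TH143 Pool.Agent.TH143.GT
open FF Pool.Agent.W602.GT Pool.Agent.TH8.QD

theorem polS_diff : DiffRing univ polS := by
  constructor
  · rintro b ⟨P, hP⟩ z _
    rw [show b = fun z => P.eval z from funext hP]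
    exact P.differentiable.analyticAt z
  · rintro b ⟨P, hP⟩
    refine ⟨fun z => (Polynomial.derivative P).eval z, ⟨_, fun _ => rfl⟩, fun z _ => ?_⟩
    rw [show b = fun z => P.eval z from funext hP]
    exact P.hasDerivAt z

theorem linOver_of_pol {g : ℂ → ℂ} (h : PolODE g) : LinOver univ polS g := by
  obtain ⟨m, a, ⟨k, hk, hn⟩, h⟩ := h
  refine ⟨m, fun k z => (a k).eval z, fun k => ⟨_, fun _ => rfl⟩, ⟨k, hk, ?_⟩, fun z _ => h z⟩
  by_contra hcon
  push Not at hcon
  apply hn
  apply Polynomial.funext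
  intro z
  rw [hcon z (mem_univ z), Polynomial.eval_zero]

theorem toHol_mul {S : Set ℂ} {F G : ℂ → ℂ} (hF : AnalyticOnNhd ℂ F S)
    (hG : AnalyticOnNhd ℂ G S) : toHol (fun z => F z * G z) (hF.mul hG) = toHol F hF * toHol G hG :=
  rfl

theorem toHol_pol {S : Set ℂ} (hid : AnalyticOnNhd ℂ (fun z : ℂ => z) S) (P : Polynomial ℂ)
    (hP : AnalyticOnNhd ℂ (fun z : ℂ => P.eval z) S) :
    toHol (fun z => P.eval z) hP = Polynomial.aeval (toHol (fun z => z) hid) P := by
  apply hol_ext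
  intro z
  have h1 := Polynomial.aeval_algHom_apply (evz z) (toHol (fun z => z) hid) P
  rw [← h1, evz_toHol, evz_toHol, Polynomial.coe_aeval_eq_eval]

theorem flow_gen {B : Subalgebra ℂ (ℂ → ℂ)} (hB : DiffRing univ B) {N : ℕ}
    (f : ℂ → Fin (N + 1) → ℂ) (hf : ∀ j, AnalyticOnNhd ℂ (fun w => f w j) univ)
    (hlin : ∀ j, LinOver univ B (fun w => f w j)) :
    ∃ (z0 : ℂ) (r : ℝ), 0 < r ∧ ∃ B' : Subalgebra ℂ (Hol (ball z0 r)),
      (∀ x ∈ B', ∃ b ∈ B, ∃ s ∈ B, ∃ k : ℕ, ∀ z : ball z0 r, s z ≠ 0 ∧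
        evz z x = b z / s z ^ k) ∧
      ∀ (K : Type) [Field K] [Algebra (Hol (ball z0 r)) K] [IsFractionRing (Hol (ball z0 r)) K]
        [Algebra ℂ K] [IsScalarTower ℂ (Hol (ball z0 r)) K] (D : K → K)
        (_ : ∀ x y, D (x + y) = D x + D y) (_ : ∀ x y, D (x * y) = x * D y + y * D x)
        (_ : ∀ x ∈ B', D (algebraMap (Hol (ball z0 r)) K x) = 0)
        (Xh : Fin (N + 1) → Hol (ball z0 r)) (_ : ∀ j (z : ball z0 r), evz z (Xh j) = f z j)
        (q : ℕ) (c : Fin q → Hol (ball z0 r)) (g0 g1 : Fin q → MvPolynomial (Fin (N + 1)) ℂ)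
        (e : Fin q → ℕ) (_ : ∀ j, (g0 j).IsHomogeneous (e j))
        (_ : ∀ j, (g1 j).IsHomogeneous (e j))
        (_ : ∑ j, algebraMap (Hol (ball z0 r)) K (c j) *
          (D (W602.GT.val (fun i => algebraMap (Hol (ball z0 r)) K (Xh i)) (g1 j)) *
            W602.GT.val (fun i => algebraMap (Hol (ball z0 r)) K (Xh i)) (g0 j) -
          W602.GT.val (fun i => algebraMap (Hol (ball z0 r)) K (Xh i)) (g1 j) *
            D (W602.GT.val (fun i => algebraMap (Hol (ball z0 r)) K (Xh i)) (g0 j))) ≠ 0),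
        ∃ W : Fin (N + 1) → Polynomial (Hol (ball z0 r)),
          (∀ R : MvPolynomial (Fin (N + 1)) ℂ, (∃ d, R.IsHomogeneous d) →
            (∀ z : ball z0 r, eval (f z) R = 0) → aeval W R = 0) ∧
          (∀ j, (W j).eval 1 = Xh j) ∧
          ∑ j, c j * (Polynomial.derivative (aeval W (g1 j)) * aeval W (g0 j) -
            aeval W (g1 j) * Polynomial.derivative (aeval W (g0 j))).eval 1 ≠ 0 := by
  classical
  have hΩc : IsPreconnected (univ : Set ℂ) := isPreconnected_univ
  choose m l a hlB haB hl0 hnorm using fun j => (hlin j).normal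
  -- a nonzero product of analytic functions
  have hprod : ∀ T : Finset (Fin (N + 1)), ∃ z ∈ (univ : Set ℂ), (∏ j ∈ T, l j z) ≠ 0 := by
    intro T
    induction T using Finset.induction_on with
    | empty => exact ⟨0, mem_univ _, by simp⟩
    | insert j T hj ih =>
      by_contra hcon
      push Not at hcon
      simp only [Finset.prod_insert hj] at hcon
      have hT : AnalyticOnNhd ℂ (fun z => ∏ j ∈ T, l j z) univ := by
        intro z hz
        apply Finset.analyticAt_fun_prod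
        intro i _
        exact hB.an _ (hlB i) z hz
      rcases AnalyticOnNhd.eq_zero_or_eq_zero_of_mul_eq_zero (hB.an _ (hlB j)) hT hcon hΩc with h | h
      · obtain ⟨z, hz, hz'⟩ := hl0 j
        exact hz' (h z hz)
      · obtain ⟨z, hz, hz'⟩ := ih
        exact hz' (h z hz)
  let s : ℂ → ℂ := ∏ j, l j
  have hs : ∀ z, s z = ∏ j, l j z := fun z => Finset.prod_apply z _ _
  have hsB : s ∈ B := B.prod_mem fun j _ => hlB j
  obtain ⟨z0, hz0, hsz0⟩ := hprod Finset.univ
  rw [← hs] at hsz0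
  have hsan := hB.an s hsB
  -- the system
  let num : Fin (N + 1) → ℕ → ℂ → ℂ := fun j k => a j k * ∏ i ∈ Finset.univ.erase j, l i
  have hnumB : ∀ j k, num j k ∈ B := fun j k =>
    B.mul_mem (haB j k) (B.prod_mem fun i _ => hlB i)
  have hnum : ∀ j k z, s z ≠ 0 → l j z ≠ 0 ∧ num j k z / s z = a j k z / l j z := by
    intro j k z hz
    have h2 : s z = l j z * ∏ i ∈ Finset.univ.erase j, l i z := by
      rw [hs, Finset.mul_prod_erase _ (fun i => l i z) (Finset.mem_univ j)]
    have h3 : l j z ≠ 0 := fun h => hz (by rw [h2, h, zero_mul])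
    have h4 : (∏ i ∈ Finset.univ.erase j, l i z) ≠ 0 := fun h => hz (by rw [h2, h, mul_zero])
    refine ⟨h3, ?_⟩
    simp only [num, Pi.mul_apply, Finset.prod_apply]
    rw [h2]
    field_simp
  obtain ⟨n, A, y, L, hA, hsys⟩ := exists_system (fun j w => f w j) m
    (fun j k z => num j k z / s z)
  set Ω' := {z ∈ (univ : Set ℂ) | s z ≠ 0} with hΩ'
  have hΩ'o : IsOpen Ω' := by
    rw [isOpen_iff_mem_nhds]
    intro z hz
    filter_upwards [isOpen_univ.mem_nhds hz.1,
      (hsan z hz.1).continuousAt.eventually_ne hz.2] with w h2 h3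
    exact ⟨h2, h3⟩
  have hsys' : ∀ w ∈ Ω', (∀ i, HasDerivAt (fun w => y w i) (∑ k, A i k w * y w k) w) ∧
      ∀ j, f w j = ∑ k, L j k * y w k := by
    intro w hw
    apply hsys w (fun j => hf j w hw.1)
    intro j
    rw [hnorm j w hw.1 (hnum j 0 w hw.2).1]
    refine Finset.sum_congr rfl fun k _ => ?_
    rw [(hnum j k w hw.2).2]
  have hAB : ∀ i k, ∃ b ∈ B, ∀ z ∈ Ω', A i k z = b z / s z ^ 1 := by
    intro i k
    obtain ⟨α, ε, j, p, hp⟩ := hA i k
    refine ⟨algebraMap ℂ (ℂ → ℂ) α * s + algebraMap ℂ (ℂ → ℂ) ε * num j p,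
      B.add_mem (B.mul_mem (B.algebraMap_mem α) hsB) (B.mul_mem (B.algebraMap_mem ε) (hnumB j p)),
      fun z hz => ?_⟩
    rw [hp, Pi.add_apply, Pi.mul_apply, Pi.mul_apply]
    have h2 := hz.2
    have h3 : ∀ c : ℂ, (algebraMap ℂ (ℂ → ℂ) c) z = c := fun c => rfl
    rw [h3, h3]
    field_simp
  choose bA hbA hbAe using hAB
  choose! der hderB hder using hB.der
  have hAan : ∀ i k, AnalyticOnNhd ℂ (fun z => bA i k z / s z ^ 1) Ω' := fun i k z hz =>
    (hB.an _ (hbA i k) z hz.1).fun_div ((hsan z hz.1).fun_pow 1) (pow_ne_zero _ hz.2)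
  obtain ⟨r, hr, hrS, U, hU, hdet⟩ := exists_fund hΩ'o
    (fun z => Matrix.of fun i k => bA i k z / s z ^ 1) (fun i k => by
      simpa only [Matrix.of_apply] using hAan i k)
    (show z0 ∈ Ω' from ⟨hz0, hsz0⟩)
  set S := ball z0 r with hS
  have hz0S : z0 ∈ S := mem_ball_self hr
  have hSo : IsOpen S := isOpen_ball
  have hSc : IsPreconnected S := (convex_ball z0 r).isPreconnected
  have hSs : ∀ z ∈ S, s z ≠ 0 := fun z hz => (hrS hz).2
  have hSΩ : S ⊆ univ := fun z hz => (hrS hz).1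
  set c : Fin n → ℂ := Matrix.mulVec (U z0)⁻¹ (y z0) with hc
  have hyU : ∀ z ∈ S, ∀ i, y z i = ∑ l, U z i l * c l := by
    have h2 := sol_zero (a := z0) (r := r) (fun i k z => bA i k z / s z ^ 1)
      (fun i k => (hAan i k).mono hrS)
      (fun z i => y z i - ∑ l, U z i l * c l) (by
        intro z hz i
        have h3 := (hsys' z (hrS hz)).1 i
        have h4 : HasDerivAt (fun z => ∑ l, U z i l * c l)
            (∑ l, (∑ k, bA i k z / s z ^ 1 * U z k l) * c l) z := by
          apply HasDerivAt.fun_sum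
          intro l _
          have h5 := (hU z hz i l).mul_const (c l)
          rw [Matrix.mul_apply] at h5
          exact h5
        refine (h3.fun_sub h4).congr_deriv ?_
        simp only [hbAe _ _ z (hrS hz), mul_sub, Finset.sum_sub_distrib, Finset.sum_mul,
          Finset.mul_sum]
        congr 1
        rw [Finset.sum_comm]
        refine Finset.sum_congr rfl fun k _ => Finset.sum_congr rfl fun l _ => ?_
        ring) (by
        intro i
        have h6 : ∑ l, U z0 i l * c l = y z0 i := by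
          have h7 : Matrix.mulVec (U z0) c = y z0 := by
            rw [hc, Matrix.mulVec_mulVec, Matrix.mul_nonsing_inv _ ((hdet z0 hz0S).isUnit),
              Matrix.one_mulVec]
          rw [← h7]
          rfl
        rw [h6, sub_self])
    intro z hz i
    exact sub_eq_zero.mp (h2 z hz i)
  -- the coefficients
  let bb : B × ℕ → ℂ → ℂ := fun p z => p.1.1 z / s z ^ p.2
  have hbb : ∀ p, AnalyticOnNhd ℂ (bb p) S := fun p z hz =>
    (hB.an _ p.1.2 z (hSΩ hz)).fun_div ((hsan z (hSΩ hz)).fun_pow _) (pow_ne_zero _ (hSs z hz))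
  let dd : B × ℕ → B × ℕ := fun p =>
    (⟨der p.1.1 * s - algebraMap ℂ (ℂ → ℂ) (p.2 : ℂ) * p.1.1 * der s,
      B.sub_mem (B.mul_mem (hderB _ p.1.2) hsB)
        (B.mul_mem (B.mul_mem (B.algebraMap_mem _) p.1.2) (hderB _ hsB))⟩, p.2 + 1)
  have hdd : ∀ p, ∀ z ∈ S, HasDerivAt (bb p) (bb (dd p) z) z := by
    rintro ⟨b, k⟩ z hz
    have h2 := hder b.1 b.2 z (hSΩ hz)
    have h3 := hder s hsB z (hSΩ hz)
    have h4 := hSs z hz
    refine (h2.fun_div (h3.fun_pow k) (pow_ne_zero k h4)).congr_deriv ?_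
    have h5 : ∀ c : ℂ, (algebraMap ℂ (ℂ → ℂ) c) z = c := fun c => rfl
    simp only [bb, dd, Pi.sub_apply, Pi.mul_apply, h5]
    cases k with
    | zero => simp; field_simp
    | succ k =>
      rw [Nat.add_sub_cancel]
      field_simp
      ring
  let Φ : Fin (N + 1) → MvPolynomial ((B × ℕ) ⊕ (Fin n × Fin n)) ℂ := fun j =>
    ∑ k, ∑ l, MvPolynomial.C (L j k * c l) * X (Sum.inr (k, l))
  have hΦ : ∀ z ∈ S, ∀ j, eval (vv bb U z) (Φ j) = f z j := by
    intro z hz j
    rw [(hsys' z (hrS hz)).2 j]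
    simp only [Φ, map_sum, map_mul, eval_C, eval_X, vv, Sum.elim_inr]
    refine Finset.sum_congr rfl fun k _ => ?_
    rw [hyU z hz k, Finset.mul_sum]
    refine Finset.sum_congr rfl fun l _ => ?_
    ring
  have hFS : ∀ z ∈ S, (fun j => eval (vv bb U z) (Φ j)) = f z := fun z hz => funext (hΦ z hz)
  refine ⟨z0, r, hr, locAlg B s hsB S hSs, ?_, ?_⟩
  · rintro x ⟨b, hb, k, hx⟩
    exact ⟨b, hb, s, hsB, k, fun z => ⟨hSs z z.2, hx z⟩⟩
  intro K _ _ _ _ _ D hadd hmul hDB Xh hXh q c g0 g1 e hg0 hg1 hG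
  obtain ⟨W, h1, h2, h3⟩ := emb_local hSo hSc ⟨z0, hz0S⟩ (K := K) bb hbb dd hdd
    (fun i k => (⟨bA i k, hbA i k⟩, 1)) U
    (fun z hz i j => by
      have := hU z hz i j
      rw [Matrix.mul_apply] at this
      exact this) hdet (locAlg B s hsB S hSs) (fun p => ⟨p.1.1, p.1.2, p.2, fun z => rfl⟩) Φ Xh
    (fun j z => by rw [hXh, hΦ z z.2]) D hadd hmul hDB c g0 g1 e hg0 hg1 hG
  refine ⟨W, fun R hR hz => h1 R hR fun z hz' => ?_, h2, h3⟩
  rw [hFS z hz']
  exact hz ⟨z, hz'⟩

theorem hol_val {S : Set ℂ} {K : Type} [Field K] [Algebra (Hol S) K] [Algebra ℂ K]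
    [IsScalarTower ℂ (Hol S) K] {N : ℕ} (Xh : Fin (N + 1) → Hol S)
    (G : MvPolynomial (Fin (N + 1)) ℂ) :
    W602.GT.val (fun i => algebraMap (Hol S) K (Xh i)) G = algebraMap (Hol S) K (aeval Xh G) := by
  have h1 := MvPolynomial.comp_aeval_apply (f := Xh) (IsScalarTower.toAlgHom ℂ (Hol S) K) G
  exact h1.symm

theorem hol_eval {S : Set ℂ} {N : ℕ} (Xh : Fin (N + 1) → Hol S) (G : MvPolynomial (Fin (N + 1)) ℂ)
    (z : S) : evz z (aeval Xh G) = eval (fun j => evz z (Xh j)) G := by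
  have h4 := MvPolynomial.comp_aeval_apply (f := Xh) (evz z) G
  rw [h4, ← MvPolynomial.aeval_eq_eval]

/-- **Curves given by linear differential equations with polynomial coefficients.** -/
theorem flow_ode {N : ℕ} (f : ℂ → Fin (N + 1) → ℂ) (hf : ∀ j, Differentiable ℂ (fun w => f w j))
    (hlin : ∀ j, PolODE (fun w => f w j)) :
    ∃ (z0 : ℂ) (r : ℝ), 0 < r ∧
      ∀ (K : Type) [Field K] [Algebra (Hol (ball z0 r)) K] [IsFractionRing (Hol (ball z0 r)) K]
        [Algebra ℂ K] [IsScalarTower ℂ (Hol (ball z0 r)) K] (Xh : Fin (N + 1) → Hol (ball z0 r))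
        (_ : ∀ j (z : ball z0 r), evz z (Xh j) = f z j) (Z : Hol (ball z0 r))
        (_ : ∀ z : ball z0 r, evz z Z = z),
        FlowHyp (algebraMap (Hol (ball z0 r)) K Z) (fun j => algebraMap (Hol (ball z0 r)) K (Xh j)) := by
  classical
  obtain ⟨z0, r, hr, B', hB', H⟩ := flow_gen polS_diff f (fun j z _ => (hf j).analyticAt z)
    (fun j => linOver_of_pol (hlin j))
  refine ⟨z0, r, hr, ?_⟩
  intro K _ _ _ _ _ Xh hXh Z hZ D hD q c g1 g0 e hg1 hg0 hG
  have hdom : IsDomain (Hol (ball z0 r)) := hol_domain (convex_ball z0 r).isPreconnected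
    ⟨z0, mem_ball_self hr⟩
  have hinj : Function.Injective (algebraMap (Hol (ball z0 r)) K) := IsFractionRing.injective _ _
  have hZp : ∀ (P : Polynomial ℂ) (z : ball z0 r), evz z (Polynomial.aeval Z P) = P.eval (z : ℂ) := by
    intro P z
    have h1 := Polynomial.aeval_algHom_apply (evz z) Z P
    rw [← h1, hZ, Polynomial.coe_aeval_eq_eval]
  have hDp : ∀ P : Polynomial ℂ, D (algebraMap (Hol (ball z0 r)) K (Polynomial.aeval Z P)) = 0 := by
    intro P
    have h1 : algebraMap (Hol (ball z0 r)) K (Polynomial.aeval Z P) =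
        Polynomial.aeval (algebraMap (Hol (ball z0 r)) K Z) P :=
      (Polynomial.aeval_algebraMap_apply K Z P).symm
    rw [h1, Derivation.map_aeval, hD, smul_zero]
  have hDB : ∀ x ∈ B', D (algebraMap (Hol (ball z0 r)) K x) = 0 := by
    intro x hx
    obtain ⟨b, ⟨P, hP⟩, s, ⟨R, hR⟩, k, hbs⟩ := hB' x hx
    have h1 : x * Polynomial.aeval Z R ^ k = Polynomial.aeval Z P := by
      apply hol_ext
      intro z
      obtain ⟨h2, h3⟩ := hbs z
      rw [map_mul, map_pow, hZp, hZp, ← hP, ← hR, h3, div_mul_cancel₀ _ (pow_ne_zero _ h2)]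
    have h2 := congrArg (algebraMap (Hol (ball z0 r)) K) h1
    rw [map_mul, map_pow] at h2
    have h3 := congrArg D h2
    rw [D.leibniz, D.leibniz_pow, hDp, hDp] at h3
    simp only [smul_zero, zero_add, smul_eq_mul, mul_zero] at h3
    refine (mul_eq_zero.1 h3).resolve_left (pow_ne_zero _ ?_)
    intro h0
    have h4 : Polynomial.aeval Z R = 0 := hinj (by rw [h0, map_zero])
    have h5 := congrArg (evz (⟨z0, mem_ball_self hr⟩ : ball z0 r)) h4
    rw [hZp, map_zero, ← hR] at h5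
    exact (hbs ⟨z0, mem_ball_self hr⟩).1 h5
  -- common denominators
  obtain ⟨s0, hs0⟩ := IsLocalization.exist_integer_multiples_of_finset (nonZeroDivisors (Hol (ball z0 r)))
    (Finset.univ.image c)
  have hs0' : ∀ j, ∃ h : Hol (ball z0 r), algebraMap (Hol (ball z0 r)) K h = algebraMap (Hol (ball z0 r)) K s0 * c j := by
    intro j
    obtain ⟨h, hh⟩ := hs0 _ (Finset.mem_image_of_mem _ (Finset.mem_univ j))
    refine ⟨h, ?_⟩
    rw [hh, Algebra.smul_def]
  choose c' hc' using hs0'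
  have hs0n : algebraMap (Hol (ball z0 r)) K s0 ≠ 0 := by
    intro h
    exact nonZeroDivisors.ne_zero s0.2 (hinj (by rw [h, map_zero]))
  obtain ⟨W, hW1, hW2, hW3⟩ := H K (fun x => D x) (fun x y => map_add D x y) (fun x y => by
    rw [D.leibniz]
    simp only [smul_eq_mul]) hDB Xh hXh q c' g0 g1 e hg0 hg1 (by
    simp only [hc', mul_assoc]
    rw [← Finset.mul_sum]
    exact mul_ne_zero hs0n hG)
  have hmap : ∀ G : MvPolynomial (Fin (N + 1)) ℂ,
      (aeval (fun j => (W j).map (algebraMap (Hol (ball z0 r)) K)) G : Polynomial K) =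
        (aeval W G).map (algebraMap (Hol (ball z0 r)) K) := by
    intro G
    have h1 := MvPolynomial.comp_aeval_apply (f := W)
      (Polynomial.mapAlgHom (IsScalarTower.toAlgHom ℂ (Hol (ball z0 r)) K)) G
    exact h1.symm
  have hev : ∀ P : Polynomial (Hol (ball z0 r)), (P.map (algebraMap (Hol (ball z0 r)) K)).eval 1 =
      algebraMap (Hol (ball z0 r)) K (P.eval 1) := by
    intro P
    rw [Polynomial.eval_map, Polynomial.eval₂_at_one]
  refine ⟨fun j => (W j).map (algebraMap (Hol (ball z0 r)) K), fun G hG h0 => ?_, fun j => ?_, ?_⟩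
  · rw [hmap, hW1 G hG (fun z => ?_), Polynomial.map_zero]
    rw [hol_val] at h0
    have h1 : aeval Xh G = 0 := hinj (by rw [h0, map_zero])
    have h2 := congrArg (evz z) h1
    rw [hol_eval, map_zero] at h2
    rw [← h2]
    congr 1
    congr 1
    funext j
    exact (hXh j z).symm
  · rw [hev, hW2]
  · have h1 : algebraMap (Hol (ball z0 r)) K s0 * ∑ j, c j *
        (Polynomial.derivative (aeval (fun j => (W j).map (algebraMap (Hol (ball z0 r)) K)) (g1 j) :
            Polynomial K) * aeval (fun j => (W j).map (algebraMap (Hol (ball z0 r)) K)) (g0 j) -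
          aeval (fun j => (W j).map (algebraMap (Hol (ball z0 r)) K)) (g1 j) *
            Polynomial.derivative (aeval (fun j => (W j).map (algebraMap (Hol (ball z0 r)) K)) (g0 j) :
              Polynomial K)).eval 1 = algebraMap (Hol (ball z0 r)) K (∑ j, c' j *
          (Polynomial.derivative (aeval W (g1 j)) * aeval W (g0 j) -
            aeval W (g1 j) * Polynomial.derivative (aeval W (g0 j))).eval 1) := by
      rw [map_sum, Finset.mul_sum]
      refine Finset.sum_congr rfl fun j _ => ?_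
      rw [map_mul, hc', ← hev, hmap, hmap, Polynomial.derivative_map, Polynomial.derivative_map,
        ← Polynomial.map_mul, ← Polynomial.map_mul, ← Polynomial.map_sub]
      ring
    intro h0
    rw [h0, mul_zero] at h1
    exact hW3 (hinj (by rw [← h1, map_zero]))

end Pool.Agent.TH8.TEN
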