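import Pool.Agent.TH8.TEN.Mer

/-!
Functions which are algebraic over the rational functions and meromorphic on the plane are rational.
-/

set_option autoImplicit false

open FF Set Filter Topology Pool.Agent.W603.LV Pool.Agent.TH143 Polynomial

namespace Pool.Agent.TH8.TEN

theorem pol_bound (P : ℂ[X]) : ∃ C : ℝ, 0 ≤ C ∧ ∀ z : ℂ, ‖P.eval z‖ ≤ C * (1 + ‖z‖) ^ P.natDegree := by
  refine ⟨∑ i ∈ Finset.range (P.natDegree + 1), ‖P.coeff i‖,
    Finset.sum_nonneg fun _ _ => norm_nonneg _, fun z => ?_⟩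
  rw [Polynomial.eval_eq_sum_range]
  refine (norm_sum_le _ _).trans ?_
  rw [Finset.sum_mul]
  refine Finset.sum_le_sum fun i hi => ?_
  rw [norm_mul, norm_pow]
  refine mul_le_mul_of_nonneg_left ?_ (norm_nonneg _)
  have h1 : ‖z‖ ^ i ≤ (1 + ‖z‖) ^ i := by gcongr; linarith [norm_nonneg z]
  have h2 : (1 + ‖z‖) ^ i ≤ (1 + ‖z‖) ^ P.natDegree :=
    pow_le_pow_right₀ (by linarith [norm_nonneg z]) (by
      have := Finset.mem_range.1 hi
      omega)
  exact h1.trans h2

/-- the roots of a monic polynomial with polynomial coefficients have polynomial growth -/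
theorem root_bound (q : ℂ[X][X]) (hq : q.Monic) (g : ℂ → ℂ)
    (hg : ∀ z, (q.map (evalRingHom z)).eval (g z) = 0) :
    ∃ (C : ℝ) (N : ℕ), ∀ z, ‖g z‖ ≤ C * (1 + ‖z‖) ^ N := by
  classical
  choose C hC0 hC using fun i => pol_bound (q.coeff i)
  set N := ∑ i ∈ Finset.range (q.natDegree), (q.coeff i).natDegree with hN
  refine ⟨1 + ∑ i ∈ Finset.range q.natDegree, C i, N, fun z => ?_⟩
  set n := q.natDegree with hn
  have hx1 : 1 ≤ 1 + ‖z‖ := by linarith [norm_nonneg z]
  have hN1 : 1 ≤ (1 + ‖z‖) ^ N := one_le_pow₀ hx1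
  have h1 : ∀ i ∈ Finset.range n, ‖(q.coeff i).eval z‖ ≤ C i * (1 + ‖z‖) ^ N := by
    intro i hi
    refine (hC i z).trans (mul_le_mul_of_nonneg_left ?_ (hC0 i))
    refine pow_le_pow_right₀ hx1 ?_
    exact Finset.single_le_sum (f := fun i => (q.coeff i).natDegree) (fun _ _ => Nat.zero_le _) hi
  rcases le_or_gt ‖g z‖ 1 with h2 | h2
  · calc ‖g z‖ ≤ 1 * 1 := by linarith
      _ ≤ (1 + ∑ i ∈ Finset.range n, C i) * (1 + ‖z‖) ^ N := by
          refine mul_le_mul ?_ hN1 zero_le_one ?_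
          · linarith [Finset.sum_nonneg fun i (_ : i ∈ Finset.range n) => hC0 i]
          · linarith [Finset.sum_nonneg fun i (_ : i ∈ Finset.range n) => hC0 i]
  -- the equation
  have h3 : g z ^ n = - ∑ i ∈ Finset.range n, (q.coeff i).eval z * g z ^ i := by
    have h4 := hg z
    have hdeg : (q.map (evalRingHom z)).natDegree = n := hq.natDegree_map _
    rw [Polynomial.eval_eq_sum_range, hdeg, Finset.sum_range_succ] at h4
    have h5 : (q.map (evalRingHom z)).coeff n = 1 := by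
      rw [Polynomial.coeff_map, hn, hq.coeff_natDegree, map_one]
    rw [h5, one_mul] at h4
    simp only [Polynomial.coeff_map, coe_evalRingHom] at h4
    linear_combination h4
  rcases Nat.eq_zero_or_pos n with h0 | h0
  · rw [h0] at h3
    simp at h3
  have h4 : ‖g z‖ ^ n ≤ (∑ i ∈ Finset.range n, C i) * (1 + ‖z‖) ^ N * ‖g z‖ ^ (n - 1) := by
    rw [← norm_pow, h3, norm_neg]
    refine (norm_sum_le _ _).trans ?_
    rw [Finset.sum_mul, Finset.sum_mul]
    refine Finset.sum_le_sum fun i hi => ?_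
    rw [norm_mul, norm_pow]
    refine mul_le_mul (h1 i hi) ?_ (by positivity) (mul_nonneg (hC0 i) (by positivity))
    refine pow_le_pow_right₀ h2.le ?_
    have := Finset.mem_range.1 hi
    omega
  have h5 : ‖g z‖ ^ n = ‖g z‖ * ‖g z‖ ^ (n - 1) := by
    rw [← pow_succ', Nat.sub_add_cancel h0]
  rw [h5] at h4
  have h6 : 0 < ‖g z‖ ^ (n - 1) := by positivity
  have h7 := le_of_mul_le_mul_right h4 h6
  refine h7.trans ?_
  nlinarith

variable {M : Type} [Field M] [Algebra HU M] [IsFractionRing HU M] [Algebra ℂ M]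
  [IsScalarTower ℂ HU M]

theorem ev_aeval {Z : HU} (hZ : ∀ z, ev Z z = z) (P : ℂ[X]) (z : ℂ) :
    ev (aeval Z P) z = P.eval z := by
  have h1 := Polynomial.aeval_algHom_apply (evz (⟨z, mem_univ z⟩ : (univ : Set ℂ))) Z P
  have h2 : evz (⟨z, mem_univ z⟩ : (univ : Set ℂ)) Z = z := hZ z
  rw [h2, Polynomial.coe_aeval_eq_eval] at h1
  exact h1.symm

/-- **Integral functions are polynomials.** -/
theorem int_poly {K : Type} [Field K] [Algebra ℂ K] (ι : K →ₐ[ℂ] M) {z : K} {Z : HU}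
    (hZ : ∀ z, ev Z z = z) (hι : ι z = algebraMap HU M Z) {u : K}
    (hu : IsIntegral (Algebra.adjoin ℂ {z}) u) : ∃ P : ℂ[X], u = aeval z P := by
  classical
  obtain ⟨p, hp, hpu⟩ := hu
  obtain ⟨q, hq1, hq2, hq3⟩ := lifts_and_natDegree_eq_and_monic
    (f := (((aeval z : ℂ[X] →ₐ[ℂ] K).codRestrict (Algebra.adjoin ℂ {z}) (fun P => by
      rw [Algebra.adjoin_singleton_eq_range_aeval]
      exact ⟨P, rfl⟩) : ℂ[X] →ₐ[ℂ] Algebra.adjoin ℂ {z}) : ℂ[X] →+* Algebra.adjoin ℂ {z}))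
    (p := p) (by
      rw [lifts_iff_coeff_lifts]
      intro i
      obtain ⟨P, hP⟩ : ((p.coeff i : Algebra.adjoin ℂ {z}) : K) ∈
          (aeval z : ℂ[X] →ₐ[ℂ] K).range := by
        have h1 := (p.coeff i).2
        exact (Algebra.adjoin_singleton_eq_range_aeval ℂ z).le h1
      exact ⟨P, Subtype.ext hP⟩) hp
  have h1 : eval₂ ((aeval z : ℂ[X] →ₐ[ℂ] K) : ℂ[X] →+* K) u q = 0 := by
    rw [← hpu, ← hq1, eval₂_map]
    congr 1
  have h2 : eval₂ ((algebraMap HU M).comp ((aeval Z : ℂ[X] →ₐ[ℂ] HU) : ℂ[X] →+* HU)) (ι u) q = 0 := by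
    have h3 := congrArg ι h1
    rw [map_zero] at h3
    have h4 := hom_eval₂ q ((aeval z : ℂ[X] →ₐ[ℂ] K) : ℂ[X] →+* K) (ι : K →+* M) u
    have h5 : (ι : K →+* M).comp ((aeval z : ℂ[X] →ₐ[ℂ] K) : ℂ[X] →+* K) =
        (algebraMap HU M).comp ((aeval Z : ℂ[X] →ₐ[ℂ] HU) : ℂ[X] →+* HU) := by
      ext P
      · simp only [RingHom.comp_apply]
        change ι (aeval z (C P)) = algebraMap HU M (aeval Z (C P))
        rw [aeval_C, aeval_C, ι.commutes, ← IsScalarTower.algebraMap_apply]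
      · simp only [RingHom.comp_apply]
        change ι (aeval z X) = algebraMap HU M (aeval Z X)
        rw [aeval_X, aeval_X, hι]
    rw [h5] at h4
    rw [← h3]
    exact h4.symm
  have hint : IsIntegral HU (ι u) := by
    refine ⟨q.map ((aeval Z : ℂ[X] →ₐ[ℂ] HU) : ℂ[X] →+* HU), hq3.map _, ?_⟩
    rw [eval₂_map]
    exact h2
  have hreg : ∀ c, (ptPlace M Z hZ c).Reg (ι u) := by
    intro c
    refine Place.reg_of_isIntegral (A := HU) _ (fun a => ?_) hint
    by_cases ha : a = 0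
    · left
      rw [ha, map_zero]
    · right
      change (0 : ℤ) ≤ mord c (algebraMap HU M a)
      have h3 := (ev_an a c).meromorphicOrderAt_nonneg
      rw [← meromorphicOrderAt_congr (mer_hol (M := M) a c), mord_coe (amap_ne ha)] at h3
      exact_mod_cast h3
  obtain ⟨g, hg⟩ := pt_entire Z hZ hreg
  have h3 : eval₂ ((aeval Z : ℂ[X] →ₐ[ℂ] HU) : ℂ[X] →+* HU) g q = 0 := by
    apply IsFractionRing.injective HU M
    rw [map_zero, hom_eval₂, hg]
    exact h2
  have h4 : ∀ w, (q.map (evalRingHom w)).eval (ev g w) = 0 := by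
    intro w
    have h5 := congrArg (evz (⟨w, mem_univ w⟩ : (univ : Set ℂ))) h3
    rw [map_zero] at h5
    have h6 := hom_eval₂ q ((aeval Z : ℂ[X] →ₐ[ℂ] HU) : ℂ[X] →+* HU)
      (evz (⟨w, mem_univ w⟩ : (univ : Set ℂ)) : HU →+* ℂ) g
    rw [eval_map, ← h5]
    refine Eq.trans ?_ h6.symm
    congr 1
    ext P
    · simp only [RingHom.comp_apply]
      change eval w (C P) = ev (aeval Z (C P)) w
      rw [ev_aeval hZ]
    · simp only [RingHom.comp_apply]
      change eval w X = ev (aeval Z X) w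
      rw [ev_aeval hZ]
  obtain ⟨C, N, hCN⟩ := root_bound q hq3 (ev g) h4
  obtain ⟨P, hP⟩ := poly_of_growth (ev g) (fun w => (ev_an g w).differentiableAt) C N hCN
  refine ⟨P, ?_⟩
  apply ι.toRingHom.injective
  change ι u = ι (aeval z P)
  have h5 : g = aeval Z P := ev_ext fun w => by rw [hP, ev_aeval hZ]
  have h6 := Polynomial.aeval_algHom_apply (IsScalarTower.toAlgHom ℂ HU M) Z P
  have h7 := Polynomial.aeval_algHom_apply ι z P
  rw [hι] at h7
  rw [← hg, h5, ← h7]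
  exact h6.symm

/-- **Algebraic functions are rational.** -/
theorem alg_rat {K : Type} [Field K] [Algebra ℂ K] (ι : K →ₐ[ℂ] M) {z : K} {Z : HU}
    (hZ : ∀ z, ev Z z = z) (hι : ι z = algebraMap HU M Z) {h : K}
    (hh : IsAlgebraic (IntermediateField.adjoin ℂ {z}) h) :
    h ∈ IntermediateField.adjoin ℂ {z} := by
  have h1 : IsAlgebraic (Algebra.adjoin ℂ {z}) h := by
    by_contra hcon
    exact (IntermediateField.transcendental_adjoin_iff.2 hcon) hh
  obtain ⟨y, hy0, hy⟩ := h1.exists_integral_multiple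
  obtain ⟨P, hP⟩ := int_poly ι hZ hι hy
  have hyK : (y : K) ≠ 0 := fun h0 => hy0 (Subtype.ext h0)
  have h2 : h = aeval z P / (y : K) := by
    rw [eq_div_iff hyK, ← hP, mul_comm]
    rfl
  have hsub : Algebra.adjoin ℂ {z} ≤ (IntermediateField.adjoin ℂ {z}).toSubalgebra :=
    IntermediateField.algebra_adjoin_le_adjoin ℂ {z}
  rw [h2]
  refine div_mem (hsub ?_) (hsub y.2)
  rw [Algebra.adjoin_singleton_eq_range_aeval]
  exact ⟨P, rfl⟩

end Pool.Agent.TH8.TEN
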