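import Pool.Agent.TH8.TEN.Pole
import Pool.Agent.TH8.TEN.Rat
import Pool.Agent.TH8.TEN.MulX
import Pool.Agent.TH8.TEN.Ode

/-!
Tensor differentials vanish on a projective variety with a Zariski-dense entire curve given by
linear differential equations with polynomial coefficients.
-/

set_option autoImplicit false

open FF Set Metric Pool.Agent.W602.GT Pool.Agent.W603.LV Pool.Agent.TH143 Pool.Agent.TH143.GT
open MvPolynomial hiding C
open IntermediateField hiding val

namespace Pool.Agent.TH8.TEN

section pullback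

variable {k K L : Type} [Field k] [Field K] [Field L] [Algebra k K] [Algebra k L] [Algebra K L]
  [IsScalarTower k K L]

/-- the values of vector fields on given functions -/
def derVals {k L : Type} [Field k] [Field L] [Algebra k L] {w : ℕ} (y : Fin w → L) :
    Derivation k L L →ₗ[L] (Fin w → L) where
  toFun D := fun j => D (y j)
  map_add' D D' := by
    funext j
    rfl
  map_smul' c D := by
    funext j
    rfl

/-- the pull-back of a tensor differential -/
noncomputable def pullML {p w : ℕ} (θ : MultilinearMap K (fun _ : Fin p => Derivation k K K) K)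
    (y : Fin w → K) (E : Fin w → Derivation k K K) :
    MultilinearMap L (fun _ : Fin p => Derivation k L L) L :=
  (Th fun J => algebraMap K L (θ fun i => E (J i))).compLinearMap
    (fun _ => derVals fun j => algebraMap K L (y j))

omit [IsScalarTower k K L] in
theorem pullML_apply {p w : ℕ} (θ : MultilinearMap K (fun _ : Fin p => Derivation k K K) K)
    (y : Fin w → K) (E : Fin w → Derivation k K K) (D : Fin p → Derivation k L L) :
    pullML θ y E D = pull θ y E D := by
  rw [pull_eq_Th]
  rfl

theorem pull_inj [CharZero k] {p w : ℕ} (hw : Algebra.trdeg k K = w)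
    {θ : MultilinearMap K (fun _ : Fin p => Derivation k K K) K}
    {y : Fin w → K} {E : Fin w → Derivation k K K} (h : Dual y E)
    (h0 : ∀ D : Fin p → Derivation k L L, pull θ y E D = 0) : θ = 0 := by
  classical
  ext D
  choose D' hD' using fun i => ext_der (L := L) hw (D i)
  have h1 := h0 D'
  rw [pull_eq_Th] at h1
  simp only [hD'] at h1
  have h2 := Th_map (algebraMap K L) (fun J : Fin p → Fin w => θ fun i => E (J i))
    (fun i j => D i (y j))
  rw [← h2] at h1
  have h3 : θ D = Th (fun J => θ fun i => E (J i)) (fun i j => D i (y j)) := by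
    rw [Th_apply, ← theta_expand θ E fun i l => D i (y l)]
    congr 1
    funext i
    exact h.expand (D i)
  rw [h3]
  exact (map_eq_zero (algebraMap K L)).1 h1

end pullback

/-- the point given by a curve -/
theorem point_iff {S : Set ℂ} {F : Type} [Field F] [Algebra (Hol S) F] [Algebra ℂ F]
    [IsScalarTower ℂ (Hol S) F] (hinj : Function.Injective (algebraMap (Hol S) F)) {N : ℕ}
    {g : ℂ → Fin (N + 1) → ℂ} (Xh : Fin (N + 1) → Hol S) (hX : ∀ j (z : S), evz z (Xh j) = g z j)
    (G : MvPolynomial (Fin (N + 1)) ℂ) :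
    W602.GT.val (fun j => algebraMap (Hol S) F (Xh j)) G = 0 ↔ ∀ z ∈ S, eval (g z) G = 0 := by
  rw [hol_val, map_eq_zero_iff _ hinj]
  constructor
  · intro h z hz
    have h1 := hol_eval Xh G ⟨z, hz⟩
    rw [h, map_zero] at h1
    rw [h1]
    congr 2
    funext j
    exact (hX j ⟨z, hz⟩).symm
  · intro h
    apply hol_ext
    intro z
    rw [hol_eval, map_zero]
    have h1 : (fun j => evz z (Xh j)) = g z := funext fun j => hX j z
    rw [h1]
    exact h z z.2

/-- the restriction of a place to a subfield which contains a uniformizer -/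
noncomputable def resPlace {K M : Type} [Field K] [Field M] [Algebra ℂ K] [Algebra ℂ M]
    (v : Place ℂ M) (ι : K →ₐ[ℂ] M) {t : K} (ht : v.ord (ι t) = 1) : Place ℂ K where
  ord x := v.ord (ι x)
  ord_zero := by rw [map_zero, v.ord_zero]
  ord_mul := by
    intro f g hf hg
    rw [map_mul]
    exact v.ord_mul ((map_ne_zero ι).2 hf) ((map_ne_zero ι).2 hg)
  ord_add := by
    intro f g hf hg hfg
    rw [map_add]
    refine v.ord_add ((map_ne_zero ι).2 hf) ((map_ne_zero ι).2 hg) ?_
    rw [← map_add]
    exact (map_ne_zero ι).2 hfg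
  ord_const := by
    intro c hc
    rw [ι.commutes]
    exact v.ord_const hc
  surj := by
    refine ⟨t, ?_, ht⟩
    rintro rfl
    rw [map_zero, v.ord_zero] at ht
    omega

/-- **Tensor differentials vanish.** -/
theorem tensor_vanish {N w : ℕ} {K : Type} [Field K] [Algebra ℂ K] {y : Fin (N + 1) → K}
    {f : ℂ → Fin (N + 1) → ℂ} (hy : GenPt f univ K w y)
    (hf : ∀ j, Differentiable ℂ (fun z => f z j)) (hlin : ∀ j, PolODE (fun z => f z j))
    {p : ℕ} (hp : 0 < p) {θ : MultilinearMap K (fun _ : Fin p => Derivation ℂ K K) K}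
    (hθ : HolTensor w θ) : θ = 0 := by
  classical
  obtain ⟨j0, hj0⟩ := Function.ne_iff.1 hy.ne
  have hj0' : y j0 ≠ 0 := hj0
  obtain ⟨u0, hu0⟩ : ∃ z, f z j0 ≠ 0 := by
    by_contra hcon
    push Not at hcon
    apply hj0'
    have h1 := (hy.rel (X j0) ⟨1, isHomogeneous_X _ _⟩).2 fun z _ => by rw [eval_X]; exact hcon z
    unfold W602.GT.val at h1
    rwa [aeval_X] at h1
  -- the curve together with its parameter
  let g : ℂ → Fin (N + 1 + 1) → ℂ := fun z => Fin.cons (z * f z j0) (f z)
  have hg0 : ∀ z, g z 0 = z * f z j0 := fun z => rfl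
  have hgs : ∀ z j, g z j.succ = f z j := fun z j => rfl
  have hgd : ∀ j, Differentiable ℂ (fun z => g z j) := by
    intro j
    refine Fin.cases ?_ (fun j => ?_) j
    · exact differentiable_id.mul (hf j0)
    · exact hf j
  have hgl : ∀ j, PolODE (fun z => g z j) := by
    intro j
    refine Fin.cases ?_ (fun j => ?_) j
    · exact PolODE_mulX (hf j0) (hlin j0)
    · exact hlin j
  obtain ⟨K', iF, iA, w', y', hy', hgen', hw', hrel', -⟩ := exists_closure g (S := univ)
    isPreconnected_univ (fun j z _ => (hgd j).analyticAt z) (j0 := j0.succ)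
    ⟨u0, mem_univ _, hu0⟩
  have hess' : Algebra.EssFiniteType ℂ K' := ess_of_coords hgen'
  have hess : Algebra.EssFiniteType ℂ K := ess_of_coords hy.gen
  have hyj : y' j0.succ ≠ 0 := by
    intro h0
    apply hu0
    have h1 := (hrel' (X j0.succ) ⟨1, isHomogeneous_X _ _⟩).1 (by
      unfold W602.GT.val
      rwa [aeval_X]) u0 (mem_univ _)
    rwa [eval_X] at h1
  -- the projection
  have hren : ∀ G : MvPolynomial (Fin (N + 1)) ℂ,
      W602.GT.val (fun j => y' j.succ) G = W602.GT.val y' (rename Fin.succ G) := by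
    intro G
    unfold W602.GT.val
    rw [aeval_rename]
    rfl
  obtain ⟨φ, hφ⟩ := emb_point (F := K') (x := fun j => y' j.succ) hy.ne hy.gen (by
    intro G hG
    obtain ⟨d, hd⟩ := hG
    rw [hren, hy.rel G ⟨d, hd⟩, hrel' _ ⟨d, hd.rename_isHomogeneous⟩]
    refine forall_congr' fun z => forall_congr' fun _ => ?_
    rw [eval_rename]
    rfl)
  let _ : Algebra K K' := φ.toRingHom.toAlgebra
  have t0 : IsScalarTower ℂ K K' := IsScalarTower.of_algebraMap_eq fun c => by
    change _ = φ (algebraMap ℂ K c)
    rw [φ.commutes]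
  obtain ⟨y0, E, hdual⟩ := exists_dual hy.dim
  refine pull_inj (L := K') hy.dim hdual fun D => ?_
  rw [← pullML_apply]
  set θ' : MultilinearMap K' (fun _ : Fin p => Derivation ℂ K' K') K' := pullML θ y0 E with hθ'def
  have hθ' : HolTensor w' θ' := by
    intro v hv D hD
    rw [hθ'def, pullML_apply]
    exact pull_reg hy.dim hw' hθ hdual v hv D hD
  -- the parameter
  set z' : K' := y' 0 / y' j0.succ with hz'
  -- meromorphic functions
  let Z : HU := toHol (fun z => z) (fun z _ => analyticAt_id)
  have hZ : ∀ z, ev Z z = z := fun z => rfl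
  let Xg : Fin (N + 1 + 1) → HU := fun j => toHol (fun z => g z j) (fun z _ => (hgd j).analyticAt z)
  let M := FractionRing HU
  have hrelM := point_iff (F := M) (IsFractionRing.injective HU M) (g := g) Xg (fun j z => rfl)
  obtain ⟨ιM, hιM⟩ := emb_point (F := M) (x := fun j => algebraMap HU M (Xg j)) hy' hgen' (by
    intro G hG
    rw [hrel' G hG, hrelM])
  have hXX : ∀ {F : Type} [Field F] [Algebra ℂ F] (x : Fin (N + 1 + 1) → F) (i : Fin (N + 1 + 1)),
      W602.GT.val x (X i : MvPolynomial (Fin (N + 1 + 1)) ℂ) = x i := by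
    intro F _ _ x i
    unfold W602.GT.val
    rw [aeval_X]
  have hιz : ιM z' = algebraMap HU M Z := by
    have h1 := hιM 1 (X 0) (X j0.succ) (isHomogeneous_X _ _) (isHomogeneous_X _ _) (by
      rw [hXX]
      exact hyj)
    rw [hXX, hXX, hXX, hXX] at h1
    rw [hz', h1]
    have h2 : Xg 0 = Z * Xg j0.succ := by
      apply ev_ext
      intro z
      rw [ev_mul]
      rfl
    have h3 : Xg j0.succ ≠ 0 := by
      intro h0
      apply hu0
      have := congrArg (fun u => ev u u0) h0
      exact this
    rw [h2, map_mul, mul_div_assoc, div_self (amap_ne h3), mul_one]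
  have htr : Transcendental ℂ z' := by
    intro halg
    have h1 := halg.algHom ιM
    rw [hιz] at h1
    have h2 := (ptPlace M Z hZ 0).transcendental_of_ord_ne (f := algebraMap HU M Z) (by
      have := pt_ord (M := M) Z hZ 0
      rw [map_zero, sub_zero] at this
      rw [this]
      exact one_ne_zero)
    exact h2 h1
  obtain ⟨m, rfl⟩ : ∃ m, w' = m + 1 := by
    refine Nat.exists_eq_succ_of_ne_zero ?_
    rintro rfl
    have halg : Algebra.IsAlgebraic ℂ K' := by
      rw [← trdeg_eq_zero_iff]
      exact_mod_cast hw'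
    exact htr (halg.isAlgebraic z')
  -- the flow
  obtain ⟨c0, r, hr, H⟩ := flow_ode g hgd hgl
  have hdomB : IsDomain (Hol (ball c0 r)) :=
    hol_domain (convex_ball c0 r).isPreconnected ⟨c0, mem_ball_self hr⟩
  let F := FractionRing (Hol (ball c0 r))
  let Zb : Hol (ball c0 r) := toHol (fun z => z) (fun z _ => analyticAt_id)
  let Xb : Fin (N + 1 + 1) → Hol (ball c0 r) := fun j =>
    toHol (fun z => g z j) (fun z _ => (hgd j).analyticAt z)
  have hflow := H F Xb (fun j z => rfl) Zb (fun z => rfl)
  have hrelB := point_iff (F := F) (IsFractionRing.injective (Hol (ball c0 r)) F) (g := g) Xb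
    (fun j z => rfl)
  have hpt : ∀ G : MvPolynomial (Fin (N + 1 + 1)) ℂ, IsForm G →
      (W602.GT.val y' G = 0 ↔
        W602.GT.val (fun j => algebraMap (Hol (ball c0 r)) F (Xb j)) G = 0) := by
    intro G hG
    rw [hrel' G hG, hrelB]
    constructor
    · intro h z _
      exact h z (mem_univ z)
    · intro h z _
      have h1 : AnalyticOnNhd ℂ (fun z => eval (g z) G) univ := by
        intro z _
        have h2 : (fun z => eval (g z) G) = ev (aeval Xg G) := by
          funext z
          have := hol_eval Xg G ⟨z, mem_univ z⟩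
          exact this.symm
        rw [h2]
        exact ev_an _ z
      exact h1.eqOn_zero_of_preconnected_of_eventuallyEq_zero isPreconnected_univ
        (mem_univ c0) (by
          filter_upwards [ball_mem_nhds c0 hr] with z hz
          exact h z hz) (mem_univ z)
  obtain ⟨ι0, hι0⟩ := emb_point (F := F) hy' hgen' hpt
  have hι0z : ι0 z' = algebraMap (Hol (ball c0 r)) F Zb := by
    have h1 := hι0 1 (X 0) (X j0.succ) (isHomogeneous_X _ _) (isHomogeneous_X _ _) (by
      rw [hXX]
      exact hyj)
    rw [hXX, hXX, hXX, hXX] at h1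
    rw [hz', h1]
    have h2 : Xb 0 = Zb * Xb j0.succ := by
      apply hol_ext
      intro z
      rw [map_mul]
      rfl
    have h3 : algebraMap (Hol (ball c0 r)) F (Xb j0.succ) ≠ 0 := by
      intro h0
      have h4 := (hpt (X j0.succ) ⟨1, isHomogeneous_X _ _⟩).2 (by rw [hXX]; exact h0)
      rw [hXX] at h4
      exact hyj h4
    rw [h2, map_mul, mul_div_assoc, div_self h3, mul_one]
  have hflow' : FlowHyp (ι0 z') (fun j => algebraMap (Hol (ball c0 r)) F (Xb j)) := by
    rw [hι0z]
    exact hflow
  have hs : ∀ (D : Fin p → Derivation ℂ K' K') (i : Fin p), D i z' = 0 → θ' D = 0 :=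
    fun D i hi => slot_zero hw' hy' hgen' hpt ι0 hι0 hflow' hθ' D i hi
  obtain ⟨D0, hD0⟩ := der_of_transcendental htr
  have hrat : (θ' fun _ => D0) ∈ ℂ⟮z'⟯ :=
    alg_rat ιM hZ hιz (alg_coef hp hw' hy' hgen' hpt ι0 hι0 hflow' hθ' hD0)
  have hU : ∀ c : ℂ, ∃ P : Place ℂ K', Divisorial (m + 1) P ∧ P.ord (z' - algebraMap ℂ K' c) = 1 := by
    intro c
    have h1 : (ptPlace M Z hZ c).ord (ιM (z' - algebraMap ℂ K' c)) = 1 := by
      rw [map_sub, hιz, ιM.commutes]
      exact pt_ord Z hZ c
    refine unram hw' (resPlace (ptPlace M Z hZ c) ιM h1) (fun x hx => ?_)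
      (t := z' - algebraMap ℂ K' c) h1
    have h2 : (ptPlace M Z hZ c).Reg (ιM x) := by
      rcases hx with hx | hx
      · exact Or.inl (by rw [hx, map_zero])
      · exact Or.inr hx
    obtain ⟨a, ha⟩ := pt_rat Z hZ c h2
    refine ⟨a, ?_⟩
    have h3 : ιM (x - algebraMap ℂ K' a) = ιM x - algebraMap ℂ M a := by
      rw [map_sub, ιM.commutes]
    rw [← h3] at ha
    rcases ha with ha | ha
    · exact Or.inl ((map_eq_zero ιM).1 ha)
    · exact Or.inr ha
  have h0 : (θ' fun _ => D0) = 0 := ten_rational hp hw' hθ' htr hs hD0 hrat hU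
  rw [ten_eq hs hD0, h0, mul_zero]

end Pool.Agent.TH8.TEN
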