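import Pool.Agent.TH8.TEN.Core

/-!
Special varieties in the sense of Campana.
-/

set_option autoImplicit false

open FF Pool.Agent.W602.GT Pool.Agent.W603.LV Pool.Agent.TH143.GT

namespace Pool.Agent.TH8.TEN

variable {K : Type} [Field K] [Algebra ℂ K]

/-- `g ⊗ ω ^ m` is a global section of the `m`-th power of the saturated subsheaf of rank one of
the sheaf of `p`-forms generated by the rational `p`-form `ω`, on the smooth projective models of
the field `K` of transcendence degree `w`: all its values on vector fields which are regular at a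
prime divisor are regular there. -/
def PowSec (w : ℕ) {p : ℕ} (ω : Derivation ℂ K K [⋀^Fin p]→ₗ[K] K) (m : ℕ) (g : K) : Prop :=
  ∀ v : Place ℂ K, Divisorial w v → ∀ D : Fin m → Fin p → Derivation ℂ K K,
    (∀ i j, DerReg v (D i j)) → v.Reg (g * ∏ i, ω (D i))

/-- The subsheaf of rank one of the sheaf of `p`-forms which is generated by `ω` has Kodaira
dimension at least `d`: some power of it has `d + 1` sections whose ratios contain `d`
algebraically independent functions. -/
def KodGe (w : ℕ) {p : ℕ} (ω : Derivation ℂ K K [⋀^Fin p]→ₗ[K] K) (d : ℕ) : Prop :=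
  ∃ m : ℕ, 0 < m ∧ ∃ g : Fin (d + 1) → K, (∀ i, PowSec w ω m (g i)) ∧ g 0 ≠ 0 ∧
    AlgebraicIndependent ℂ (fun i : Fin d => g i.succ / g 0)

/-- The varieties with the function field `K`, of transcendence degree `w` over `ℂ`, are special
in the sense of Campana: for `p ≥ 1` no subsheaf of rank one of the sheaf of `p`-forms has Kodaira
dimension `≥ p`. -/
def Special (K : Type) [Field K] [Algebra ℂ K] (w : ℕ) : Prop :=
  ∀ (p : ℕ), 0 < p → ∀ ω : Derivation ℂ K K [⋀^Fin p]→ₗ[K] K, ω ≠ 0 → ¬ KodGe w ω p

theorem tprod_update {m p : ℕ} [DecidableEq (Fin (m * p))]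
    (ω : Derivation ℂ K K [⋀^Fin p]→ₗ[K] K) (D : Fin (m * p) → Derivation ℂ K K) (i0 : Fin m)
    (j0 : Fin p) (u : Derivation ℂ K K) :
    ∏ i : Fin m, ω (fun j => Function.update D (finProdFinEquiv (i0, j0)) u
      (finProdFinEquiv (i, j))) =
      ω (Function.update (fun j => D (finProdFinEquiv (i0, j))) j0 u) *
        ∏ i ∈ Finset.univ.erase i0, ω (fun j => D (finProdFinEquiv (i, j))) := by
  rw [← Finset.mul_prod_erase _ _ (Finset.mem_univ i0)]
  congr 1
  · congr 1
    funext j
    by_cases hj : j = j0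
    · subst hj
      rw [Function.update_self, Function.update_self]
    · rw [Function.update_of_ne hj, Function.update_of_ne]
      intro h
      exact hj (congrArg Prod.snd (finProdFinEquiv.injective h))
  · refine Finset.prod_congr rfl fun i hi => ?_
    congr 1
    funext j
    rw [Function.update_of_ne]
    intro h
    exact (Finset.ne_of_mem_erase hi) (congrArg Prod.fst (finProdFinEquiv.injective h))

/-- the tensor power of a form, as a tensor differential -/
noncomputable def tpow {p : ℕ} (ω : Derivation ℂ K K [⋀^Fin p]→ₗ[K] K) (m : ℕ) (g : K) :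
    MultilinearMap K (fun _ : Fin (m * p) => Derivation ℂ K K) K where
  toFun D := g * ∏ i : Fin m, ω (fun j => D (finProdFinEquiv (i, j)))
  map_update_add' := by
    intro _ D a x y
    obtain ⟨⟨i0, j0⟩, rfl⟩ := finProdFinEquiv.surjective a
    rw [tprod_update, tprod_update, tprod_update, ω.map_update_add]
    ring
  map_update_smul' := by
    intro _ D a c x
    obtain ⟨⟨i0, j0⟩, rfl⟩ := finProdFinEquiv.surjective a
    rw [tprod_update, tprod_update, ω.map_update_smul]
    simp only [smul_eq_mul]
    ring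

theorem tpow_apply {p : ℕ} (ω : Derivation ℂ K K [⋀^Fin p]→ₗ[K] K) (m : ℕ) (g : K)
    (D : Fin (m * p) → Derivation ℂ K K) :
    tpow ω m g D = g * ∏ i : Fin m, ω (fun j => D (finProdFinEquiv (i, j))) := rfl

theorem tpow_hol {w p : ℕ} {ω : Derivation ℂ K K [⋀^Fin p]→ₗ[K] K} {m : ℕ} {g : K}
    (h : PowSec w ω m g) : HolTensor w (tpow ω m g) := by
  intro v hv D hD
  rw [tpow_apply]
  exact h v hv (fun i j => D (finProdFinEquiv (i, j))) fun i j => hD _

/-- **Varieties without tensor differentials are special**; no subsheaf of rank one of a sheaf of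
forms has sections. -/
theorem powSec_zero {w : ℕ}
    (h : ∀ q : ℕ, 0 < q → ∀ θ : MultilinearMap K (fun _ : Fin q => Derivation ℂ K K) K,
      HolTensor w θ → θ = 0) {p : ℕ} (hp : 0 < p) {ω : Derivation ℂ K K [⋀^Fin p]→ₗ[K] K}
    (hω : ω ≠ 0) {m : ℕ} (hm : 0 < m) {g : K} (hg : PowSec w ω m g) : g = 0 := by
  have h1 := h (m * p) (Nat.mul_pos hm hp) _ (tpow_hol hg)
  obtain ⟨D, hD⟩ : ∃ D, ω D ≠ 0 := by
    by_contra hcon
    push Not at hcon
    exact hω (AlternatingMap.ext hcon)
  have h2 := congrArg (fun θ => θ fun a => D (finProdFinEquiv.symm a).2) h1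
  simp only [tpow_apply, Equiv.symm_apply_apply, Finset.prod_const, Finset.card_univ,
    Fintype.card_fin] at h2
  have h3 : g * ω D ^ m = 0 := h2
  exact (mul_eq_zero.1 h3).resolve_right (pow_ne_zero _ hD)

theorem special_of_tensor {w : ℕ}
    (h : ∀ q : ℕ, 0 < q → ∀ θ : MultilinearMap K (fun _ : Fin q => Derivation ℂ K K) K,
      HolTensor w θ → θ = 0) : Special K w := by
  rintro p hp ω hω ⟨m, hm, g, hg, h0, -⟩
  exact h0 (powSec_zero h hp hω hm (hg 0))

end Pool.Agent.TH8.TEN
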