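import Pool.Agent.TH8.TEN.Ten

/-!
The coefficient of a tensor differential is algebraic over the functions of the parameter.
-/

set_option autoImplicit false

open FF Pool.Agent.W602.GT Pool.Agent.W603.LV Pool.Agent.TH143.GT
open MvPolynomial hiding C
open IntermediateField hiding val

namespace Pool.Agent.TH8.TEN

/-- expansion of a multilinear form which vanishes on vector fields killing `z` -/
theorem ten_eq {K : Type} [Field K] [Algebra ℂ K] {p : ℕ}
    {θ : MultilinearMap K (fun _ : Fin p => Derivation ℂ K K) K} {z : K}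
    (hz : ∀ (D : Fin p → Derivation ℂ K K) (i : Fin p), D i z = 0 → θ D = 0)
    {D0 : Derivation ℂ K K} (hD0 : D0 z = 1) (D : Fin p → Derivation ℂ K K) :
    θ D = (∏ i, D i z) * θ (fun _ => D0) := by
  classical
  have key : ∀ S : Finset (Fin p),
      θ D = (∏ i ∈ S, D i z) * θ (fun i => if i ∈ S then D0 else D i) := by
    intro S
    induction S using Finset.induction_on with
    | empty => simp
    | insert j S hj ih =>
      rw [ih, Finset.prod_insert hj]
      set A : Fin p → Derivation ℂ K K := fun i => if i ∈ S then D0 else D i with hA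
      have h1 : A = Function.update A j ((D j z) • D0 + (D j - (D j z) • D0)) := by
        rw [add_sub_cancel]
        have h2 : D j = A j := by simp only [hA, if_neg hj]
        rw [h2, Function.update_eq_self]
      have h5 : θ (Function.update A j (D j - (D j z) • D0)) = 0 := by
        apply hz _ j
        rw [Function.update_self, Derivation.sub_apply, Derivation.smul_apply, hD0,
          smul_eq_mul, mul_one, sub_self]
      have h3 : θ A = D j z * θ (Function.update A j D0) := by
        conv_lhs => rw [h1]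
        rw [MultilinearMap.map_update_add, MultilinearMap.map_update_smul, smul_eq_mul, h5,
          add_zero]
      have h4 : Function.update A j D0 = fun i => if i ∈ insert j S then D0 else D i := by
        funext i
        by_cases hi : i = j
        · subst hi
          rw [Function.update_self, if_pos (Finset.mem_insert_self _ _)]
        · rw [Function.update_of_ne hi]
          simp only [hA, Finset.mem_insert, hi, false_or]
      rw [h3, h4]
      ring
  have h1 := key Finset.univ
  simpa using h1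

/-- the pull-back of such a form -/
theorem pull_ten {K L : Type} [Field K] [Field L] [Algebra ℂ K] [Algebra ℂ L] [Algebra K L]
    [IsScalarTower ℂ K L] {p w : ℕ}
    {θ : MultilinearMap K (fun _ : Fin p => Derivation ℂ K K) K} {z : K}
    (hz : ∀ (D : Fin p → Derivation ℂ K K) (i : Fin p), D i z = 0 → θ D = 0)
    {D0 : Derivation ℂ K K} (hD0 : D0 z = 1) {y : Fin w → K} {E : Fin w → Derivation ℂ K K}
    (h : Dual y E) (D : Fin p → Derivation ℂ L L) :
    pull θ y E D = (∏ i, D i (algebraMap K L z)) * algebraMap K L (θ fun _ => D0) := by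
  classical
  unfold pull
  have h1 : ∀ J : Fin p → Fin w, (∏ i, D i (algebraMap K L (y (J i)))) *
      algebraMap K L (θ fun i => E (J i)) =
      (∏ i, D i (algebraMap K L (y (J i))) * algebraMap K L (E (J i) z)) *
        algebraMap K L (θ fun _ => D0) := by
    intro J
    rw [ten_eq hz hD0 (fun i => E (J i)), map_mul, map_prod, Finset.prod_mul_distrib]
    ring
  rw [Finset.sum_congr rfl fun J _ => h1 J, ← Finset.sum_mul]
  congr 1
  have h2 : ∀ i, D i (algebraMap K L z) =
      ∑ j, D i (algebraMap K L (y j)) * algebraMap K L (E j z) := fun i => h.chain (D i) z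
  simp only [h2]
  rw [Finset.prod_univ_sum, Fintype.piFinset_univ]

variable {n : ℕ} {F : Type} [Field F] [Algebra ℂ F] {K : Type} [Field K] [Algebra ℂ K]
  {y : Fin (n + 1) → K} {x : Fin (n + 1) → F}

/-- **The coefficient is algebraic.** -/
theorem alg_coef {w p : ℕ} (hp : 0 < p) (hw : Algebra.trdeg ℂ K = w) (hy : y ≠ 0)
    (hgen : coords ℂ y = ⊤)
    (hx : ∀ G : MvPolynomial (Fin (n + 1)) ℂ, IsForm G →
      (W602.GT.val y G = 0 ↔ W602.GT.val x G = 0)) (ι0 : K →ₐ[ℂ] F)
    (hι0 : ∀ (d : ℕ) (g1 g0 : MvPolynomial (Fin (n + 1)) ℂ),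
      g1.IsHomogeneous d → g0.IsHomogeneous d → W602.GT.val y g0 ≠ 0 →
      ι0 (W602.GT.val y g1 / W602.GT.val y g0) = W602.GT.val x g1 / W602.GT.val x g0)
    {z : K} (hF : FlowHyp (ι0 z) x)
    {θ : MultilinearMap K (fun _ : Fin p => Derivation ℂ K K) K} (hθ : HolTensor w θ)
    {D0 : Derivation ℂ K K} (hD0 : D0 z = 1) :
    IsAlgebraic ℂ⟮z⟯ (θ fun _ => D0) := by
  classical
  by_contra htr
  have hess : Algebra.EssFiniteType ℂ K := ess_of_coords hgen
  have hsz : ∀ (D : Fin p → Derivation ℂ K K) (i : Fin p), D i z = 0 → θ D = 0 :=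
    fun D i hi => slot_zero hw hy hgen hx ι0 hι0 hF hθ D i hi
  obtain ⟨D, hD⟩ := Pool.Agent.TH143.der_of_transcendental htr
  set D1 : Derivation ℂ K K := D.restrictScalars ℂ with hD1
  have hD1h : D1 (θ fun _ => D0) = 1 := hD
  have hD1z : D1 z = 0 := D.map_algebraMap (⟨z, mem_adjoin_simple_self ℂ z⟩ : ℂ⟮z⟯)
  obtain ⟨e, g1, g0, hg1, hg0, hn, hr⟩ := exists_frac hgen (θ fun _ => D0)
  have hxn : W602.GT.val x g0 ≠ 0 := fun h0 => hn ((hx _ ⟨e, hg0⟩).2 h0)
  have hιh : ι0 (θ fun _ => D0) = W602.GT.val x g1 / W602.GT.val x g0 := by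
    rw [hr]
    exact hι0 e g1 g0 hg1 hg0 hn
  obtain ⟨D', hD'⟩ : ∃ D' : Derivation ℂ F F, ∀ f : K, D' (ι0 f) = ι0 (D1 f) := by
    let _ : Algebra K F := ι0.toRingHom.toAlgebra
    have t0 : IsScalarTower ℂ K F := IsScalarTower.of_algebraMap_eq fun c => by
      change _ = ι0 (algebraMap ℂ K c)
      rw [ι0.commutes]
    exact ext_der (L := F) hw D1
  obtain ⟨W, hW0, hW1, hW2⟩ := hF D' (by rw [hD', hD1z, map_zero]) 1 (fun _ => 1)
    (fun _ => g1) (fun _ => g0) (fun _ => e) (fun _ => hg1) (fun _ => hg0) (by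
    rw [Fin.sum_univ_one, one_mul]
    have h2 : W602.GT.val x g1 = ι0 (θ fun _ => D0) * W602.GT.val x g0 := by
      rw [hιh, div_mul_cancel₀ _ hxn]
    have h3 : D' (W602.GT.val x g1) = ι0 (θ fun _ => D0) * D' (W602.GT.val x g0) +
        W602.GT.val x g0 := by
      rw [h2, D'.leibniz, hD', hD1h, map_one]
      simp only [smul_eq_mul, mul_one]
    have h4 : D' (W602.GT.val x g1) * W602.GT.val x g0 - W602.GT.val x g1 *
        D' (W602.GT.val x g0) = W602.GT.val x g0 ^ 2 := by
      rw [h3]
      linear_combination (-D' (W602.GT.val x g0)) * h2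
    rw [h4]
    exact pow_ne_zero _ hxn)
  rw [Fin.sum_univ_one, one_mul] at hW2
  obtain ⟨M, m, W', x', φ, ι, hm, hmap, hW'1, hx', hφ, hι⟩ := fam_pack hy hgen hx W hW0 hW1
  obtain ⟨δ, hδ, htop⟩ := exists_delta ℂ M
  have hX0 : (RatFunc.X : RatFunc M) ≠ 0 := RatFunc.X_ne_zero
  have hX : δ (RatFunc.X : RatFunc M) = RatFunc.X := by
    have := hδ Polynomial.X
    rwa [RatFunc.algebraMap_X, Polynomial.derivative_X, map_one, mul_one] at this
  have hL : Algebra.trdeg ℂ (RatFunc M) = (m + 1 : ℕ) := trdeg_ratFunc ℂ M hm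
  have hvx' : ∀ G : MvPolynomial (Fin (n + 1)) ℂ, ((W602.GT.val x' G : M) : F) =
      W602.GT.val x G := by
    intro G
    have h4 := MvPolynomial.comp_aeval_apply (f := x') M.val G
    have h5 : (fun i => M.val (x' i)) = x := funext hx'
    rw [h5] at h4
    exact h4
  have hW'v : ∀ G : MvPolynomial (Fin (n + 1)) ℂ, (aeval W' G : Polynomial M).eval 1 =
      W602.GT.val x' G := eval_aeval W' hW'1
  have hx'n : W602.GT.val x' g0 ≠ 0 := by
    intro h0
    apply hxn
    rw [← hvx', h0]
    rfl
  -- the coefficient moves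
  have hmove : δ (φ (θ fun _ => D0)) ≠ 0 := by
    intro h0
    have h1 : φ (θ fun _ => D0) = rf (aeval W' g1) / rf (aeval W' g0) := by
      rw [hr]
      exact hφ e g1 g0 hg1 hg0 hn
    have h2 := Ev.delta hδ (a := aeval W' g1) (b := aeval W' g0) (by rw [hW'v]; exact hx'n)
    rw [← h1, h0] at h2
    have h3 := h2.zero_unique
    rw [div_eq_zero_iff, hW'v] at h3
    have h4 := h3.resolve_right (pow_ne_zero _ hx'n)
    apply hW2
    have hmd : ∀ G : MvPolynomial (Fin (n + 1)) ℂ,
        (Polynomial.derivative (aeval W' G : Polynomial M)).map (algebraMap M F) =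
          Polynomial.derivative (aeval W G : Polynomial F) := by
      intro G
      rw [← Polynomial.derivative_map, hmap]
    rw [← hmd, ← hmd, ← hmap, ← hmap, ← Polynomial.map_mul, ← Polynomial.map_mul,
      ← Polynomial.map_sub, Polynomial.eval_map, Polynomial.eval₂_at_one, h4, map_zero]
  let _ : Algebra K (RatFunc M) := φ.toRingHom.toAlgebra
  have t1 : IsScalarTower ℂ K (RatFunc M) := IsScalarTower.of_algebraMap_eq fun c => by
    change _ = φ (algebraMap ℂ K c)
    rw [φ.commutes]
  obtain ⟨y0, E, h⟩ := exists_dual hw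
  have hpull : ∀ Δ : Derivation ℂ (RatFunc M) (RatFunc M),
      pull θ y0 E (fun _ => Δ) = Δ (φ z) ^ p * φ (θ fun _ => D0) := by
    intro Δ
    rw [pull_ten hsz hD0 h]
    rw [Finset.prod_const, Finset.card_univ, Fintype.card_fin]
    rfl
  by_cases hδz : δ (φ z) = 0
  · -- the parameter is constant along the curves
    obtain ⟨m', s, Δ, hm', hs, hΔ0, hcomm, hΔσ, hspan⟩ := exists_cframe hL δ hX0 hX htop
    obtain ⟨D2, hD2⟩ := ext_der (L := RatFunc M) hw D0
    have hD2z : D2 (φ z) = 1 := by
      have h1 := hD2 z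
      rw [hD0, map_one] at h1
      exact h1
    obtain ⟨c, hc⟩ := hspan D2
    obtain ⟨l, hl⟩ : ∃ l, Δ l (φ z) ≠ 0 := by
      by_contra hcon
      push Not at hcon
      rw [hc, der_sum] at hD2z
      rw [Finset.sum_eq_zero fun l _ => by rw [hcon, smul_zero]] at hD2z
      exact zero_ne_one hD2z
    have h1 := core_val hw hL hθ h δ hX0 hX htop (fun _ => Δ l) (fun _ z => hcomm l z)
    rw [hpull, δ.leibniz, δ.leibniz_pow, ← hcomm l (φ z), hδz, map_zero] at h1
    simp only [smul_eq_mul, mul_zero, add_zero, smul_zero] at h1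
    exact hmove ((mul_eq_zero.1 h1).resolve_left (pow_ne_zero _ hl))
  · have h1 := core_tensor' hw hL hθ h δ hX0 hX htop (fun _ => δ) ⟨0, hp⟩ rfl
    rw [hpull] at h1
    have h2 := (mul_eq_zero.1 h1).resolve_left (pow_ne_zero _ hδz)
    rw [h2, map_zero] at hmove
    exact hmove rfl

end Pool.Agent.TH8.TEN
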