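import Pool.Agent.TH143.GT.Kod

/-!
Tensor differentials and families of rational curves.
-/

set_option autoImplicit false

open FF IntermediateField Pool.Agent.W602.GT Pool.Agent.W603.LV Pool.Agent.TH143.GT

namespace Pool.Agent.TH8.TEN

variable {k K L : Type} [Field k] [Field K] [Field L] [Algebra k K] [Algebra k L] [Algebra K L]
  [IsScalarTower k K L]

/-- `θ` is a tensor differential of degree `p`, i.e. a global section of the `p`-th tensor power of
the sheaf of differentials, on the smooth projective models of the field `K` of transcendence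
degree `w`: a multilinear function of `p` rational vector fields whose values on vector fields
which are regular at a prime divisor are regular there. -/
def HolTensor {k K : Type} [Field k] [Field K] [Algebra k K] (w : ℕ) {p : ℕ}
    (θ : MultilinearMap K (fun _ : Fin p => Derivation k K K) K) : Prop :=
  ∀ v : Place k K, Divisorial w v → ∀ D : Fin p → Derivation k K K,
    (∀ i, DerReg v (D i)) → v.Reg (θ D)

/-- logarithmic vector fields are regular -/
theorem derLog_reg {v : Place k K} {D : Derivation k K K} (h : DerLog v D) : DerReg v D := by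
  intro f hf
  by_cases h0 : f = 0
  · rw [h0, map_zero]
    exact v.reg_zero
  have h1 := v.reg_mul (h f) hf
  rwa [div_mul_cancel₀ _ h0] at h1

theorem HolTensor.log {w p : ℕ} {θ : MultilinearMap K (fun _ : Fin p => Derivation k K K) K}
    (h : HolTensor w θ) : ∀ v : Place k K, Divisorial w v → ∀ D : Fin p → Derivation k K K,
      (∀ i, DerLog v (D i)) → v.Reg (1 * θ D ^ 1) := by
  intro v hv D hD
  rw [one_mul, pow_one]
  exact h v hv D fun i => derLog_reg (hD i)

theorem HolTensor.reg {w p : ℕ} {θ : MultilinearMap K (fun _ : Fin p => Derivation k K K) K}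
    (h : HolTensor w θ) : ∀ v : Place k K, Divisorial w v → ¬ (fun _ : Place k K => False) v →
      ∀ D : Fin p → Derivation k K K, (∀ i, DerReg v (D i)) → v.Reg (1 * θ D ^ 1) := by
  intro v hv _ D hD
  rw [one_mul, pow_one]
  exact h v hv D hD

/-- **The pull-back of a tensor differential is regular.** -/
theorem pull_reg [CharZero k] [Algebra.EssFiniteType k K] {p w n : ℕ}
    (hw : Algebra.trdeg k K = w) (hn : Algebra.trdeg k L = n)
    {θ : MultilinearMap K (fun _ : Fin p => Derivation k K K) K} (hθ : HolTensor w θ)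
    {y : Fin w → K} {E : Fin w → Derivation k K K} (h : Dual y E)
    (P : Place k L) (hP : Divisorial n P) (D : Fin p → Derivation k L L)
    (hD : ∀ i, DerReg P (D i)) : P.Reg (pull θ y E D) := by
  have h1 := (local_reg hw hn θ one_pos 1 hθ.log hθ.reg h P hP D).2 hD (fun _ _ _ => id)
  rwa [map_one, one_mul, pow_one] at h1

/-- the values on commuting vector fields are constant along the curves -/
theorem core_val [CharZero k] [Algebra.EssFiniteType k K] {p w n : ℕ}
    (hw : Algebra.trdeg k K = w) (hn : Algebra.trdeg k L = n)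
    {θ : MultilinearMap K (fun _ : Fin p => Derivation k K K) K} (hθ : HolTensor w θ)
    {y : Fin w → K} {E : Fin w → Derivation k K K} (h : Dual y E)
    (δ : Derivation k L L) {σ : L} (hσ0 : σ ≠ 0) (hσ : δ σ = σ) (htop : (consts δ)⟮σ⟯ = ⊤)
    (D : Fin p → Derivation k L L) (hD : ∀ i z, D i (δ z) = δ (D i z)) :
    δ (pull θ y E D) = 0 := by
  have h1 := val_const hw hn θ one_pos 1 hθ.log hθ.reg h δ hσ0 hσ htop
    (fun _ _ _ _ _ _ => id) D hD
  rwa [map_one, one_mul, pow_one] at h1

/-- **The contraction of a tensor differential with the direction of the curves vanishes.** -/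
theorem core_tensor [CharZero k] [Algebra.EssFiniteType k K] {p w n : ℕ}
    (hw : Algebra.trdeg k K = w) (hn : Algebra.trdeg k L = n)
    {θ : MultilinearMap K (fun _ : Fin p => Derivation k K K) K} (hθ : HolTensor w θ)
    {y : Fin w → K} {E : Fin w → Derivation k K K} (h : Dual y E)
    (δ : Derivation k L L) {σ : L} (hσ0 : σ ≠ 0) (hσ : δ σ = σ) (htop : (consts δ)⟮σ⟯ = ⊤)
    (D : Fin p → Derivation k L L) (hcomm : ∀ i z, D i (δ z) = δ (D i z))
    (hDσ : ∀ i, D i = δ ∨ D i σ = 0) (j0 : Fin p) (hj0 : D j0 = δ) :
    pull θ y E D = 0 := by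
  classical
  by_contra hne
  set g := pull θ y E D with hg
  have h0 : δ g = 0 := core_val hw hn hθ h δ hσ0 hσ htop D hcomm
  obtain ⟨m, s, Δ, hm, hs, -, -, -, -⟩ := exists_cframe hn δ hσ0 hσ htop
  have hσt : Transcendental (consts δ) σ := sigma_tr δ hσ0 hσ
  obtain ⟨S, hS1, hS2⟩ := places (consts δ) hσt htop
  obtain ⟨P, hP, hPσ⟩ : ∃ P ∈ S, P.ord σ = 1 := by
    by_contra hcon
    push Not at hcon
    have h1 : σ⁻¹ ∈ Algebra.adjoin (consts δ) {σ} := by
      apply hS2
      intro P hP
      obtain ⟨-, -, -, h4⟩ := hS1 P hP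
      have h5 : P.ord σ = 0 := h4.resolve_right fun h => hcon P hP h
      exact Or.inr (by rw [P.ord_inv, h5, neg_zero])
    have h2 := adjoin_inter (consts δ) hσt h1
      (Algebra.self_mem_adjoin_singleton (consts δ) σ⁻¹)
    have h3 : σ ∈ consts δ := by
      have := inv_mem h2
      rwa [inv_inv] at this
    have h4 : δ σ = 0 := h3
    rw [hσ] at h4
    exact hσ0 h4
  obtain ⟨hP1, hP2, hP3, -⟩ := hS1 P hP
  have hdiv : Divisorial n P := by
    subst hm
    refine ⟨fun l => (s l : L), fun F hF => ?_⟩
    have h1 : MvPolynomial.aeval (fun l : Fin m => (s l : L)) F =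
        ((MvPolynomial.aeval s F : consts δ) : L) := by
      have := MvPolynomial.comp_aeval_apply (IntermediateField.val (consts δ)) (p := F) (f := s)
      exact this.symm
    have h2 : MvPolynomial.aeval s F ≠ 0 := by
      intro h0
      exact hF ((injective_iff_map_eq_zero _).1 hs.1 F h0)
    have h3 : ((MvPolynomial.aeval s F : consts δ) : L) ≠ 0 := by
      intro h0
      exact h2 (Subtype.ext h0)
    constructor
    · change MvPolynomial.aeval (fun l : Fin m => (s l : L)) F ≠ 0
      rw [h1]; exact h3
    · change P.ord (MvPolynomial.aeval (fun l : Fin m => (s l : L)) F) = 0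
      rw [h1]
      exact hP1 _ (MvPolynomial.aeval s F).2 h3
  have hmem : ∀ D : Derivation k L L, (∀ c ∈ consts δ, D c ∈ consts δ) →
      D σ ∈ Algebra.adjoin (consts δ) {σ} → DerReg P D := by
    intro D hDc hDσ
    refine pl_reg (A := (Algebra.adjoin (consts δ) {σ} : Set L)) hP2 hP3 ?_
    intro f hf
    have hf' : f ∈ Algebra.adjoin (consts δ) {σ} := hf
    change D f ∈ Algebra.adjoin (consts δ) {σ}
    clear hf
    induction hf' using Algebra.adjoin_induction with
    | mem z hz =>
      rw [Set.mem_singleton_iff] at hz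
      subst hz
      exact hDσ
    | algebraMap r =>
      exact (Algebra.adjoin (consts δ) {σ}).algebraMap_mem (⟨_, hDc _ r.2⟩ : consts δ)
    | add f g hf' hg' hf hg => rw [map_add]; exact Subalgebra.add_mem _ hf hg
    | mul f g hf' hg' hf hg =>
      rw [D.leibniz]
      exact Subalgebra.add_mem _ (Subalgebra.mul_mem _ hf' hg) (Subalgebra.mul_mem _ hg' hf)
  have hDreg : ∀ i, DerReg P (D i) := by
    intro i
    refine hmem _ ?_ ?_
    · intro c hc
      have h1 : δ c = 0 := hc
      change δ (D i c) = 0
      rw [← hcomm, h1, map_zero]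
    · rcases hDσ i with h1 | h1
      · rw [h1, hσ]
        exact Algebra.self_mem_adjoin_singleton _ _
      · rw [h1]
        exact Subalgebra.zero_mem _
  have hreg0 : DerReg P (σ⁻¹ • δ) := by
    refine hmem _ ?_ ?_
    · intro c hc
      have h1 : δ c = 0 := hc
      change σ⁻¹ * δ c ∈ _
      rw [h1, mul_zero]
      exact zero_mem _
    · change σ⁻¹ * δ σ ∈ _
      rw [hσ, inv_mul_cancel₀ hσ0]
      exact Subalgebra.one_mem _
  let c : Fin p → L := fun i => if i = j0 then σ⁻¹ else 1
  have hcp : ∏ i, c i = σ⁻¹ := by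
    rw [Finset.prod_eq_single j0]
    · simp only [c, if_true]
    · intro i _ hi
      simp only [c, if_neg hi]
    · intro hn
      exact absurd (Finset.mem_univ _) hn
  have h1 := pull_reg hw hn hθ h P hdiv (fun i => c i • D i) (by
    intro i
    by_cases hi : i = j0
    · simp only [c, if_pos hi]
      rw [hi, hj0]
      exact hreg0
    · simp only [c, if_neg hi, one_smul]
      exact hDreg _)
  rw [pull_smul, hcp, ← hg, P.reg_iff (mul_ne_zero (inv_ne_zero hσ0) hne),
    P.ord_mul (inv_ne_zero hσ0) hne, P.ord_inv, hPσ, hP1 _ h0 hne] at h1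
  omega

end Pool.Agent.TH8.TEN
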