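import Pool.Agent.TH8.TEN.Ev

/-!
Tensor differentials on a variety with a point over a field with sufficiently many one-parameter
families.
-/

set_option autoImplicit false

open FF MvPolynomial Pool.Agent.W602.GT Pool.Agent.W603.LV Pool.Agent.TH143.GT

namespace Pool.Agent.TH8.TEN

variable {n : ℕ} {F : Type} [Field F] [Algebra ℂ F]

/-- Through the point `x` there are many families of rational curves: every derivation which kills
`ζ` and moves `x` in a given direction can be replaced by a rational curve through `x` which moves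
in this direction. -/
def FlowHyp (ζ : F) (x : Fin (n + 1) → F) : Prop :=
  ∀ D : Derivation ℂ F F, D ζ = 0 → ∀ (q : ℕ) (c : Fin q → F)
    (g1 g0 : Fin q → MvPolynomial (Fin (n + 1)) ℂ) (e : Fin q → ℕ),
    (∀ j, (g1 j).IsHomogeneous (e j)) → (∀ j, (g0 j).IsHomogeneous (e j)) →
    ∑ j, c j * (D (W602.GT.val x (g1 j)) * W602.GT.val x (g0 j) -
      W602.GT.val x (g1 j) * D (W602.GT.val x (g0 j))) ≠ 0 →
    ∃ W : Fin (n + 1) → Polynomial F,
      (∀ G : MvPolynomial (Fin (n + 1)) ℂ, IsForm G → W602.GT.val x G = 0 →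
        (aeval W G : Polynomial F) = 0) ∧
      (∀ j, (W j).eval 1 = x j) ∧
      ∑ j, c j * (Polynomial.derivative (aeval W (g1 j) : Polynomial F) * aeval W (g0 j) -
        aeval W (g1 j) * Polynomial.derivative (aeval W (g0 j) : Polynomial F)).eval 1 ≠ 0

theorem eval_aeval (W : Fin (n + 1) → Polynomial F) {x : Fin (n + 1) → F}
    (h : ∀ j, (W j).eval 1 = x j) (G : MvPolynomial (Fin (n + 1)) ℂ) :
    (aeval W G : Polynomial F).eval 1 = W602.GT.val x G := by
  induction G using MvPolynomial.induction_on with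
  | C a =>
    rw [aeval_C, IsScalarTower.algebraMap_apply ℂ F (Polynomial F)]
    unfold W602.GT.val
    rw [aeval_C]
    exact Polynomial.eval_C
  | add p q hp hq => rw [map_add, Polynomial.eval_add, hp, hq, val_add']
  | mul_X p j hp =>
    rw [map_mul, Polynomial.eval_mul, hp, aeval_X, h, val_mul']
    congr 1
    unfold W602.GT.val
    rw [aeval_X]

section pack

variable {K : Type} [Field K] [Algebra ℂ K] {y : Fin (n + 1) → K} {x : Fin (n + 1) → F}

/-- the embedding given by a point -/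
theorem emb_point (hy : y ≠ 0) (hgen : coords ℂ y = ⊤)
    (hx : ∀ G : MvPolynomial (Fin (n + 1)) ℂ, IsForm G →
      (W602.GT.val y G = 0 ↔ W602.GT.val x G = 0)) :
    ∃ ι : K →ₐ[ℂ] F, ∀ (d : ℕ) (g1 g0 : MvPolynomial (Fin (n + 1)) ℂ),
      g1.IsHomogeneous d → g0.IsHomogeneous d → W602.GT.val y g0 ≠ 0 →
      ι (W602.GT.val y g1 / W602.GT.val y g0) = W602.GT.val x g1 / W602.GT.val x g0 := by
  obtain ⟨i0, hi0⟩ := Function.ne_iff.1 hy
  have hi0' : y i0 ≠ 0 := hi0
  have hxi : ∀ (i : Fin (n + 1)), y i = 0 ↔ x i = 0 := by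
    intro i
    have := hx (X i) ⟨1, isHomogeneous_X _ _⟩
    unfold W602.GT.val at this
    rwa [aeval_X, aeval_X] at this
  have hx0 : x i0 ≠ 0 := fun h => hi0' ((hxi i0).2 h)
  obtain ⟨φ, hφ⟩ := exists_embedding (L := F) (y' := x) hi0' hx0 hgen hx
  refine ⟨φ, fun d g1 g0 h1 h0 hn => ?_⟩
  have hφv : ∀ G : MvPolynomial (Fin (n + 1)) ℂ, φ (aeval (fun j => y j / y i0) G) =
      aeval (fun j => x j / x i0) G := by
    intro G
    have h2 := MvPolynomial.comp_aeval_apply (f := fun j => y j / y i0) φ G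
    rw [h2]
    congr 2
    funext j
    exact hφ j
  have hyd : y i0 ^ d ≠ 0 := pow_ne_zero _ hi0'
  have hWd : x i0 ^ d ≠ 0 := pow_ne_zero _ hx0
  rw [val_scale hi0' h1, val_scale hi0' h0, mul_div_mul_left _ _ hyd, map_div₀, hφv, hφv,
    val_scale hx0 h1, val_scale hx0 h0, mul_div_mul_left _ _ hWd]

/-- the family over a finitely generated subfield -/
theorem fam_pack (hy : y ≠ 0) (hgen : coords ℂ y = ⊤)
    (hx : ∀ G : MvPolynomial (Fin (n + 1)) ℂ, IsForm G →
      (W602.GT.val y G = 0 ↔ W602.GT.val x G = 0)) (W : Fin (n + 1) → Polynomial F)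
    (hW0 : ∀ G : MvPolynomial (Fin (n + 1)) ℂ, IsForm G → W602.GT.val x G = 0 →
        (aeval W G : Polynomial F) = 0)
    (hW1 : ∀ j, (W j).eval 1 = x j) :
    ∃ (M : IntermediateField ℂ F) (m : ℕ) (W' : Fin (n + 1) → Polynomial M)
      (x' : Fin (n + 1) → M) (φ : K →ₐ[ℂ] RatFunc M) (ι : K →ₐ[ℂ] M),
      Algebra.trdeg ℂ M = m ∧
      (∀ G : MvPolynomial (Fin (n + 1)) ℂ,
        (aeval W' G : Polynomial M).map (algebraMap M F) = aeval W G) ∧
      (∀ j, (W' j).eval 1 = x' j) ∧ (∀ j, (x' j : F) = x j) ∧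
      (∀ (d : ℕ) (g1 g0 : MvPolynomial (Fin (n + 1)) ℂ),
        g1.IsHomogeneous d → g0.IsHomogeneous d → W602.GT.val y g0 ≠ 0 →
        φ (W602.GT.val y g1 / W602.GT.val y g0) = rf (aeval W' g1) / rf (aeval W' g0)) ∧
      (∀ (d : ℕ) (g1 g0 : MvPolynomial (Fin (n + 1)) ℂ),
        g1.IsHomogeneous d → g0.IsHomogeneous d → W602.GT.val y g0 ≠ 0 →
        ι (W602.GT.val y g1 / W602.GT.val y g0) = W602.GT.val x' g1 / W602.GT.val x' g0) := by
  classical
  let S : Finset F := Finset.univ.biUnion fun j => (W j).coeffs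
  let M : IntermediateField ℂ F := IntermediateField.adjoin ℂ (S : Set F)
  have hess : Algebra.EssFiniteType ℂ M :=
    IntermediateField.essFiniteType_iff.2 ⟨S, rfl⟩
  obtain ⟨m, hm⟩ := Cardinal.lt_aleph0.1 (trdeg_lt_aleph0 ℂ M)
  have hlift : ∀ j, ∃ p : Polynomial M, p.map (algebraMap M F) = W j := by
    intro j
    have h1 : W j ∈ Polynomial.lifts (algebraMap M F) := by
      rw [Polynomial.lifts_iff_coeff_lifts]
      intro i
      by_cases hi : (W j).coeff i = 0
      · exact ⟨0, by rw [map_zero, hi]⟩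
      · refine ⟨⟨(W j).coeff i, IntermediateField.subset_adjoin _ _ ?_⟩, rfl⟩
        rw [Finset.mem_coe, Finset.mem_biUnion]
        exact ⟨j, Finset.mem_univ _, Polynomial.coeff_mem_coeffs hi⟩
    exact (Polynomial.mem_lifts _).1 h1
  choose W' hW' using hlift
  let x' : Fin (n + 1) → M := fun j => (W' j).eval 1
  have hx' : ∀ j, (x' j : F) = x j := by
    intro j
    rw [← hW1 j, ← hW' j]
    have h1 := Polynomial.eval_map (p := W' j) (algebraMap M F) 1
    have h2 := Polynomial.eval₂_at_one (p := W' j) (algebraMap M F)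
    rw [h1, h2]
    rfl
  have hmap : ∀ G : MvPolynomial (Fin (n + 1)) ℂ,
      (aeval W' G : Polynomial M).map (algebraMap M F) = aeval W G := by
    intro G
    induction G using MvPolynomial.induction_on with
    | C a =>
      rw [aeval_C, aeval_C, IsScalarTower.algebraMap_apply ℂ M (Polynomial M),
        IsScalarTower.algebraMap_apply ℂ F (Polynomial F)]
      exact Polynomial.map_C _
    | add p q hp hq => rw [map_add, Polynomial.map_add, hp, hq, map_add]
    | mul_X p j hp => rw [map_mul, Polynomial.map_mul, hp, aeval_X, hW', map_mul, aeval_X]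
  have hvx : ∀ G : MvPolynomial (Fin (n + 1)) ℂ, ((W602.GT.val x' G : M) : F) =
      W602.GT.val x G := by
    intro G
    have h4 := MvPolynomial.comp_aeval_apply (f := x') M.val G
    have h5 : (fun i => M.val (x' i)) = x := funext hx'
    rw [h5] at h4
    exact h4
  have hinj : Function.Injective (Polynomial.map (algebraMap M F)) :=
    Polynomial.map_injective _ (algebraMap M F).injective
  have hW'0 : ∀ G : MvPolynomial (Fin (n + 1)) ℂ, IsForm G →
      (W602.GT.val y G = 0 ↔ (aeval W' G : Polynomial M) = 0) := by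
    intro G hG
    constructor
    · intro h
      apply hinj
      rw [hmap, hW0 G hG ((hx G hG).1 h), Polynomial.map_zero]
    · intro h
      refine (hx G hG).2 ?_
      rw [← eval_aeval W hW1 G, ← hmap G, h, Polynomial.map_zero, Polynomial.eval_zero]
  have hF : Fam y (1 : MvPolynomial (Fin (n + 1)) ℂ) W' 0 :=
    ⟨hW'0, 1, one_ne_zero, by rw [map_one, pow_zero, mul_one, Polynomial.C_1]⟩
  obtain ⟨φ, hφ⟩ := hF.emb hy hgen
  obtain ⟨ι, hι⟩ := emb_point (F := M) (x := x') hy hgen (by
    intro G hG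
    rw [hx G hG, ← hvx G]
    exact ⟨fun h => Subtype.ext h, fun h => congrArg Subtype.val h⟩)
  exact ⟨M, m, W', x', φ, ι, hm, hmap, fun _ => rfl, hx', hφ, hι⟩

end pack

end Pool.Agent.TH8.TEN
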