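import Pool.Agent.TH8.TEN.Tan
import Pool.Agent.TH8.TEN.Flow
import Pool.Agent.TH143.GT.Emb

/-!
Families of rational curves through the points of a curve given by linear differential equations,
in a given direction.
-/

set_option autoImplicit false

namespace Pool.Agent.TH8.TEN

open MvPolynomial Metric Set Filter Topology Pool.Agent.TH143 Pool.Agent.TH143.GT

variable {S : Set ℂ}

theorem emb_local (hS : IsOpen S) (hSc : IsPreconnected S) (hne : S.Nonempty)
    {K : Type} [Field K] [Algebra (Hol S) K] [IsFractionRing (Hol S) K] [Algebra ℂ K]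
    [IsScalarTower ℂ (Hol S) K]
    {ι : Type} (b : ι → ℂ → ℂ) (hb : ∀ i, AnalyticOnNhd ℂ (b i) S) (d : ι → ι)
    (hd : ∀ i, ∀ z ∈ S, HasDerivAt (b i) (b (d i) z) z)
    {n : ℕ} (A : Fin n → Fin n → ι) (U : ℂ → Matrix (Fin n) (Fin n) ℂ)
    (hU : ∀ z ∈ S, ∀ i j, HasDerivAt (fun w => U w i j) (∑ k, b (A i k) z * U z k j) z)
    (hdet : ∀ z ∈ S, (U z).det ≠ 0)
    (B : Subalgebra ℂ (Hol S)) (hB : ∀ i, toHol (b i) (hb i) ∈ B)
    {N : ℕ} (Φ : Fin (N + 1) → MvPolynomial (ι ⊕ (Fin n × Fin n)) ℂ)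
    (Xh : Fin (N + 1) → Hol S) (hXh : ∀ j (z : S), evz z (Xh j) = eval (vv b U z) (Φ j))
    (D : K → K) (hDadd : ∀ x y, D (x + y) = D x + D y)
    (hDmul : ∀ x y, D (x * y) = x * D y + y * D x)
    (hDB : ∀ x ∈ B, D (algebraMap (Hol S) K x) = 0) {q : ℕ} (c : Fin q → Hol S)
    (g0 g1 : Fin q → MvPolynomial (Fin (N + 1)) ℂ) (e : Fin q → ℕ)
    (hg0 : ∀ j, (g0 j).IsHomogeneous (e j)) (hg1 : ∀ j, (g1 j).IsHomogeneous (e j))
    (hG : ∑ j, algebraMap (Hol S) K (c j) *
      (D (W602.GT.val (fun i => algebraMap (Hol S) K (Xh i)) (g1 j)) *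
        W602.GT.val (fun i => algebraMap (Hol S) K (Xh i)) (g0 j) -
        W602.GT.val (fun i => algebraMap (Hol S) K (Xh i)) (g1 j) *
        D (W602.GT.val (fun i => algebraMap (Hol S) K (Xh i)) (g0 j))) ≠ 0) :
    ∃ W : Fin (N + 1) → Polynomial (Hol S),
      (∀ R : MvPolynomial (Fin (N + 1)) ℂ, (∃ d, R.IsHomogeneous d) →
        (∀ z ∈ S, eval (fun j => eval (vv b U z) (Φ j)) R = 0) → aeval W R = 0) ∧
      (∀ j, (W j).eval 1 = Xh j) ∧
      ∑ j, c j * (Polynomial.derivative (aeval W (g1 j)) * aeval W (g0 j) -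
        aeval W (g1 j) * Polynomial.derivative (aeval W (g0 j))).eval 1 ≠ 0 := by
  classical
  set v := vv b U with hv
  -- the system
  have hsol : Sol (EE d A) v S := by
    intro z hz l
    rcases l with i | ⟨i, j⟩
    · have := hd i z hz
      simpa [EE, v, vv] using this
    · have := hU z hz i j
      simpa [EE, v, vv] using this
  have hvan : ∀ l, AnalyticOnNhd ℂ (fun z => v z l) S := by
    intro l
    have := hsol.analytic hS (X l)
    simpa using this
  let V : ι ⊕ (Fin n × Fin n) → Hol S := fun l => toHol (fun z => v z l) (hvan l)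
  have hVe : ∀ (z : S), (fun l => evz z (V l)) = v z := fun z => rfl
  have hVP : ∀ (z : S) (P : MvPolynomial (ι ⊕ (Fin n × Fin n)) ℂ),
      evz z (aeval V P) = eval (v z) P := by
    intro z P
    have h4 := MvPolynomial.comp_aeval_apply (f := V) (evz z) P
    rw [h4, ← MvPolynomial.aeval_eq_eval]
    rfl
  have hrel : ∀ P, Rel v S P ↔ aeval V P = 0 := by
    intro P
    constructor
    · intro h
      exact hol_ext fun z => by rw [hVP, map_zero]; exact h z z.2
    · intro h z hz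
      rw [← hVP ⟨z, hz⟩, h, map_zero]
  have hqe' : ∀ (R : MvPolynomial (Fin (N + 1)) ℂ) (x : ι ⊕ (Fin n × Fin n) → ℂ),
      eval x (bind₁ Φ R) = eval (fun j => eval x (Φ j)) R := by
    intro R x
    rw [eval, eval₂Hom_bind₁]
    rfl
  have hXV : ∀ j, Xh j = aeval V (Φ j) := fun j => hol_ext fun z => by rw [hXh, hVP]
  have hval : ∀ R : MvPolynomial (Fin (N + 1)) ℂ,
      W602.GT.val (fun i => algebraMap (Hol S) K (Xh i)) R =
        algebraMap (Hol S) K (aeval V (bind₁ Φ R)) := by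
    intro R
    have h1 := MvPolynomial.comp_aeval_apply (f := Xh) (IsScalarTower.toAlgHom ℂ (Hol S) K) R
    have h2 : aeval V (bind₁ Φ R) = aeval Xh R := by
      rw [aeval_bind₁]
      congr 2
      funext j
      exact (hXV j).symm
    rw [h2]
    exact h1.symm
  obtain ⟨a, M, haM⟩ := exists_tangent (hol_domain hSc hne) (K := K) B V (fun i => hB i) D hDadd
    hDmul hDB c (fun j => bind₁ Φ (g0 j)) (fun j => bind₁ Φ (g1 j)) (by
      simpa only [hval] using hG)
  set β : Matrix (Fin n) (Fin n) ℂ := (U a)⁻¹ * Matrix.of fun i j => M (i, j) with hβ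
  have hUβ : ∀ p : Fin n × Fin n, (U a * β) p.1 p.2 = M p := by
    intro p
    rw [hβ, ← Matrix.mul_assoc, Matrix.mul_nonsing_inv _ ((hdet a a.2).isUnit), Matrix.one_mul]
    rfl
  obtain ⟨haP, haG⟩ := haM (WW β) (fun i => by simp [WW]) (fun p => by
    rw [← hUβ p, Matrix.mul_apply]
    simp only [WW, Sum.elim_inr, map_sum, map_mul, eval_X, eval_C]
    rfl)
  rw [hVe] at haG haP
  have hδ : ∀ P, Rel v S P → Rel v S (mkDerivation ℂ (WW β) P) :=
    rel_of_point hS hSc hsol (comm_EW d A β) a.2 (fun P hP => haP P ((hrel P).mp hP))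
  -- the one-parameter group
  obtain ⟨ex, he0, he, hEP⟩ := exists_exp_flow β
  let y : ℂ → ℂ → ι ⊕ (Fin n × Fin n) → ℂ := fun z t =>
    Sum.elim (fun i => b i z) (fun p => (U z * ex t) p.1 p.2)
  have hy0 : ∀ z, y z 0 = v z := by
    intro z
    simp only [y, he0, Matrix.mul_one]
    rfl
  have hysol : ∀ z, Sol (WW β) (y z) univ := by
    intro z t _ l
    rcases l with i | ⟨i, j⟩
    · simp only [y, Sum.elim_inl, WW, map_zero]
      exact hasDerivAt_const t _
    · simp only [y, Sum.elim_inr, WW, map_sum, map_mul, eval_X, eval_C]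
      have h1 : HasDerivAt (fun s => (U z * ex s) i j) (∑ k, U z i k * (ex t * β) k j) t := by
        simp only [Matrix.mul_apply]
        apply HasDerivAt.fun_sum
        intro k _
        have := (he t k j).const_mul (U z i k)
        rw [Matrix.mul_apply] at this
        exact this
      refine h1.congr_deriv ?_
      rw [← Matrix.mul_apply, ← Matrix.mul_assoc, Matrix.mul_apply]
  have hyP : ∀ z ∈ S, ∀ P, Rel v S P → ∀ t, eval (y z t) P = 0 := fun z hz P hP t =>
    rel_flow hδ hz (y z) (hysol z) (hy0 z) P hP t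
  -- common exponents
  let G : (Fin n × Fin n) → ℂ → ℂ := fun p t => ex t p.1 p.2
  have hGEP : ∀ o, EP (G o) := fun p => hEP p.1 p.2
  obtain ⟨m, g, P, hg, hP⟩ := EP.common G hGEP
  -- the coordinates as functions of the exponentials
  let T : ℂ → ι ⊕ (Fin n × Fin n) → MvPolynomial (Fin (m + 1)) ℂ := fun z =>
    Sum.elim (fun i => C (b i z)) (fun p => ∑ k, C (U z p.1 k) * P (k, p.2))
  let Y : ℂ → (Fin (m + 1) → ℂ) → ι ⊕ (Fin n × Fin n) → ℂ := fun z x l => eval x (T z l)
  have hYy : ∀ z t, Y z (Pool.Agent.H159R3.Exp.vec g t) = y z t := by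
    intro z t
    funext l
    rcases l with i | ⟨i, j⟩
    · simp [Y, T, y]
    · simp only [Y, T, y, Sum.elim_inr, map_sum, map_mul, eval_C, ← hP, Matrix.mul_apply]
      rfl
  have hYT : ∀ z x (R : MvPolynomial (ι ⊕ (Fin n × Fin n)) ℂ),
      eval (Y z x) R = eval x (bind₁ (T z) R) := by
    intro z x R
    rw [eval, eval, eval₂Hom_bind₁]
    rfl
  -- the direction
  set v0 : Fin (m + 1) → ℂ := Pool.Agent.H159R3.Exp.vec g 0 with hv0
  have hvd : ∀ l, HasDerivAt (fun z => Pool.Agent.H159R3.Exp.vec g z l)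
      ((Fin.cons 1 fun i => Complex.exp (g i 0) * deriv (g i) 0 : Fin (m + 1) → ℂ) l) 0 := by
    intro l
    refine Fin.cases ?_ (fun i => ?_) l
    · simpa [Pool.Agent.H159R3.Exp.vec] using hasDerivAt_id' (0 : ℂ)
    · simpa [Pool.Agent.H159R3.Exp.vec] using ((hg i) 0).hasDerivAt.cexp
  have hYv : Y a v0 = v a := by rw [hv0, hYy, hy0]
  have hder : ∀ R : MvPolynomial (ι ⊕ (Fin n × Fin n)) ℂ,
      eval (v a) (mkDerivation ℂ (WW β) R) = ∑ l, eval v0 (pderiv l (bind₁ (T a) R)) *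
        (Fin.cons 1 fun i => Complex.exp (g i 0) * deriv (g i) 0 : Fin (m + 1) → ℂ) l := by
    intro R
    have h1 := hasDerivAt_sol (WW β) (y a) 0 (hysol a 0 (mem_univ 0)) R
    have h2 := Pool.Agent.H159R3.Exp.hasDerivAt_eval (Pool.Agent.H159R3.Exp.vec g) _ 0 hvd
      (bind₁ (T a) R)
    have h3 : (fun t => eval (y a t) R) = fun t =>
        eval (Pool.Agent.H159R3.Exp.vec g t) (bind₁ (T a) R) := by
      funext t
      rw [← hYT, hYy]
    rw [h3, hy0] at h1
    exact h1.unique h2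
  obtain ⟨ξ, ξ', ea, pp, hξp, hξ1, hξR, hξd, hξn⟩ := exists_dir g hg
    (fun l => ∑ j, evz a (c j) *
      (eval v0 (pderiv l (bind₁ (T a) (bind₁ Φ (g1 j)))) * eval (v a) (bind₁ Φ (g0 j)) -
      eval (v a) (bind₁ Φ (g1 j)) * eval v0 (pderiv l (bind₁ (T a) (bind₁ Φ (g0 j)))))) (by
      intro h0
      refine haG ?_
      simp only [hder]
      refine Eq.trans ?_ h0
      simp only [Finset.sum_mul]
      rw [Finset.sum_comm]
      refine Finset.sum_congr rfl fun j _ => ?_
      rw [Finset.mul_sum, ← Finset.sum_sub_distrib, Finset.mul_sum]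
      exact Finset.sum_congr rfl fun l _ => by ring)
  -- the Laurent polynomials
  have hPLξ : ∀ l, PL fun (_ : S) x => ξ x l := fun l => PL.laur fun x hx => hξp x hx l
  have hPLP : ∀ o, PL fun (_ : S) x => eval (ξ x) (P o) := fun o => PL.eval hPLξ (P o)
  have hPLY : ∀ l, PL fun (z : S) x => Y z (ξ x) l := by
    intro l
    rcases l with i | ⟨i, j⟩
    · have h1 : (fun (z : S) x => Y z (ξ x) (Sum.inl i)) = fun z _ => evz z (V (Sum.inl i)) := by
        funext z x
        simp only [Y, T, Sum.elim_inl, eval_C]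
        rfl
      rw [h1]
      exact PL.hol (S := S) (V (Sum.inl i))
    · simp only [Y, T, Sum.elim_inr, map_sum, map_mul, eval_C]
      exact PL.sum _ fun k _ => (PL.hol (S := S) (V (Sum.inr (i, k)))).mul (hPLP _)
  obtain ⟨c0, W, hW⟩ := PL.common fun j : Fin (N + 1) => PL.eval hPLY (Φ j)
  have hWR : ∀ (R : MvPolynomial (Fin (N + 1)) ℂ) (dR : ℕ), R.IsHomogeneous dR →
      ∀ (z : S) (x : ℂ), x ≠ 0 → evp z x (aeval W R) =
        x ^ (c0 * dR) * eval (Y z (ξ x)) (bind₁ Φ R) := by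
    intro R dR hR z x hx
    rw [evp_aeval, hqe', pow_mul, ← eval_smul_homog hR]
    congr 1
    congr 1
    funext j
    rw [hW z x hx j]
  have hξv : ∀ z : ℂ, Y z (ξ 1) = v z := fun z => by rw [hξ1, hYy, hy0]
  have hW1 : ∀ j (z : S), evz z ((W j).eval 1) = eval (v z) (Φ j) := by
    intro j z
    rw [← evp_one, ← hW z 1 one_ne_zero j, one_pow, one_mul, hξv]
  refine ⟨W, ?_, fun j => hol_ext fun z => by rw [hW1, hXh], ?_⟩
  · rintro R ⟨dR, hR⟩ hRz
    apply evp_ext
    intro z x hx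
    rw [hWR R dR hR z x hx, map_zero, hYT, hξR _ _ x hx, mul_zero]
    intro t
    rw [← hYT, hYy]
    exact hyP z z.2 _ (fun s hs => by rw [hqe']; exact hRz s hs) t
  · intro h0
    apply hξn
    -- derivatives at the point `1`
    have hd1 : ∀ (R : MvPolynomial (Fin (N + 1)) ℂ) (D : ℕ), R.IsHomogeneous D →
        evp a 1 (Polynomial.derivative (aeval W R)) = (c0 * D : ℕ) * eval (v a) (bind₁ Φ R) +
          ∑ l, eval v0 (pderiv l (bind₁ (T a) (bind₁ Φ R))) * ξ' l := by
      intro R D hR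
      have h1 := evp_deriv a 1 (aeval W R)
      have h2 : (fun x => evp a x (aeval W R)) =ᶠ[𝓝 1]
          fun x => x ^ (c0 * D) * eval (ξ x) (bind₁ (T a) (bind₁ Φ R)) := by
        filter_upwards [isOpen_ne.mem_nhds (one_ne_zero (α := ℂ))] with x hx
        rw [hWR R D hR a x hx, hYT]
      have h3 := Pool.Agent.H159R3.Exp.hasDerivAt_eval ξ ξ' 1 hξd (bind₁ (T a) (bind₁ Φ R))
      have h4 := (hasDerivAt_pow (c0 * D) (1 : ℂ)).mul h3
      have h5 := (h1.congr_of_eventuallyEq h2.symm).unique h4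
      rw [h5, hξ1, ← hYT, ← hv0, hYv]
      simp
    have hd2 : ∀ (R : MvPolynomial (Fin (N + 1)) ℂ) (D : ℕ), R.IsHomogeneous D →
        evp a 1 (aeval W R) = eval (v a) (bind₁ Φ R) := by
      intro R D hR
      rw [hWR R D hR a 1 one_ne_zero, hξv, one_pow, one_mul]
    have h6 := congrArg (evz a) h0
    rw [map_sum, map_zero] at h6
    rw [← h6]
    simp only [Finset.sum_mul]
    rw [Finset.sum_comm]
    refine Finset.sum_congr rfl fun j _ => ?_
    rw [map_mul, ← evp_one, map_sub (evp a 1), map_mul (evp a 1), map_mul (evp a 1),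
      hd1 _ _ (hg1 j), hd1 _ _ (hg0 j), hd2 _ _ (hg1 j), hd2 _ _ (hg0 j)]
    have e1 : ∀ l, evz a (c j) *
        (eval v0 (pderiv l (bind₁ (T a) (bind₁ Φ (g1 j)))) * eval (v a) (bind₁ Φ (g0 j)) -
        eval (v a) (bind₁ Φ (g1 j)) * eval v0 (pderiv l (bind₁ (T a) (bind₁ Φ (g0 j))))) * ξ' l =
        evz a (c j) * (eval (v a) (bind₁ Φ (g0 j)) *
          (eval v0 (pderiv l (bind₁ (T a) (bind₁ Φ (g1 j)))) * ξ' l) -
        eval (v a) (bind₁ Φ (g1 j)) *
          (eval v0 (pderiv l (bind₁ (T a) (bind₁ Φ (g0 j)))) * ξ' l)) := fun l => by ring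
    simp only [e1]
    rw [← Finset.mul_sum, Finset.sum_sub_distrib, ← Finset.mul_sum, ← Finset.mul_sum]
    ring

end Pool.Agent.TH8.TEN
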