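import Pool.Agent.TH8.TEN.Core

/-!
Evaluation of rational functions at the point `1`, extension of derivations, multilinear forms.
-/

set_option autoImplicit false

open FF Pool.Agent.W602.GT Pool.Agent.W603.LV Pool.Agent.TH143.GT

namespace Pool.Agent.TH8.TEN

section multilinear

variable {p w : ℕ} {F : Type} [Field F]

/-- the multilinear form with the coefficients `t` -/
noncomputable def Th (t : (Fin p → Fin w) → F) :
    MultilinearMap F (fun _ : Fin p => Fin w → F) F :=
  ∑ J : Fin p → Fin w, t J • (MultilinearMap.mkPiAlgebra F (Fin p) F).compLinearMap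
    (fun i => LinearMap.proj (J i))

theorem Th_apply (t : (Fin p → Fin w) → F) (a : Fin p → Fin w → F) :
    Th t a = ∑ J : Fin p → Fin w, (∏ i, a i (J i)) * t J := by
  unfold Th
  rw [sum_apply]
  refine Finset.sum_congr rfl fun J _ => ?_
  rw [smul_apply, MultilinearMap.compLinearMap_apply,
    MultilinearMap.mkPiAlgebra_apply, smul_eq_mul, mul_comm]
  rfl

theorem Th_slot (t : (Fin p → Fin w) → F) (a : Fin p → Fin w → F) (i0 : Fin p) (v : Fin w → F) :
    Th t (Function.update a i0 v) =
      ∑ j, v j * Th t (Function.update a i0 (Pi.single j 1)) := by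
  classical
  have h1 : v = ∑ j, v j • (Pi.single j 1 : Fin w → F) := by
    funext l
    rw [Finset.sum_apply, Finset.sum_eq_single l]
    · simp
    · intro j _ hj
      simp [Ne.symm hj]
    · intro h
      exact absurd (Finset.mem_univ _) h
  conv_lhs => rw [h1]
  rw [MultilinearMap.map_update_sum]
  refine Finset.sum_congr rfl fun j _ => ?_
  rw [MultilinearMap.map_update_smul, smul_eq_mul]

theorem Th_map {F' : Type} [Field F'] (f : F →+* F') (t : (Fin p → Fin w) → F)
    (a : Fin p → Fin w → F) : f (Th t a) = Th (fun J => f (t J)) (fun i j => f (a i j)) := by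
  rw [Th_apply, Th_apply, map_sum]
  refine Finset.sum_congr rfl fun J _ => ?_
  rw [map_mul, map_prod]

end multilinear

section der

variable {k K L : Type} [Field k] [Field K] [Field L] [Algebra k K] [Algebra k L] [Algebra K L]
  [IsScalarTower k K L]

omit [IsScalarTower k K L] in
theorem pull_eq_Th {p w : ℕ} (θ : MultilinearMap K (fun _ : Fin p => Derivation k K K) K)
    (y : Fin w → K) (E : Fin w → Derivation k K K) (D : Fin p → Derivation k L L) :
    pull θ y E D = Th (fun J => algebraMap K L (θ fun i => E (J i)))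
      (fun i j => D i (algebraMap K L (y j))) := by
  rw [Th_apply]
  rfl

theorem exists_dual [CharZero k] {w : ℕ} (hdim : Algebra.trdeg k K = w) :
    ∃ (y : Fin w → K) (E : Fin w → Derivation k K K), Dual y E := by
  classical
  obtain ⟨y0, hy0⟩ : ∃ y0 : Fin w → K, IsTranscendenceBasis k y0 := by
    obtain ⟨B, hB⟩ := exists_isTranscendenceBasis k K
    have hcard := hB.cardinalMk_eq_trdeg
    rw [hdim] at hcard
    have hfin : Finite B := by
      rw [← Cardinal.lt_aleph0_iff_finite, hcard]
      exact Cardinal.natCast_lt_aleph0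
    obtain ⟨m', ⟨e⟩⟩ := Finite.exists_equiv_fin B
    obtain rfl : m' = w := by
      rw [Cardinal.mk_congr e, Cardinal.mk_fin] at hcard
      exact_mod_cast hcard
    exact ⟨fun i => (e.symm i : K), hB.comp_equiv e.symm⟩
  choose E hE using fun i => exists_der y0 hy0 (fun j => if i = j then (1 : K) else 0)
  exact ⟨y0, E, hy0, hE⟩

/-- derivations extend -/
theorem ext_der [CharZero k] {w : ℕ} (hdim : Algebra.trdeg k K = w) (D : Derivation k K K) :
    ∃ D' : Derivation k L L, ∀ f : K, D' (algebraMap K L f) = algebraMap K L (D f) := by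
  classical
  obtain ⟨y, E, h⟩ := exists_dual hdim
  obtain ⟨Δ, hΔ⟩ := exists_ext_der (k := k) (L := L) h.1.1
  refine ⟨∑ j, algebraMap K L (D (y j)) • Δ j, fun f => ?_⟩
  have h1 : ∀ i, (∑ j, algebraMap K L (D (y j)) • Δ j) (algebraMap K L (y i)) =
      algebraMap K L (D (y i)) := by
    intro i
    rw [der_sum, Finset.sum_eq_single i]
    · rw [hΔ, if_pos rfl, smul_eq_mul, mul_one]
    · intro j _ hj
      rw [hΔ, if_neg hj, smul_zero]
    · intro hi
      exact absurd (Finset.mem_univ i) hi
  rw [h.chain]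
  simp only [h1]
  have h2 := congrArg (fun d : Derivation k K K => d f) (h.expand D)
  simp only [der_sum, smul_eq_mul] at h2
  rw [h2, map_sum]
  exact Finset.sum_congr rfl fun j _ => (map_mul _ _ _).symm

end der

section ev

variable {M : Type} [Field M]

/-- the rational function `f` has the value `m` at the point `1` -/
def Ev (f : RatFunc M) (m : M) : Prop :=
  ∃ a b : Polynomial M, b.eval 1 ≠ 0 ∧ f * rf b = rf a ∧ m * b.eval 1 = a.eval 1

theorem rf_add' (P Q : Polynomial M) : rf (P + Q) = rf P + rf Q := map_add _ _ _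

theorem rf_one' : rf (1 : Polynomial M) = 1 := map_one _

theorem Ev.poly (a : Polynomial M) : Ev (rf a) (a.eval 1) :=
  ⟨a, 1, by simp, by rw [rf_one', mul_one], by simp⟩

theorem Ev.zero_unique {m : M} (h : Ev (0 : RatFunc M) m) : m = 0 := by
  obtain ⟨a, b, hb, h1, h2⟩ := h
  rw [zero_mul] at h1
  have h3 : a = 0 := rf_zero.1 h1.symm
  rw [h3, Polynomial.eval_zero] at h2
  exact (mul_eq_zero.1 h2).resolve_right hb

theorem Ev.add {f g : RatFunc M} {m l : M} (hf : Ev f m) (hg : Ev g l) : Ev (f + g) (m + l) := by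
  obtain ⟨a, b, hb, h1, h2⟩ := hf
  obtain ⟨c, d, hd, h3, h4⟩ := hg
  refine ⟨a * d + c * b, b * d, ?_, ?_, ?_⟩
  · rw [Polynomial.eval_mul]
    exact mul_ne_zero hb hd
  · rw [rf_add', rf_mul, rf_mul, rf_mul, ← h1, ← h3]
    ring
  · rw [Polynomial.eval_add, Polynomial.eval_mul, Polynomial.eval_mul, Polynomial.eval_mul, ← h2,
      ← h4]
    ring

theorem Ev.mul {f g : RatFunc M} {m l : M} (hf : Ev f m) (hg : Ev g l) : Ev (f * g) (m * l) := by
  obtain ⟨a, b, hb, h1, h2⟩ := hf
  obtain ⟨c, d, hd, h3, h4⟩ := hg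
  refine ⟨a * c, b * d, ?_, ?_, ?_⟩
  · rw [Polynomial.eval_mul]
    exact mul_ne_zero hb hd
  · rw [rf_mul, rf_mul, ← h1, ← h3]
    ring
  · rw [Polynomial.eval_mul, Polynomial.eval_mul, ← h2, ← h4]
    ring

theorem Ev.zero : Ev (0 : RatFunc M) 0 := by
  have := Ev.poly (0 : Polynomial M)
  rwa [Polynomial.eval_zero, rf_zero.2 rfl] at this

theorem Ev.one : Ev (1 : RatFunc M) 1 := by
  have := Ev.poly (1 : Polynomial M)
  rwa [Polynomial.eval_one, rf_one'] at this

theorem Ev.neg {f : RatFunc M} {m : M} (hf : Ev f m) : Ev (-f) (-m) := by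
  obtain ⟨a, b, hb, h1, h2⟩ := hf
  refine ⟨-a, b, hb, ?_, ?_⟩
  · have : rf (-a) = -rf a := map_neg _ _
    rw [this, ← h1]
    ring
  · rw [Polynomial.eval_neg, ← h2]
    ring

theorem Ev.sub {f g : RatFunc M} {m l : M} (hf : Ev f m) (hg : Ev g l) : Ev (f - g) (m - l) := by
  rw [sub_eq_add_neg, sub_eq_add_neg]
  exact hf.add hg.neg

theorem Ev.inv {f : RatFunc M} {m : M} (hf : Ev f m) (hm : m ≠ 0) : Ev f⁻¹ m⁻¹ := by
  obtain ⟨a, b, hb, h1, h2⟩ := hf
  have ha : a.eval 1 ≠ 0 := by
    rw [← h2]
    exact mul_ne_zero hm hb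
  have ha0 : rf a ≠ 0 := by
    rw [Ne, rf_zero]
    rintro rfl
    exact ha Polynomial.eval_zero
  have hf0 : f ≠ 0 := by
    rintro rfl
    rw [zero_mul] at h1
    exact ha0 h1.symm
  refine ⟨b, a, ha, ?_, ?_⟩
  · rw [← h1, inv_mul_cancel_left₀ hf0]
  · rw [← h2, inv_mul_cancel_left₀ hm]

theorem Ev.div {f g : RatFunc M} {m l : M} (hf : Ev f m) (hg : Ev g l) (hl : l ≠ 0) :
    Ev (f / g) (m / l) := by
  rw [div_eq_mul_inv, div_eq_mul_inv]
  exact hf.mul (hg.inv hl)

theorem Ev.sum {ι : Type} (s : Finset ι) {f : ι → RatFunc M} {m : ι → M}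
    (h : ∀ i ∈ s, Ev (f i) (m i)) : Ev (∑ i ∈ s, f i) (∑ i ∈ s, m i) := by
  classical
  induction s using Finset.induction_on with
  | empty => simpa using Ev.zero
  | insert i s hi ih =>
    rw [Finset.sum_insert hi, Finset.sum_insert hi]
    exact (h i (Finset.mem_insert_self i s)).add (ih fun j hj => h j (Finset.mem_insert_of_mem hj))

theorem Ev.prod {ι : Type} (s : Finset ι) {f : ι → RatFunc M} {m : ι → M}
    (h : ∀ i ∈ s, Ev (f i) (m i)) : Ev (∏ i ∈ s, f i) (∏ i ∈ s, m i) := by
  classical
  induction s using Finset.induction_on with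
  | empty => simpa using Ev.one
  | insert i s hi ih =>
    rw [Finset.prod_insert hi, Finset.prod_insert hi]
    exact (h i (Finset.mem_insert_self i s)).mul (ih fun j hj => h j (Finset.mem_insert_of_mem hj))

theorem Ev.Th {p w : ℕ} {t : (Fin p → Fin w) → RatFunc M} {t' : (Fin p → Fin w) → M}
    (ht : ∀ J, Ev (t J) (t' J)) {a : Fin p → Fin w → RatFunc M} {a' : Fin p → Fin w → M}
    (ha : ∀ i j, Ev (a i j) (a' i j)) : Ev (Th t a) (TEN.Th t' a') := by
  rw [Th_apply, Th_apply]
  exact Ev.sum _ fun J _ => (Ev.prod _ fun i _ => ha i (J i)).mul (ht J)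

variable {k : Type} [Field k] [Algebra k M]

/-- coefficientwise derivations and evaluation -/
theorem Ev.der {D : Derivation k M M} {D' : Derivation k (RatFunc M) (RatFunc M)}
    (hX : D' RatFunc.X = 0)
    (hD : ∀ c : M, D' (algebraMap M (RatFunc M) c) = algebraMap M (RatFunc M) (D c))
    {f : RatFunc M} {m : M} (hf : Ev f m) : Ev (D' f) (D m) := by
  have hpoly : ∀ a : Polynomial M, Ev (D' (rf a)) (D (a.eval 1)) := by
    intro a
    induction a using Polynomial.induction_on' with
    | add p q hp hq =>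
      rw [rf_add', map_add, Polynomial.eval_add, map_add]
      exact hp.add hq
    | monomial n c =>
      have h1 : ∀ e : M, rf (Polynomial.monomial n e) =
          algebraMap M (RatFunc M) e * RatFunc.X ^ n := by
        intro e
        unfold rf
        rw [← Polynomial.C_mul_X_pow_eq_monomial, map_mul, map_pow, RatFunc.algebraMap_X,
          RatFunc.algebraMap_C]
        rfl
      have h2 : D' (rf (Polynomial.monomial n c)) = rf (Polynomial.monomial n (D c)) := by
        rw [h1, h1, D'.leibniz, D'.leibniz_pow, hX, hD]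
        simp [mul_comm]
      rw [h2]
      have h3 := Ev.poly (Polynomial.monomial n (D c))
      simpa using h3
  obtain ⟨a, b, hb, h1, h2⟩ := hf
  have hb0 : rf b ≠ 0 := by
    rw [Ne, rf_zero]
    rintro rfl
    exact hb Polynomial.eval_zero
  have h3 : D' f = (D' (rf a) - f * D' (rf b)) / rf b := by
    rw [eq_div_iff hb0, ← h1, D'.leibniz]
    simp only [smul_eq_mul]
    ring
  have h4 : D m = (D (a.eval 1) - m * D (b.eval 1)) / b.eval 1 := by
    rw [eq_div_iff hb, ← h2, D.leibniz]
    simp only [smul_eq_mul]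
    ring
  rw [h3, h4]
  exact ((hpoly a).sub ((show Ev f m from ⟨a, b, hb, h1, h2⟩).mul (hpoly b))).div (Ev.poly b) hb

/-- the derivation along the line and evaluation -/
theorem Ev.delta {δ : Derivation k (RatFunc M) (RatFunc M)}
    (hδ : ∀ P : Polynomial M, δ (algebraMap (Polynomial M) (RatFunc M) P) =
      RatFunc.X * algebraMap (Polynomial M) (RatFunc M) (Polynomial.derivative P))
    {a b : Polynomial M} (hb : b.eval 1 ≠ 0) :
    Ev (δ (rf a / rf b)) ((Polynomial.derivative a * b - a * Polynomial.derivative b).eval 1 /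
      b.eval 1 ^ 2) := by
  have hb0 : rf b ≠ 0 := by
    rw [Ne, rf_zero]
    rintro rfl
    exact hb Polynomial.eval_zero
  have h1 : δ (rf a) = RatFunc.X * rf (Polynomial.derivative a) := hδ a
  have h2 : δ (rf b) = RatFunc.X * rf (Polynomial.derivative b) := hδ b
  have hXr : (RatFunc.X : RatFunc M) = rf Polynomial.X := RatFunc.algebraMap_X.symm
  have h3 : δ (rf a / rf b) = rf (Polynomial.X * (Polynomial.derivative a * b -
      a * Polynomial.derivative b)) / rf (b ^ 2) := by
    have h4 : rf (Polynomial.derivative a * b - a * Polynomial.derivative b) =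
        rf (Polynomial.derivative a) * rf b - rf a * rf (Polynomial.derivative b) := by
      rw [← rf_mul, ← rf_mul]
      exact map_sub _ _ _
    rw [rf_mul, h4, rf_pow, div_eq_mul_inv, δ.leibniz, δ.leibniz_inv, h1, h2, hXr]
    simp only [smul_eq_mul]
    field_simp
    ring
  rw [h3]
  have h5 := (Ev.poly (Polynomial.X * (Polynomial.derivative a * b -
    a * Polynomial.derivative b))).div (Ev.poly (b ^ 2)) (by
      rw [Polynomial.eval_pow]
      exact pow_ne_zero _ hb)
  rwa [Polynomial.eval_mul, Polynomial.eval_X, one_mul, Polynomial.eval_pow] at h5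

/-- extension of a derivation to the rational function field -/
theorem ext_ratFunc [CharZero k] {m : ℕ} (hm : Algebra.trdeg k M = m)
    {δ : Derivation k (RatFunc M) (RatFunc M)}
    (hδ : ∀ P : Polynomial M, δ (algebraMap (Polynomial M) (RatFunc M) P) =
      RatFunc.X * algebraMap (Polynomial M) (RatFunc M) (Polynomial.derivative P))
    (D : Derivation k M M) :
    ∃ D' : Derivation k (RatFunc M) (RatFunc M), D' RatFunc.X = 0 ∧
      ∀ c : M, D' (algebraMap M (RatFunc M) c) = algebraMap M (RatFunc M) (D c) := by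
  obtain ⟨D1, hD1⟩ := ext_der (L := RatFunc M) hm D
  have hX0 : (RatFunc.X : RatFunc M) ≠ 0 := RatFunc.X_ne_zero
  have hX : δ (RatFunc.X : RatFunc M) = RatFunc.X := by
    have := hδ Polynomial.X
    rwa [RatFunc.algebraMap_X, Polynomial.derivative_X, map_one, mul_one] at this
  have hcM : ∀ c : M, δ (algebraMap M (RatFunc M) c) = 0 := by
    intro c
    have := hδ (Polynomial.C c)
    rw [Polynomial.derivative_C, map_zero, mul_zero, RatFunc.algebraMap_C] at this
    exact this
  refine ⟨D1 - (D1 RatFunc.X / RatFunc.X) • δ, ?_, fun c => ?_⟩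
  · rw [Derivation.sub_apply, Derivation.smul_apply, hX, smul_eq_mul, div_mul_cancel₀ _ hX0,
      sub_self]
  · rw [Derivation.sub_apply, Derivation.smul_apply, hcM, smul_zero, sub_zero, hD1]

end ev

end Pool.Agent.TH8.TEN
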