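import Pool.Agent.W603.LV.Ord
import Pool.Agent.W602.GT.Defs

/-!
Gauss valuations along a vector field.
-/

set_option autoImplicit false

open FF Pool.Agent.W603.LV
open Finset.HasAntidiagonal (antidiagonal mem_antidiagonal)

namespace Pool.Agent.TH8.TEN

variable {k K : Type} [Field k] [Field K] [Algebra k K]

/-- extension of an order function from a subalgebra to its field of fractions -/
theorem ext_ord (A : Subalgebra k K) (hA : ∀ x : K, ∃ a ∈ A, ∃ b ∈ A, b ≠ 0 ∧ x = a / b)
    (o : K → ℤ) (hmul : ∀ a ∈ A, ∀ b ∈ A, a ≠ 0 → b ≠ 0 → o (a * b) = o a + o b)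
    (hadd : ∀ a ∈ A, ∀ b ∈ A, a ≠ 0 → b ≠ 0 → a + b ≠ 0 → min (o a) (o b) ≤ o (a + b))
    (hconst : ∀ c : k, c ≠ 0 → o (algebraMap k K c) = 0)
    {t : K} (htA : t ∈ A) (ht0 : t ≠ 0) (ht : o t = 1) :
    ∃ v : Place k K, ∀ a ∈ A, a ≠ 0 → v.ord a = o a := by
  classical
  choose num hnum den hden hd0 heq using hA
  have hn0 : ∀ x : K, x ≠ 0 → num x ≠ 0 := by
    intro x hx h0
    apply hx
    rw [heq x, h0, zero_div]
  let q : K → ℤ := fun x => if x = 0 then 0 else o (num x) - o (den x)
  have hq0 : q 0 = 0 := by simp only [q, if_true]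
  have hq : ∀ a ∈ A, ∀ b ∈ A, a ≠ 0 → b ≠ 0 → q (a / b) = o a - o b := by
    intro a ha b hb ha0 hb0
    have hx : a / b ≠ 0 := div_ne_zero ha0 hb0
    have h1 : q (a / b) = o (num (a / b)) - o (den (a / b)) := by
      simp only [q, if_neg hx]
    have h2 := heq (a / b)
    rw [div_eq_div_iff hb0 (hd0 _)] at h2
    have h3 := hmul a ha _ (hden (a / b)) ha0 (hd0 _)
    have h4 := hmul _ (hnum (a / b)) b hb (hn0 _ hx) hb0
    rw [h2, h4] at h3
    omega
  have ho1 : o 1 = 0 := by
    have := hconst 1 one_ne_zero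
    rwa [map_one] at this
  have hqA : ∀ a ∈ A, a ≠ 0 → q a = o a := by
    intro a ha ha0
    have := hq a ha 1 (one_mem A) ha0 one_ne_zero
    rw [div_one, ho1] at this
    omega
  have hqx : ∀ x : K, x ≠ 0 → q x = o (num x) - o (den x) := by
    intro x hx
    simp only [q, if_neg hx]
  refine ⟨⟨q, hq0, ?_, ?_, ?_, ⟨t, ht0, by rw [hqA t htA ht0, ht]⟩⟩, hqA⟩
  · intro f g hf hg
    have h1 : f * g = (num f * num g) / (den f * den g) := by
      conv_lhs => rw [heq f, heq g]
      rw [div_mul_div_comm]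
    rw [h1, hq _ (mul_mem (hnum f) (hnum g)) _ (mul_mem (hden f) (hden g))
      (mul_ne_zero (hn0 f hf) (hn0 g hg)) (mul_ne_zero (hd0 f) (hd0 g)),
      hmul _ (hnum f) _ (hnum g) (hn0 f hf) (hn0 g hg),
      hmul _ (hden f) _ (hden g) (hd0 f) (hd0 g), hqx f hf, hqx g hg]
    ring
  · intro f g hf hg hfg
    have h1 : f + g = (num f * den g + num g * den f) / (den f * den g) := by
      conv_lhs => rw [heq f, heq g]
      rw [div_add_div _ _ (hd0 f) (hd0 g)]
      congr 1
      ring
    have h2 : num f * den g + num g * den f ≠ 0 := by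
      intro h0
      apply hfg
      rw [h1, h0, zero_div]
    have h3 := hadd _ (mul_mem (hnum f) (hden g)) _ (mul_mem (hnum g) (hden f))
      (mul_ne_zero (hn0 f hf) (hd0 g)) (mul_ne_zero (hn0 g hg) (hd0 f)) h2
    rw [hmul _ (hnum f) _ (hden g) (hn0 f hf) (hd0 g),
      hmul _ (hnum g) _ (hden f) (hn0 g hg) (hd0 f)] at h3
    rw [h1, hq _ (add_mem (mul_mem (hnum f) (hden g)) (mul_mem (hnum g) (hden f))) _
      (mul_mem (hden f) (hden g)) h2 (mul_ne_zero (hd0 f) (hd0 g)),
      hmul _ (hden f) _ (hden g) (hd0 f) (hd0 g), hqx f hf, hqx g hg]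
    omega
  · intro c hc
    rw [hqA _ (A.algebraMap_mem c) (by simpa using hc), hconst c hc]

theorem ge_ord (v : Place k K) {f : K} : Ge v (v.ord f) f := Or.inr le_rfl

theorem ge_lt {v : Place k K} {f : K} {n : ℤ} (h0 : f ≠ 0) (h : Ge v n f) : n ≤ v.ord f :=
  h.resolve_left h0

/-- sum of an element of exact order `n` and an element of higher order -/
theorem ord_add_gt {v : Place k K} {f g : K} (hf : f ≠ 0) (h : Ge v (v.ord f + 1) g) :
    f + g ≠ 0 ∧ v.ord (f + g) = v.ord f := by
  by_cases hg : g = 0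
  · subst hg
    rw [add_zero]
    exact ⟨hf, rfl⟩
  have h1 : v.ord f + 1 ≤ v.ord g := ge_lt hg h
  have h2 : f + g ≠ 0 := by
    intro h0
    have : g = -f := by linear_combination h0
    rw [this, v.ord_neg] at h1
    omega
  refine ⟨h2, ?_⟩
  have h3 := v.ord_add hf hg h2
  have h4 := v.ord_add h2 (neg_ne_zero.2 hg) (by rwa [add_neg_cancel_right])
  rw [add_neg_cancel_right, v.ord_neg] at h4
  omega

/-- **Gauss valuation along a vector field.** -/
theorem step [CharZero k] (v : Place k K) (A : Subalgebra k K)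
    (hA : ∀ x : K, ∃ a ∈ A, ∃ b ∈ A, b ≠ 0 ∧ x = a / b)
    (E : Derivation k K K) (hE : ∀ a ∈ A, E a ∈ A) {c N : ℤ} (hcN : c ≤ N)
    (hlb : ∀ a ∈ A, ∃ C : ℤ, ∀ j : ℕ, Ge v (-C - c * j) (E^[j] a))
    {t : K} (htA : t ∈ A) (ht : v.ord t = 1) (hEt : E t = 0) :
    ∃ v' : Place k K, ∀ a ∈ A, ∀ n : ℤ, Ge v' n a ↔ ∀ j : ℕ, Ge v (n - N * j) (E^[j] a) := by
  classical
  have hE0 : ∀ j : ℕ, E^[j] (0 : K) = 0 := by
    intro j
    induction j with
    | zero => rfl
    | succ j ih => rw [Function.iterate_succ_apply', ih, map_zero]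
  have hEadd : ∀ (j : ℕ) (a b : K), E^[j] (a + b) = E^[j] a + E^[j] b := by
    intro j a b
    induction j with
    | zero => rfl
    | succ j ih =>
      rw [Function.iterate_succ_apply', Function.iterate_succ_apply',
        Function.iterate_succ_apply', ih, map_add]
  have hEA : ∀ (j : ℕ) (a : K), a ∈ A → E^[j] a ∈ A := by
    intro j a ha
    induction j with
    | zero => exact ha
    | succ j ih => rw [Function.iterate_succ_apply']; exact hE _ ih
  have hleib : ∀ (j : ℕ) (a b : K), E^[j] (a * b) =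
      ∑ p ∈ antidiagonal j, (j.choose p.1 : K) * (E^[p.1] a * E^[p.2] b) := by
    intro j a b
    induction j with
    | zero => simp
    | succ j ih =>
      rw [Function.iterate_succ_apply', ih, map_sum]
      have h1 : ∀ p : ℕ × ℕ, E ((j.choose p.1 : K) * (E^[p.1] a * E^[p.2] b)) =
          (j.choose p.1 : K) * (E^[p.1 + 1] a * E^[p.2] b) +
            (j.choose p.1 : K) * (E^[p.1] a * E^[p.2 + 1] b) := by
        intro p
        rw [E.leibniz, E.leibniz, E.map_natCast, Function.iterate_succ_apply',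
          Function.iterate_succ_apply']
        simp only [smul_eq_mul]
        ring
      simp only [h1]
      rw [Finset.sum_add_distrib]
      have h2 := Finset.sum_antidiagonal_choose_succ_nsmul
        (fun i l => E^[i] a * E^[l] b) j
      simp only [nsmul_eq_mul] at h2
      rw [h2, add_comm]
      congr 1
      refine Finset.sum_congr rfl fun p hp => ?_
      have h3 : j = p.2 + p.1 := by
        have := mem_antidiagonal.1 hp
        omega
      rw [Nat.choose_symm_of_eq_add h3]
  have hex : ∀ a ∈ A, a ≠ 0 → ∃ n : ℤ, (∀ j : ℕ, Ge v (n - N * j) (E^[j] a)) ∧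
      ∀ n' : ℤ, (∀ j : ℕ, Ge v (n' - N * j) (E^[j] a)) → n' ≤ n := by
    intro a ha ha0
    obtain ⟨C, hC⟩ := hlb a ha
    refine Int.exists_greatest_of_bdd (P := fun n : ℤ => ∀ j : ℕ, Ge v (n - N * j) (E^[j] a))
      ⟨v.ord a, fun n hn => ?_⟩ ⟨-C, fun j => ?_⟩
    · have := ge_lt ha0 (hn 0)
      simpa using this
    · refine Ge.mono ?_ (hC j)
      have : c * (j : ℤ) ≤ N * j := mul_le_mul_of_nonneg_right hcN (Int.natCast_nonneg j)
      omega
  let o : K → ℤ := fun a => if h : a ∈ A ∧ a ≠ 0 then (hex a h.1 h.2).choose else 0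
  have ho1 : ∀ a ∈ A, a ≠ 0 → ∀ j : ℕ, Ge v (o a - N * j) (E^[j] a) := by
    intro a ha ha0
    have h1 : o a = (hex a ha ha0).choose := by
      simp only [o]
      rw [dif_pos ⟨ha, ha0⟩]
    rw [h1]
    exact (hex a ha ha0).choose_spec.1
  have ho2 : ∀ a ∈ A, a ≠ 0 → ∀ n : ℤ, (∀ j : ℕ, Ge v (n - N * j) (E^[j] a)) → n ≤ o a := by
    intro a ha ha0
    have h1 : o a = (hex a ha ha0).choose := by
      simp only [o]
      rw [dif_pos ⟨ha, ha0⟩]
    rw [h1]
    exact (hex a ha ha0).choose_spec.2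
  -- the first term which attains the minimum
  have ho3 : ∀ a ∈ A, a ≠ 0 → ∃ j : ℕ, E^[j] a ≠ 0 ∧ v.ord (E^[j] a) = o a - N * j ∧
      ∀ i < j, Ge v (o a + 1 - N * i) (E^[i] a) := by
    intro a ha ha0
    have h1 : ∃ j : ℕ, ¬ Ge v (o a + 1 - N * j) (E^[j] a) := by
      by_contra hcon
      push Not at hcon
      have := ho2 a ha ha0 _ hcon
      omega
    refine ⟨Nat.find h1, ?_, ?_, fun i hi => ?_⟩
    · intro h0
      exact Nat.find_spec h1 (Or.inl h0)
    · have h2 := Nat.find_spec h1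
      have h3 := ho1 a ha ha0 (Nat.find h1)
      have h0 : E^[Nat.find h1] a ≠ 0 := fun h0 => h2 (Or.inl h0)
      have h4 := ge_lt h0 h3
      have h5 : ¬ (o a + 1 - N * (Nat.find h1 : ℕ) ≤ v.ord (E^[Nat.find h1] a)) :=
        fun h => h2 (Or.inr h)
      omega
    · by_contra h2
      exact Nat.find_min h1 hi h2
  have hmul : ∀ a ∈ A, ∀ b ∈ A, a ≠ 0 → b ≠ 0 → o (a * b) = o a + o b := by
    intro a ha b hb ha0 hb0
    have hab := mul_mem ha hb
    have hab0 := mul_ne_zero ha0 hb0
    apply le_antisymm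
    · obtain ⟨i, hi0, hi1, hi2⟩ := ho3 a ha ha0
      obtain ⟨l, hl0, hl1, hl2⟩ := ho3 b hb hb0
      have h1 := ho1 (a * b) hab hab0 (i + l)
      rw [hleib, ← Finset.add_sum_erase _ _
        (mem_antidiagonal.2 (rfl : (i, l).1 + (i, l).2 = i + l))] at h1
      have hch : (((i + l).choose i : ℕ) : K) = algebraMap k K ((i + l).choose i : ℕ) := by
        rw [map_natCast]
      have hch0 : (((i + l).choose i : ℕ) : k) ≠ 0 :=
        Nat.cast_ne_zero.2 (Nat.choose_pos (Nat.le_add_right i l)).ne'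
      have hne : (((i + l).choose i : ℕ) : K) * (E^[i] a * E^[l] b) ≠ 0 := by
        refine mul_ne_zero ?_ (mul_ne_zero hi0 hl0)
        rw [hch]
        exact (map_ne_zero (algebraMap k K)).2 hch0
      have hord : v.ord ((((i + l).choose i : ℕ) : K) * (E^[i] a * E^[l] b)) =
          o a + o b - N * ((i + l : ℕ) : ℤ) := by
        rw [v.ord_mul (by rw [hch]; exact (map_ne_zero (algebraMap k K)).2 hch0) (mul_ne_zero hi0 hl0),
          v.ord_mul hi0 hl0, hi1, hl1, hch, v.ord_const hch0]
        push_cast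
        ring
      have h2 := ord_add_gt (v := v) hne (g := ∑ p ∈ (antidiagonal (i + l)).erase (i, l),
        ((i + l).choose p.1 : K) * (E^[p.1] a * E^[p.2] b)) (by
        refine Ge.sum _ _ fun p hp => ?_
        obtain ⟨hp1, hp2⟩ := Finset.mem_erase.1 hp
        have hp3 := mem_antidiagonal.1 hp2
        rw [hord]
        have h3 : Ge v (o a + o b - N * ((i + l : ℕ) : ℤ) + 1) (E^[p.1] a * E^[p.2] b) := by
          rcases lt_trichotomy p.1 i with h4 | h4 | h4
          · refine Ge.mono ?_ ((hi2 p.1 h4).mul (ho1 b hb hb0 p.2))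
            rw [← hp3]
            push_cast
            nlinarith
          · exfalso
            apply hp1
            ext
            · exact h4
            · change p.2 = l
              omega
          · refine Ge.mono ?_ ((ho1 a ha ha0 p.1).mul (hl2 p.2 (by omega)))
            rw [← hp3]
            push_cast
            nlinarith
        have h5 := (Ge.natCast (P := v) ((i + l).choose p.1)).mul h3
        rwa [zero_add] at h5)
      have h3 := ge_lt h2.1 h1
      rw [h2.2, hord] at h3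
      omega
    · apply ho2 _ hab hab0
      intro j
      rw [hleib]
      refine Ge.sum _ _ fun p hp => ?_
      have hp3 := mem_antidiagonal.1 hp
      have h3 := (ho1 a ha ha0 p.1).mul (ho1 b hb hb0 p.2)
      have h5 := (Ge.natCast (P := v) (j.choose p.1)).mul h3
      rw [zero_add] at h5
      refine Ge.mono ?_ h5
      rw [← hp3]
      push_cast
      nlinarith
  have ht0 : t ≠ 0 := by
    rintro rfl
    rw [v.ord_zero] at ht
    omega
  have hEt' : ∀ j : ℕ, j ≠ 0 → E^[j] t = 0 := by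
    intro j hj
    obtain ⟨j', rfl⟩ := Nat.exists_eq_succ_of_ne_zero hj
    rw [Function.iterate_succ_apply, hEt, hE0]
  have hconst' : ∀ u ∈ A, u ≠ 0 → E u = 0 → o u = v.ord u := by
    intro u hu hu0 hEu
    apply le_antisymm
    · have := ge_lt hu0 (ho1 u hu hu0 0)
      simpa using this
    · apply ho2 u hu hu0
      intro j
      rcases Nat.eq_zero_or_pos j with rfl | hj
      · simpa using ge_ord v (f := u)
      · left
        obtain ⟨j', rfl⟩ := Nat.exists_eq_succ_of_ne_zero hj.ne'
        rw [Function.iterate_succ_apply, hEu, hE0]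
  obtain ⟨v', hv'⟩ := ext_ord A hA o hmul (by
    intro a ha b hb ha0 hb0 hab0
    apply ho2 _ (add_mem ha hb) hab0
    intro j
    rw [hEadd]
    exact (Ge.mono (by omega) (ho1 a ha ha0 j)).add (Ge.mono (by omega) (ho1 b hb hb0 j)))
    (by
      intro c hc
      rw [hconst' _ (A.algebraMap_mem c) (by simpa using hc) (E.map_algebraMap c)]
      exact v.ord_const hc) htA ht0 (by rw [hconst' t htA ht0 hEt, ht])
  refine ⟨v', fun a ha n => ⟨fun h j => ?_, fun h => ?_⟩⟩
  · rcases h with rfl | h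
    · rw [hE0]
      exact Ge.zero
    · by_cases ha0 : a = 0
      · rw [ha0, hE0]
        exact Ge.zero
      rw [hv' a ha ha0] at h
      exact Ge.mono (by omega) (ho1 a ha ha0 j)
  · by_cases ha0 : a = 0
    · exact Or.inl ha0
    right
    rw [hv' a ha ha0]
    exact ho2 a ha ha0 n h

end Pool.Agent.TH8.TEN
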