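import Pool.Agent.TH143.Hol
import Pool.Agent.TH143.Fin
import Pool.Agent.TH8.TEN.Step

/-!
The field of meromorphic functions on the plane: places, rationality of algebraic functions.
-/

set_option autoImplicit false

open FF Set Filter Topology Pool.Agent.W603.LV Pool.Agent.TH143

namespace Pool.Agent.TH8.TEN

/-- the ring of entire functions -/
abbrev HU : Type := Hol (univ : Set ℂ)

instance : IsDomain HU := hol_domain isPreconnected_univ univ_nonempty

/-- the values of an entire function -/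
noncomputable def ev (a : HU) (z : ℂ) : ℂ := evz (⟨z, mem_univ z⟩ : (univ : Set ℂ)) a

theorem ev_add (a b : HU) (z : ℂ) : ev (a + b) z = ev a z + ev b z := map_add _ _ _
theorem ev_mul (a b : HU) (z : ℂ) : ev (a * b) z = ev a z * ev b z := map_mul _ _ _
theorem ev_zero (z : ℂ) : ev 0 z = 0 := map_zero _
theorem ev_const (c : ℂ) (z : ℂ) : ev (algebraMap ℂ HU c) z = c := by
  unfold ev
  rw [AlgHom.commutes]
  rfl

theorem ev_ext {a b : HU} (h : ∀ z, ev a z = ev b z) : a = b := hol_ext fun z => h z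

theorem ev_an (a : HU) (z : ℂ) : AnalyticAt ℂ (ev a) z := by
  obtain ⟨F, hF, h⟩ := hol_an a
  have : ev a = F := funext fun z => h ⟨z, mem_univ z⟩
  rw [this]
  exact hF z (mem_univ z)

theorem ev_ne {a : HU} (ha : a ≠ 0) (c : ℂ) : ∀ᶠ z in 𝓝[≠] c, ev a z ≠ 0 := by
  by_contra hcon
  apply ha
  have h1 : ∃ᶠ z in 𝓝[≠] c, ev a z = 0 :=
    (Filter.not_eventually.1 hcon).mono fun z h => not_not.1 h
  have h2 := AnalyticOnNhd.eqOn_zero_of_preconnected_of_frequently_eq_zero (f := ev a)
    (U := univ) (fun z _ => ev_an a z) isPreconnected_univ (mem_univ c) h1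
  exact ev_ext fun z => by rw [ev_zero]; exact h2 (mem_univ z)

variable {M : Type} [Field M] [Algebra HU M] [IsFractionRing HU M]

theorem exists_rep (x : M) : ∃ a b : HU, b ≠ 0 ∧ x = algebraMap HU M a / algebraMap HU M b := by
  obtain ⟨a, b, hb, h⟩ := IsFractionRing.div_surjective (A := HU) x
  exact ⟨a, b, nonZeroDivisors.ne_zero hb, h.symm⟩

/-- a meromorphic function as a function -/
noncomputable def mer (x : M) (z : ℂ) : ℂ :=
  ev (exists_rep x).choose z / ev (exists_rep x).choose_spec.choose z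

theorem amap_ne {b : HU} (hb : b ≠ 0) : algebraMap HU M b ≠ 0 := by
  rwa [Ne, map_eq_zero_iff _ (IsFractionRing.injective HU M)]

theorem mer_rep (x : M) : ∃ n d : HU, d ≠ 0 ∧ x = algebraMap HU M n / algebraMap HU M d ∧
    ∀ z, mer x z = ev n z / ev d z :=
  ⟨_, _, (exists_rep x).choose_spec.choose_spec.1, (exists_rep x).choose_spec.choose_spec.2,
    fun _ => rfl⟩

theorem mer_div {x : M} {a b : HU} (hb : b ≠ 0) (hx : x = algebraMap HU M a / algebraMap HU M b)
    (c : ℂ) : mer x =ᶠ[𝓝[≠] c] fun z => ev a z / ev b z := by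
  obtain ⟨n, d, hd, hn, hm⟩ := mer_rep x
  have h2 : a * d = n * b := by
    apply IsFractionRing.injective HU M
    rw [map_mul, map_mul]
    rw [hx, div_eq_div_iff (amap_ne hb) (amap_ne hd)] at hn
    exact hn
  filter_upwards [ev_ne hb c, ev_ne hd c] with z hz1 hz2
  rw [hm, div_eq_div_iff hz2 hz1]
  have h3 := congrArg (fun u => ev u z) h2
  simp only [ev_mul] at h3
  exact h3.symm

theorem mer_mero (x : M) (c : ℂ) : MeromorphicAt (mer x) c := by
  obtain ⟨a, b, hb, hx⟩ := exists_rep x
  exact ((ev_an a c).meromorphicAt.div (ev_an b c).meromorphicAt).congr (mer_div hb hx c).symm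

theorem mer_add (x y : M) (c : ℂ) : mer (x + y) =ᶠ[𝓝[≠] c] mer x + mer y := by
  obtain ⟨a, b, hb, hx⟩ := exists_rep x
  obtain ⟨a', b', hb', hy⟩ := exists_rep y
  have h1 : x + y = algebraMap HU M (a * b' + b * a') / algebraMap HU M (b * b') := by
    rw [hx, hy, div_add_div _ _ (amap_ne hb) (amap_ne hb')]
    simp only [map_add, map_mul]
  filter_upwards [mer_div hb hx c, mer_div hb' hy c, mer_div (mul_ne_zero hb hb') h1 c,
    ev_ne hb c, ev_ne hb' c] with z h2 h3 h4 h5 h6
  rw [h4, Pi.add_apply, h2, h3, div_add_div _ _ h5 h6, ev_add, ev_mul, ev_mul, ev_mul]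

theorem mer_mul (x y : M) (c : ℂ) : mer (x * y) =ᶠ[𝓝[≠] c] mer x * mer y := by
  obtain ⟨a, b, hb, hx⟩ := exists_rep x
  obtain ⟨a', b', hb', hy⟩ := exists_rep y
  have h1 : x * y = algebraMap HU M (a * a') / algebraMap HU M (b * b') := by
    rw [hx, hy, div_mul_div_comm]
    simp only [map_mul]
  filter_upwards [mer_div hb hx c, mer_div hb' hy c, mer_div (mul_ne_zero hb hb') h1 c] with
    z h2 h3 h4
  rw [h4, Pi.mul_apply, h2, h3, div_mul_div_comm, ev_mul, ev_mul]

theorem one_ne_HU : (1 : HU) ≠ 0 := one_ne_zero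

theorem ev_one (z : ℂ) : ev 1 z = 1 := map_one _

theorem mer_hol (a : HU) (c : ℂ) : mer (algebraMap HU M a) =ᶠ[𝓝[≠] c] ev a := by
  refine (mer_div (M := M) (a := a) (b := 1) one_ne_HU (by rw [map_one, div_one]) c).trans ?_
  filter_upwards with z
  rw [ev_one, div_one]

theorem mer_order_ne {x : M} (hx : x ≠ 0) (c : ℂ) : meromorphicOrderAt (mer x) c ≠ ⊤ := by
  obtain ⟨a, b, hb, hxe⟩ := exists_rep x
  have ha : a ≠ 0 := by
    rintro rfl
    rw [map_zero, zero_div] at hxe
    exact hx hxe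
  rw [meromorphicOrderAt_ne_top_iff_eventually_ne_zero (mer_mero x c)]
  filter_upwards [mer_div hb hxe c, ev_ne ha c, ev_ne hb c] with z h1 h2 h3
  rw [h1]
  exact div_ne_zero h2 h3

/-- the order of vanishing at a point -/
noncomputable def mord (c : ℂ) (x : M) : ℤ := (meromorphicOrderAt (mer x) c).untopD 0

theorem mord_coe {x : M} (hx : x ≠ 0) (c : ℂ) :
    meromorphicOrderAt (mer x) c = (mord c x : ℤ) := by
  unfold mord
  obtain ⟨n, hn⟩ := WithTop.ne_top_iff_exists.1 (mer_order_ne hx c)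
  rw [← hn]
  rfl

variable [Algebra ℂ M] [IsScalarTower ℂ HU M]

/-- **The place of the field of meromorphic functions given by a point.** -/
noncomputable def ptPlace (M : Type) [Field M] [Algebra HU M] [IsFractionRing HU M] [Algebra ℂ M]
    [IsScalarTower ℂ HU M] (Z : HU) (hZ : ∀ z, ev Z z = z) (c : ℂ) : Place ℂ M where
  ord := mord c
  ord_zero := by
    unfold mord
    have h1 : meromorphicOrderAt (mer (0 : M)) c = ⊤ := by
      rw [meromorphicOrderAt_eq_top_iff]
      have h2 := mer_hol (M := M) 0 c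
      rw [map_zero] at h2
      filter_upwards [h2] with z hz
      rw [hz, ev_zero]
    rw [h1]
    rfl
  ord_mul := by
    intro f g hf hg
    have h1 := meromorphicOrderAt_mul (mer_mero f c) (mer_mero g c)
    rw [← meromorphicOrderAt_congr (mer_mul f g c), mord_coe (mul_ne_zero hf hg), mord_coe hf,
      mord_coe hg] at h1
    exact_mod_cast h1
  ord_add := by
    intro f g hf hg hfg
    have h1 := meromorphicOrderAt_add (mer_mero f c) (mer_mero g c)
    rw [← meromorphicOrderAt_congr (mer_add f g c), mord_coe hfg, mord_coe hf,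
      mord_coe hg] at h1
    exact_mod_cast h1
  ord_const := by
    intro a ha
    have h1 : algebraMap ℂ M a ≠ 0 := (map_ne_zero _).2 ha
    have h2 : meromorphicOrderAt (mer (algebraMap ℂ M a)) c = (0 : ℤ) := by
      rw [IsScalarTower.algebraMap_apply ℂ HU M, meromorphicOrderAt_congr (mer_hol _ c)]
      have h3 : ev (algebraMap ℂ HU a) = fun _ => a := funext fun z => ev_const a z
      rw [h3]
      classical
      rw [meromorphicOrderAt_const, if_neg ha]
      rfl
    rw [mord_coe h1] at h2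
    exact_mod_cast h2
  surj := by
    have h0 : Z - algebraMap ℂ HU c ≠ 0 := by
      intro h
      have h1 := congrArg (fun u => ev u (c + 1)) (sub_eq_zero.1 h)
      simp only [hZ, ev_const] at h1
      simp at h1
    have h1 : algebraMap HU M (Z - algebraMap ℂ HU c) ≠ 0 := amap_ne h0
    refine ⟨_, h1, ?_⟩
    have h2 : meromorphicOrderAt (mer (algebraMap HU M (Z - algebraMap ℂ HU c))) c = (1 : ℤ) := by
      rw [meromorphicOrderAt_congr (mer_hol _ c)]
      have h3 : ev (Z - algebraMap ℂ HU c) = fun z => z - c := by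
        funext z
        have : ev (Z - algebraMap ℂ HU c) z = ev Z z - ev (algebraMap ℂ HU c) z := map_sub _ _ _
        rw [this, hZ, ev_const]
      rw [h3]
      exact meromorphicOrderAt_id_sub_const
    rw [mord_coe h1] at h2
    exact_mod_cast h2

theorem pt_ord (Z : HU) (hZ : ∀ z, ev Z z = z) (c : ℂ) :
    (ptPlace M Z hZ c).ord (algebraMap HU M Z - algebraMap ℂ M c) = 1 := by
  have h0 : Z - algebraMap ℂ HU c ≠ 0 := by
    intro h
    have h1 := congrArg (fun u => ev u (c + 1)) (sub_eq_zero.1 h)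
    simp only [hZ, ev_const] at h1
    simp at h1
  have h1 : algebraMap HU M (Z - algebraMap ℂ HU c) ≠ 0 := amap_ne h0
  have h2 : meromorphicOrderAt (mer (algebraMap HU M (Z - algebraMap ℂ HU c))) c = (1 : ℤ) := by
    rw [meromorphicOrderAt_congr (mer_hol _ c)]
    have h3 : ev (Z - algebraMap ℂ HU c) = fun z => z - c := by
      funext z
      have : ev (Z - algebraMap ℂ HU c) z = ev Z z - ev (algebraMap ℂ HU c) z := map_sub _ _ _
      rw [this, hZ, ev_const]
    rw [h3]
    exact meromorphicOrderAt_id_sub_const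
  rw [mord_coe h1, map_sub, ← IsScalarTower.algebraMap_apply] at h2
  exact_mod_cast h2

theorem pt_rat (Z : HU) (hZ : ∀ z, ev Z z = z) (c : ℂ) {x : M} (hx : (ptPlace M Z hZ c).Reg x) :
    ∃ a : ℂ, Ge (ptPlace M Z hZ c) 1 (x - algebraMap ℂ M a) := by
  by_cases hx0 : x = 0
  · exact ⟨0, Or.inl (by rw [hx0, map_zero, sub_zero])⟩
  have h1 : (0 : ℤ) ≤ mord c x := ge_lt (v := ptPlace M Z hZ c) hx0 hx
  have h2 : 0 ≤ meromorphicOrderAt (mer x) c := by
    rw [mord_coe hx0]
    exact_mod_cast h1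
  obtain ⟨a, ha⟩ := tendsto_nhds_of_meromorphicOrderAt_nonneg (mer_mero x c) h2
  refine ⟨a, ?_⟩
  by_cases h3 : x - algebraMap ℂ M a = 0
  · exact Or.inl h3
  right
  change (1 : ℤ) ≤ mord c (x - algebraMap ℂ M a)
  have h4 : Tendsto (mer (x - algebraMap ℂ M a)) (𝓝[≠] c) (𝓝 0) := by
    have h5 : mer (x - algebraMap ℂ M a) =ᶠ[𝓝[≠] c] fun z => mer x z - a := by
      have h6 := mer_add x (-algebraMap ℂ M a) c
      have h7 := mer_hol (M := M) (algebraMap ℂ HU (-a)) c
      rw [← IsScalarTower.algebraMap_apply, map_neg] at h7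
      rw [← sub_eq_add_neg] at h6
      filter_upwards [h6, h7] with z h8 h9
      rw [h8, Pi.add_apply, h9, ev_const]
      ring
    rw [tendsto_congr' h5]
    have := ha.sub_const a
    rwa [sub_self] at this
  have h5 := (tendsto_zero_iff_meromorphicOrderAt_pos (mer_mero _ c)).1 h4
  rw [mord_coe h3] at h5
  have h6 : (0 : ℤ) < mord c (x - algebraMap ℂ M a) := by exact_mod_cast h5
  omega

/-- a meromorphic function without poles is entire -/
theorem pt_entire (Z : HU) (hZ : ∀ z, ev Z z = z) {x : M}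
    (hx : ∀ c, (ptPlace M Z hZ c).Reg x) : ∃ g : HU, algebraMap HU M g = x := by
  by_cases hx0 : x = 0
  · exact ⟨0, by rw [map_zero, hx0]⟩
  have hm : MeromorphicOn (mer x) univ := fun z _ => mer_mero x z
  have h1 : AnalyticOnNhd ℂ (toMeromorphicNFOn (mer x) univ) univ := by
    intro z _
    have h2 := (meromorphicNFOn_toMeromorphicNFOn (mer x) univ) (mem_univ z)
    rw [← h2.meromorphicOrderAt_nonneg_iff_analyticAt,
      meromorphicOrderAt_toMeromorphicNFOn hm (mem_univ z), mord_coe hx0]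
    have h3 : (0 : ℤ) ≤ mord z x := ge_lt (v := ptPlace M Z hZ z) hx0 (hx z)
    exact_mod_cast h3
  refine ⟨toHol _ h1, ?_⟩
  obtain ⟨a, b, hb, hxe⟩ := exists_rep x
  have h2 : toHol _ h1 * b = a := by
    have h3 : ∀ᶠ z in 𝓝[≠] (0 : ℂ), ev (toHol _ h1 * b - a) z = 0 := by
      filter_upwards [hm.toMeromorphicNFOn_eq_self_on_nhdsNE (mem_univ (0 : ℂ)),
        mer_div hb hxe 0, ev_ne hb 0] with z h4 h5 h6
      have h7 : ev (toHol _ h1 * b - a) z =
          toMeromorphicNFOn (mer x) univ z * ev b z - ev a z := by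
        have : ev (toHol _ h1 * b - a) z = ev (toHol _ h1 * b) z - ev a z := map_sub _ _ _
        rw [this, ev_mul]
        rfl
      rw [h7, h4, h5, div_mul_cancel₀ _ h6, sub_self]
    by_contra hne
    have h4 := ev_ne (sub_ne_zero.2 hne) 0
    have h5 := (h3.and h4).exists
    obtain ⟨z, h6, h7⟩ := h5
    exact h7 h6
  refine Eq.trans ?_ hxe.symm
  rw [eq_div_iff (amap_ne hb), ← map_mul, h2]

end Pool.Agent.TH8.TEN
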