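import Pool.Agent.TH8.TEN.Unram
import Pool.Agent.TH8.TEN.Alg

/-!
Prime divisors which are poles of a given function, and the order of a derivative.
-/

set_option autoImplicit false

open FF IntermediateField Pool.Agent.W602.GT Pool.Agent.W603.LV Pool.Agent.TH143.GT

namespace Pool.Agent.TH8.TEN

variable {k K : Type} [Field k] [Field K] [Algebra k K]

/-- a transcendence basis containing a given element -/
theorem exists_basis {m : ℕ} (hw : Algebra.trdeg k K = (m + 1 : ℕ)) {t : K}
    (htr : Transcendental k t) : ∃ (y : Fin (m + 1) → K) (i0 : Fin (m + 1)),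
      IsTranscendenceBasis k y ∧ y i0 = t := by
  have h1 : AlgebraicIndepOn k id ({t} : Set K) :=
    (algebraicIndependent_singleton_iff (⟨t, rfl⟩ : ({t} : Set K))).2 htr
  obtain ⟨B, hB1, hB⟩ := exists_isTranscendenceBasis_superset h1
  have hcard := hB.cardinalMk_eq_trdeg
  rw [hw] at hcard
  have hfin : Finite B := by
    rw [← Cardinal.lt_aleph0_iff_finite, hcard]
    exact Cardinal.natCast_lt_aleph0
  obtain ⟨m', ⟨e⟩⟩ := Finite.exists_equiv_fin B
  obtain rfl : m' = m + 1 := by
    rw [Cardinal.mk_congr e, Cardinal.mk_fin] at hcard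
    exact_mod_cast hcard
  have htB : t ∈ B := hB1 (Set.mem_singleton t)
  exact ⟨fun i => (e.symm i : K), e ⟨t, htB⟩, hB.comp_equiv e.symm, by simp⟩

/-- **Poles.** A nonconstant function has a pole along some prime divisor. -/
theorem exists_pole [CharZero k] [Algebra.EssFiniteType k K] {m : ℕ}
    (hw : Algebra.trdeg k K = (m + 1 : ℕ)) {z : K} (hz : Transcendental k z) :
    ∃ P : Place k K, Divisorial (m + 1) P ∧ P.ord z < 0 := by
  classical
  obtain ⟨y, i0, hy, hyz⟩ := exists_basis hw hz
  let E : IntermediateField k K := IntermediateField.adjoin k (y '' {i0}ᶜ)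
  have htr : Transcendental E z := by
    rw [← hyz]
    exact IntermediateField.transcendental_adjoin_iff.2 (hy.1.transcendental_adjoin (by simp))
  have hE : Algebra.EssFiniteType E K := Algebra.EssFiniteType.of_comp k E K
  have hle : IntermediateField.adjoin k (Set.range y) ≤ E⟮z⟯.restrictScalars k := by
    rw [IntermediateField.adjoin_le_iff]
    rintro _ ⟨i, rfl⟩
    rw [SetLike.mem_coe, IntermediateField.mem_restrictScalars]
    by_cases hi : i = i0
    · rw [hi, hyz]
      exact IntermediateField.mem_adjoin_simple_self E z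
    · exact (E⟮z⟯).algebraMap_mem
        (⟨y i, IntermediateField.subset_adjoin k _ ⟨i, hi, rfl⟩⟩ : E)
  have halg : Algebra.IsAlgebraic (E⟮z⟯.restrictScalars k) K := by
    have h1 : Algebra.IsAlgebraic (IntermediateField.adjoin k (Set.range y)) K :=
      hy.isAlgebraic_field
    let _ : Algebra (IntermediateField.adjoin k (Set.range y)) (E⟮z⟯.restrictScalars k) :=
      (IntermediateField.inclusion hle).toRingHom.toAlgebra
    have _ : IsScalarTower (IntermediateField.adjoin k (Set.range y))
        (E⟮z⟯.restrictScalars k) K := IsScalarTower.of_algebraMap_eq fun c => rfl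
    exact Algebra.IsAlgebraic.tower_top (K := ↥(IntermediateField.adjoin k (Set.range y)))
      ↥(E⟮z⟯.restrictScalars k)
  have halg' : Algebra.IsAlgebraic E⟮z⟯ K := halg
  have hEz : Algebra.EssFiniteType E⟮z⟯ K := Algebra.EssFiniteType.of_comp E E⟮z⟯ K
  have hfin : FiniteDimensional E⟮z⟯ K := by
    obtain ⟨s, hs⟩ := IntermediateField.fg_top E⟮z⟯ K
    have h2 : FiniteDimensional E⟮z⟯ (IntermediateField.adjoin E⟮z⟯ (s : Set K)) :=
      IntermediateField.finiteDimensional_adjoin
        (fun x _ => (halg'.isAlgebraic x).isIntegral)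
    rw [hs] at h2
    exact Module.Finite.equiv IntermediateField.topEquiv.toLinearEquiv
  have hFF : IsFF E K := IsFF.of_finite htr hfin
  obtain ⟨S, hS1, hS2⟩ := poles (k := E) (K := K) htr
  obtain ⟨P', hP'⟩ : ∃ P', P' ∈ S := by
    by_contra hcon
    push Not at hcon
    have h3 : S = ∅ := Finset.eq_empty_of_forall_notMem hcon
    rw [h3, Finset.sum_empty] at hS2
    have h4 : 0 < Module.finrank E⟮z⟯ K := Module.finrank_pos
    omega
  let P : Place k K :=
    { ord := P'.ord
      ord_zero := P'.ord_zero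
      ord_mul := P'.ord_mul
      ord_add := P'.ord_add
      ord_const := fun {c} hc => by
        rw [IsScalarTower.algebraMap_apply k E K]
        exact P'.ord_const ((map_ne_zero (algebraMap k E)).2 hc)
      surj := P'.surj }
  refine ⟨P, ⟨fun l => y (i0.succAbove l), fun F hF => ?_⟩, (hS1 P').1 hP'⟩
  have hind : AlgebraicIndependent k (fun l : Fin m => y (i0.succAbove l)) :=
    hy.1.comp _ Fin.succAbove_right_injective
  have h1 : MvPolynomial.aeval (fun l : Fin m => y (i0.succAbove l)) F ≠ 0 := fun h0 =>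
    hF ((injective_iff_map_eq_zero _).1 hind F h0)
  have h2 : MvPolynomial.aeval (fun l : Fin m => y (i0.succAbove l)) F ∈ E := by
    clear h1 hF
    induction F using MvPolynomial.induction_on with
    | C a => rw [MvPolynomial.aeval_C]; exact E.algebraMap_mem a
    | add p q hp hq => rw [map_add]; exact add_mem hp hq
    | mul_X p j hp =>
      rw [map_mul, MvPolynomial.aeval_X]
      exact mul_mem hp (IntermediateField.subset_adjoin k _ ⟨_, Fin.succAbove_ne i0 j, rfl⟩)
  refine ⟨h1, ?_⟩
  have h3 := P'.ord_const (c := (⟨_, h2⟩ : E)) (by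
    intro h0
    exact h1 (congrArg Subtype.val h0))
  exact h3

/-- the order of a derivative -/
theorem ord_der [CharZero k] {v : Place k K} {π : K} (hπ : v.ord π = 1) {D : Derivation k K K}
    (hD : DerReg v D) (hDπ : D π = 1) {x : K} (hx : v.ord x ≠ 0) :
    D x ≠ 0 ∧ v.ord (D x) = v.ord x - 1 := by
  have hπ0 : π ≠ 0 := by
    rintro rfl
    rw [v.ord_zero] at hπ
    omega
  have hx0 : x ≠ 0 := by
    rintro rfl
    exact hx v.ord_zero
  have hz : ∀ z : ℤ, v.ord (π ^ z) = z := by
    intro z
    rcases Int.eq_nat_or_neg z with ⟨j, rfl | rfl⟩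
    · rw [zpow_natCast, v.ord_pow, hπ, mul_one]
    · rw [zpow_neg, v.ord_inv, zpow_natCast, v.ord_pow, hπ, mul_one]
  set n := v.ord x with hn
  set u := x * π ^ (-n) with hu
  have hu0 : u ≠ 0 := mul_ne_zero hx0 (zpow_ne_zero _ hπ0)
  have hvu : v.ord u = 0 := by
    rw [hu, v.ord_mul hx0 (zpow_ne_zero _ hπ0), hz]
    omega
  have hxu : x = π ^ n * u := by
    rw [hu, mul_comm x, ← mul_assoc, ← zpow_add₀ hπ0, add_neg_cancel, zpow_zero, one_mul]
  have h1 : D x = ((n : K) * π ^ (n - 1) * u) + π ^ n * D u := by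
    conv_lhs => rw [hxu]
    rw [D.leibniz, D.leibniz_zpow, hDπ]
    simp only [smul_eq_mul, mul_one, zsmul_eq_mul]
    ring
  have hn0 : ((n : ℤ) : k) ≠ 0 := Int.cast_ne_zero.2 hx
  have hnK : ((n : ℤ) : K) = algebraMap k K (n : k) := by rw [map_intCast]
  have hn1 : ((n : ℤ) : K) ≠ 0 := by
    rw [hnK]
    exact (map_ne_zero (algebraMap k K)).2 hn0
  have h2 : (n : K) * π ^ (n - 1) * u ≠ 0 :=
    mul_ne_zero (mul_ne_zero hn1 (zpow_ne_zero _ hπ0)) hu0
  have h3 : v.ord ((n : K) * π ^ (n - 1) * u) = n - 1 := by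
    rw [v.ord_mul (mul_ne_zero hn1 (zpow_ne_zero _ hπ0)) hu0,
      v.ord_mul hn1 (zpow_ne_zero _ hπ0), hz, hvu, hnK, v.ord_const hn0]
    ring
  have h4 : Ge v n (π ^ n * D u) := by
    have h5 : Ge v n (π ^ n) := Or.inr (hz n).ge
    have h6 : Ge v 0 (D u) := hD u (Or.inr hvu.ge)
    have h7 := h5.mul h6
    rwa [add_zero] at h7
  have h5 := ord_add_gt (v := v) h2 (g := π ^ n * D u) (by
    rw [h3]
    exact Ge.mono (by omega) h4)
  rw [h1]
  exact ⟨h5.1, h5.2.trans h3⟩

/-- the order of a product of linear factors -/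
theorem ord_roots (v : Place k K) {z : K} (hz : Transcendental k z) (s : Multiset k) :
    (s.map fun r => z - algebraMap k K r).prod ≠ 0 ∧
      v.ord (s.map fun r => z - algebraMap k K r).prod =
        (s.map fun r => v.ord (z - algebraMap k K r)).sum := by
  have h0 : ∀ r : k, z - algebraMap k K r ≠ 0 := by
    intro r hr
    apply hz
    rw [sub_eq_zero.1 hr]
    exact isAlgebraic_algebraMap r
  induction s using Multiset.induction_on with
  | empty =>
    simp only [Multiset.map_zero, Multiset.prod_zero, Multiset.sum_zero]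
    exact ⟨one_ne_zero, v.ord_one⟩
  | cons a s ih =>
    rw [Multiset.map_cons, Multiset.map_cons, Multiset.prod_cons, Multiset.sum_cons,
      v.ord_mul (h0 a) ih.1, ih.2]
    exact ⟨mul_ne_zero (h0 a) ih.1, rfl⟩

theorem ord_poly [IsAlgClosed k] (v : Place k K) {z : K} (hz : Transcendental k z)
    {A : Polynomial k} (hA : A ≠ 0) :
    v.ord (Polynomial.aeval z A) = (A.roots.map fun r => v.ord (z - algebraMap k K r)).sum := by
  have h1 := (IsAlgClosed.splits A).eq_prod_roots
  have h2 : Polynomial.aeval z A = algebraMap k K A.leadingCoeff *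
      (A.roots.map fun r => z - algebraMap k K r).prod := by
    conv_lhs => rw [h1]
    rw [map_mul, Polynomial.aeval_C, map_multiset_prod, Multiset.map_map]
    congr 2
    refine Multiset.map_congr rfl fun r _ => ?_
    simp
  have h3 := ord_roots v hz A.roots
  have h4 : A.leadingCoeff ≠ 0 := Polynomial.leadingCoeff_ne_zero.2 hA
  rw [h2, v.ord_mul ((map_ne_zero (algebraMap k K)).2 h4) h3.1, v.ord_const h4, zero_add, h3.2]

/-- **A tensor differential which comes from the line vanishes**, if all fibres over the affine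
line have unramified components. -/
theorem ten_rational {K : Type} [Field K] [Algebra ℂ K] [Algebra.EssFiniteType ℂ K] {m p : ℕ}
    (hp : 0 < p) (hw : Algebra.trdeg ℂ K = (m + 1 : ℕ))
    {θ : MultilinearMap K (fun _ : Fin p => Derivation ℂ K K) K} (hθ : HolTensor (m + 1) θ)
    {z : K} (hz : Transcendental ℂ z)
    (hs : ∀ (D : Fin p → Derivation ℂ K K) (i : Fin p), D i z = 0 → θ D = 0)
    {D0 : Derivation ℂ K K} (hD0 : D0 z = 1) (hrat : (θ fun _ => D0) ∈ ℂ⟮z⟯)
    (hU : ∀ c : ℂ, ∃ P : Place ℂ K, Divisorial (m + 1) P ∧ P.ord (z - algebraMap ℂ K c) = 1) :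
    (θ fun _ => D0) = 0 := by
  classical
  by_contra hne
  obtain ⟨A, B, hAB⟩ := (IntermediateField.mem_adjoin_simple_iff ℂ _).1 hrat
  have hA : A ≠ 0 := by
    rintro rfl
    rw [map_zero, zero_div] at hAB
    exact hne hAB
  have hB : B ≠ 0 := by
    rintro rfl
    rw [map_zero, div_zero] at hAB
    exact hne hAB
  have hA' : Polynomial.aeval z A ≠ 0 := fun h => hA ((transcendental_iff.1 hz) A h)
  have hB' : Polynomial.aeval z B ≠ 0 := fun h => hB ((transcendental_iff.1 hz) B h)
  have hord : ∀ P : Place ℂ K, P.ord (θ fun _ => D0) =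
      (A.roots.map fun r => P.ord (z - algebraMap ℂ K r)).sum -
        (B.roots.map fun r => P.ord (z - algebraMap ℂ K r)).sum := by
    intro P
    rw [hAB, div_eq_mul_inv, P.ord_mul hA' (inv_ne_zero hB'), P.ord_inv, ord_poly P hz hA,
      ord_poly P hz hB]
    ring
  -- the order of the values
  have key : ∀ P : Place ℂ K, Divisorial (m + 1) P → ∀ c : ℂ, P.ord (z - algebraMap ℂ K c) ≠ 0 →
      0 ≤ (p : ℤ) * (P.ord (z - algebraMap ℂ K c) - 1) + P.ord (θ fun _ => D0) := by
    intro P hP c hc
    obtain ⟨y', E', i0, hb', hE', hi0, hy'r, hpres⟩ := Pool.Agent.W240.PG.Frame.main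
      Pool.Agent.W762.PG.main ℂ K (m + 1) hw (fun y hy => fin_adjoin y hy) P hP
    have h1 := ord_der (D := E' i0) hi0 (hpres i0) (by rw [hE', if_pos rfl]) hc
    have h2 : E' i0 z = E' i0 (z - algebraMap ℂ K c) := by
      rw [map_sub, (E' i0).map_algebraMap, sub_zero]
    have h3 := hθ P hP (fun _ => E' i0) (fun _ => hpres i0)
    rw [ten_eq hs hD0, Finset.prod_const, Finset.card_univ, Fintype.card_fin, h2,
      P.reg_iff (mul_ne_zero (pow_ne_zero _ h1.1) hne), P.ord_mul (pow_ne_zero _ h1.1) hne,
      P.ord_pow, h1.2] at h3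
    exact h3
  have hle : B.roots ≤ A.roots := by
    rw [Multiset.le_iff_count]
    intro c
    obtain ⟨P, hP, hPc⟩ := hU c
    have h1 := key P hP c (by omega)
    rw [hPc, sub_self, mul_zero, zero_add, hord] at h1
    have h2 : ∀ r : ℂ, P.ord (z - algebraMap ℂ K r) = if c = r then 1 else 0 := by
      intro r
      split_ifs with h
      · rw [← h, hPc]
      · have h3 : algebraMap ℂ K (c - r) ≠ 0 :=
          (map_ne_zero (algebraMap ℂ K)).2 (sub_ne_zero.2 h)
        have h4 := ord_add_gt (v := P) h3 (g := z - algebraMap ℂ K c) (by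
          rw [P.ord_const (sub_ne_zero.2 h), zero_add]
          exact Or.inr hPc.ge)
        have h5 : algebraMap ℂ K (c - r) + (z - algebraMap ℂ K c) = z - algebraMap ℂ K r := by
          rw [map_sub]
          ring
        rw [h5, P.ord_const (sub_ne_zero.2 h)] at h4
        exact h4.2
    have h3 : ∀ s : Multiset ℂ, (s.map fun r => P.ord (z - algebraMap ℂ K r)).sum =
        (s.count c : ℤ) := by
      intro s
      simp only [h2]
      induction s using Multiset.induction_on with
      | empty => simp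
      | cons a s ih =>
        rw [Multiset.map_cons, Multiset.sum_cons, ih, Multiset.count_cons]
        split_ifs <;> push_cast <;> ring
    rw [h3, h3] at h1
    omega
  obtain ⟨P, hP, hPz⟩ := exists_pole hw hz
  have h2 : ∀ r : ℂ, P.ord (z - algebraMap ℂ K r) = P.ord z := by
    intro r
    have hz0 : z ≠ 0 := by
      rintro rfl
      rw [P.ord_zero] at hPz
      omega
    have h4 := ord_add_gt (v := P) hz0 (g := - algebraMap ℂ K r) (by
      refine Ge.mono (M := P.ord z + 1) (N := 0) (by omega) (Ge.neg (Ge.const r)))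
    rw [← sub_eq_add_neg] at h4
    exact h4.2
  have h1 := key P hP 0 (by rw [h2]; omega)
  rw [hord, h2] at h1
  simp only [h2, Multiset.map_const', Multiset.sum_replicate] at h1
  have h5 := Multiset.card_le_card hle
  rw [nsmul_eq_mul, nsmul_eq_mul] at h1
  have h6 : (0 : ℤ) < p := by exact_mod_cast hp
  have h7 : (Multiset.card B.roots : ℤ) ≤ Multiset.card A.roots := by exact_mod_cast h5
  nlinarith

end Pool.Agent.TH8.TEN
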