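import Mathlib
import Pool.Agent.TH143.Tan

/-!
Tangent vectors to the closure of a family of holomorphic functions: general functionals.
-/

set_option autoImplicit false

namespace Pool.Agent.TH8.TEN

open MvPolynomial Metric Set Filter Topology Pool.Agent.TH143

theorem exists_tangent {S : Set ℂ} (hdom : IsDomain (Hol S))
    {K : Type} [Field K] [Algebra (Hol S) K] [IsFractionRing (Hol S) K]
    {ι σ : Type} [Fintype σ] (B : Subalgebra ℂ (Hol S)) (v : ι ⊕ σ → Hol S)
    (hvB : ∀ i, v (Sum.inl i) ∈ B) (D : K → K) (hDadd : ∀ x y, D (x + y) = D x + D y)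
    (hDmul : ∀ x y, D (x * y) = x * D y + y * D x)
    (hDB : ∀ x ∈ B, D (algebraMap (Hol S) K x) = 0) {q : ℕ} (c : Fin q → Hol S)
    (G0 G1 : Fin q → MvPolynomial (ι ⊕ σ) ℂ)
    (hG : ∑ j, algebraMap (Hol S) K (c j) * (D (algebraMap (Hol S) K (aeval v (G1 j))) *
        algebraMap (Hol S) K (aeval v (G0 j)) - algebraMap (Hol S) K (aeval v (G1 j)) *
        D (algebraMap (Hol S) K (aeval v (G0 j)))) ≠ 0) :
    ∃ (a : S) (M : σ → ℂ), ∀ W : ι ⊕ σ → MvPolynomial (ι ⊕ σ) ℂ,
      (∀ i, eval (fun l => evz a (v l)) (W (Sum.inl i)) = 0) →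
      (∀ l, eval (fun l => evz a (v l)) (W (Sum.inr l)) = M l) →
      (∀ P, aeval v P = 0 → eval (fun l => evz a (v l)) (mkDerivation ℂ W P) = 0) ∧
      ∑ j, evz a (c j) * (eval (fun l => evz a (v l)) (mkDerivation ℂ W (G1 j)) *
          eval (fun l => evz a (v l)) (G0 j) - eval (fun l => evz a (v l)) (G1 j) *
          eval (fun l => evz a (v l)) (mkDerivation ℂ W (G0 j))) ≠ 0 := by
  classical
  obtain ⟨s, hs⟩ := IsLocalization.exist_integer_multiples_of_finset (nonZeroDivisors (Hol S))
    (Finset.univ.image (fun l : σ => D (algebraMap (Hol S) K (v (Sum.inr l)))))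
  have hs' : ∀ l : σ, ∃ h : Hol S, algebraMap (Hol S) K h
      = algebraMap (Hol S) K s * D (algebraMap (Hol S) K (v (Sum.inr l))) := by
    intro l
    obtain ⟨h, hh⟩ := hs _ (Finset.mem_image_of_mem _ (Finset.mem_univ l))
    refine ⟨h, ?_⟩
    rw [hh, Algebra.smul_def]
  choose h hh using hs'
  -- the main induction
  have key : ∀ P : MvPolynomial (ι ⊕ σ) ℂ, ∃ H : Hol S,
      algebraMap (Hol S) K H = algebraMap (Hol S) K s * D (algebraMap (Hol S) K (aeval v P)) ∧
      ∀ (a : S) (W : ι ⊕ σ → MvPolynomial (ι ⊕ σ) ℂ),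
        (∀ i, eval (fun l => evz a (v l)) (W (Sum.inl i)) = 0) →
        (∀ l, eval (fun l => evz a (v l)) (W (Sum.inr l)) = evz a (h l)) →
        evz a H = eval (fun l => evz a (v l)) (mkDerivation ℂ W P) := by
    intro P
    induction P using MvPolynomial.induction_on with
    | C c =>
      refine ⟨0, ?_, ?_⟩
      · rw [map_zero, algHom_C]
        have h1 : D (algebraMap (Hol S) K (algebraMap ℂ (Hol S) c)) = 0 :=
          hDB _ (B.algebraMap_mem c)
        rw [h1, mul_zero]
      · intro a W _ _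
        simp
    | add p q hp hq =>
      obtain ⟨H1, h1, h1'⟩ := hp
      obtain ⟨H2, h2, h2'⟩ := hq
      refine ⟨H1 + H2, ?_, ?_⟩
      · rw [map_add, h1, h2, map_add, map_add, hDadd]
        ring
      · intro a W hW1 hW2
        rw [map_add, h1' a W hW1 hW2, h2' a W hW1 hW2, map_add, map_add]
    | mul_X p j hp =>
      obtain ⟨H1, h1, h1'⟩ := hp
      obtain ⟨H2, h2, h2'⟩ : ∃ H2 : Hol S,
          algebraMap (Hol S) K H2 = algebraMap (Hol S) K s * D (algebraMap (Hol S) K (v j)) ∧
          ∀ (a : S) (W : ι ⊕ σ → MvPolynomial (ι ⊕ σ) ℂ),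
            (∀ i, eval (fun l => evz a (v l)) (W (Sum.inl i)) = 0) →
            (∀ l, eval (fun l => evz a (v l)) (W (Sum.inr l)) = evz a (h l)) →
            evz a H2 = eval (fun l => evz a (v l)) (W j) := by
        rcases j with i | l
        · refine ⟨0, ?_, ?_⟩
          · rw [map_zero, hDB _ (hvB i), mul_zero]
          · intro a W hW1 _
            rw [map_zero, hW1]
        · refine ⟨h l, hh l, ?_⟩
          intro a W _ hW2
          rw [hW2]
      refine ⟨H1 * v j + aeval v p * H2, ?_, ?_⟩
      · rw [map_add, map_mul, map_mul, h1, h2, map_mul, aeval_X, map_mul, hDmul]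
        ring
      · intro a W hW1 hW2
        rw [map_add, map_mul, map_mul, h1' a W hW1 hW2, h2' a W hW1 hW2, Derivation.leibniz,
          mkDerivation_X]
        simp only [smul_eq_mul, map_add, map_mul, eval_X]
        have h3 : evz a (aeval v p) = eval (fun l => evz a (v l)) p := by
          have h4 := MvPolynomial.comp_aeval_apply (f := v) (evz a) p
          rw [h4, ← MvPolynomial.aeval_eq_eval]
        rw [h3]
        ring
  have hev : ∀ (a : S) (P : MvPolynomial (ι ⊕ σ) ℂ),
      evz a (aeval v P) = eval (fun l => evz a (v l)) P := by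
    intro a p
    have h4 := MvPolynomial.comp_aeval_apply (f := v) (evz a) p
    rw [h4, ← MvPolynomial.aeval_eq_eval]
  choose H hH hH' using key
  set T : Hol S := ∑ j, c j * (H (G1 j) * aeval v (G0 j) - aeval v (G1 j) * H (G0 j)) with hT
  have hTK : algebraMap (Hol S) K T = algebraMap (Hol S) K s *
      ∑ j, algebraMap (Hol S) K (c j) * (D (algebraMap (Hol S) K (aeval v (G1 j))) *
        algebraMap (Hol S) K (aeval v (G0 j)) - algebraMap (Hol S) K (aeval v (G1 j)) *
        D (algebraMap (Hol S) K (aeval v (G0 j)))) := by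
    rw [hT, map_sum, Finset.mul_sum]
    refine Finset.sum_congr rfl fun j _ => ?_
    rw [map_mul, map_sub, map_mul, map_mul, hH, hH]
    ring
  have hT0 : T ≠ 0 := by
    intro h0
    rw [h0, map_zero] at hTK
    rcases mul_eq_zero.1 hTK.symm with h1 | h1
    · exact nonZeroDivisors.ne_zero s.2 (IsFractionRing.injective (Hol S) K (by rw [h1, map_zero]))
    · exact hG h1
  obtain ⟨a, ha⟩ : ∃ a : S, evz a T ≠ 0 := by
    by_contra hcon
    push Not at hcon
    exact hT0 (hol_ext fun z => by rw [hcon z, map_zero])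
  refine ⟨a, fun l => evz a (h l), fun W hW1 hW2 => ⟨fun P hP => ?_, ?_⟩⟩
  · rw [← hH' P a W hW1 hW2]
    have hD0 : D 0 = 0 := by
      have := hDadd 0 0
      rw [add_zero] at this
      linear_combination - this
    have h1 := hH P
    rw [hP, map_zero, hD0, mul_zero] at h1
    have : H P = 0 := (IsFractionRing.injective (Hol S) K) (by rw [h1, map_zero])
    rw [this, map_zero]
  · have h1 : evz a T = ∑ j, evz a (c j) *
        (eval (fun l => evz a (v l)) (mkDerivation ℂ W (G1 j)) *
          eval (fun l => evz a (v l)) (G0 j) - eval (fun l => evz a (v l)) (G1 j) *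
          eval (fun l => evz a (v l)) (mkDerivation ℂ W (G0 j))) := by
      rw [hT, map_sum]
      refine Finset.sum_congr rfl fun j _ => ?_
      rw [map_mul, map_sub, map_mul, map_mul, hH' _ a W hW1 hW2, hH' _ a W hW1 hW2, hev, hev]
    rw [← h1]
    exact ha

end Pool.Agent.TH8.TEN
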