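import Pool.Agent.TH8.TEN.Flow

/-!
Tensor differentials on a variety with a point over a field with sufficiently many one-parameter
families: they are multiples of the power of one differential.
-/

set_option autoImplicit false

open FF Pool.Agent.W602.GT Pool.Agent.W603.LV Pool.Agent.TH143.GT
open MvPolynomial hiding C
open IntermediateField hiding val

namespace Pool.Agent.TH8.TEN

/-- the contraction with the direction of the curves vanishes: arbitrary vector fields -/
theorem core_tensor' {k K L : Type} [Field k] [Field K] [Field L] [Algebra k K] [Algebra k L]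
    [Algebra K L] [IsScalarTower k K L] [CharZero k] [Algebra.EssFiniteType k K] {p w n : ℕ}
    (hw : Algebra.trdeg k K = w) (hn : Algebra.trdeg k L = n)
    {θ : MultilinearMap K (fun _ : Fin p => Derivation k K K) K} (hθ : HolTensor w θ)
    {y : Fin w → K} {E : Fin w → Derivation k K K} (h : Dual y E)
    (δ : Derivation k L L) {σ : L} (hσ0 : σ ≠ 0) (hσ : δ σ = σ) (htop : (consts δ)⟮σ⟯ = ⊤)
    (D : Fin p → Derivation k L L) (j0 : Fin p) (hj0 : D j0 = δ) :
    pull θ y E D = 0 := by
  classical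
  obtain ⟨m, s, Δ, hm, hs, hΔ0, hcomm, hΔσ, hspan⟩ := exists_cframe hn δ hσ0 hσ htop
  choose c hc using fun i => hspan (D i)
  let c' : Fin p → Fin (m + 1) → L := fun i l => if i = j0 then (if l = 0 then 1 else 0) else c i l
  have h2 : D = fun i => ∑ l, c' i l • Δ l := by
    funext i
    by_cases hi : i = j0
    · simp only [c', if_pos hi]
      rw [Finset.sum_eq_single 0]
      · rw [if_pos rfl, one_smul, hΔ0, hi, hj0]
      · intro l _ hl
        rw [if_neg hl, zero_smul]
      · intro hn
        exact absurd (Finset.mem_univ _) hn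
    · simp only [c', if_neg hi]
      exact hc i
  rw [h2, pull_linear]
  refine Finset.sum_eq_zero fun Q _ => ?_
  by_cases hQ : Q j0 = 0
  · rw [core_tensor hw hn hθ h δ hσ0 hσ htop (fun i => Δ (Q i)) (fun i z => hcomm _ z)
      (fun i => ?_) j0 (by rw [hQ, hΔ0]), mul_zero]
    refine Fin.cases ?_ (fun l => ?_) (Q i)
    · exact Or.inl hΔ0
    · exact Or.inr (hΔσ l)
  · have h3 : ∏ i, c' i (Q i) = 0 := by
      apply Finset.prod_eq_zero (Finset.mem_univ j0)
      simp only [c', if_true, if_neg hQ]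
    rw [h3, zero_mul]

variable {n : ℕ} {F : Type} [Field F] [Algebra ℂ F] {K : Type} [Field K] [Algebra ℂ K]
  {y : Fin (n + 1) → K} {x : Fin (n + 1) → F}

/-- **A tensor differential vanishes on vector fields along the fibres.** -/
theorem slot_zero {w p : ℕ} (hw : Algebra.trdeg ℂ K = w) (hy : y ≠ 0) (hgen : coords ℂ y = ⊤)
    (hx : ∀ G : MvPolynomial (Fin (n + 1)) ℂ, IsForm G →
      (W602.GT.val y G = 0 ↔ W602.GT.val x G = 0)) (ι0 : K →ₐ[ℂ] F)
    (hι0 : ∀ (d : ℕ) (g1 g0 : MvPolynomial (Fin (n + 1)) ℂ),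
      g1.IsHomogeneous d → g0.IsHomogeneous d → W602.GT.val y g0 ≠ 0 →
      ι0 (W602.GT.val y g1 / W602.GT.val y g0) = W602.GT.val x g1 / W602.GT.val x g0)
    {z : K} (hF : FlowHyp (ι0 z) x)
    {θ : MultilinearMap K (fun _ : Fin p => Derivation ℂ K K) K} (hθ : HolTensor w θ)
    (D : Fin p → Derivation ℂ K K) (i0 : Fin p) (hD : D i0 z = 0) : θ D = 0 := by
  classical
  by_contra hne
  have hess : Algebra.EssFiniteType ℂ K := ess_of_coords hgen
  obtain ⟨y0, E, h⟩ := exists_dual hw
  choose e g1 g0 hg1 hg0 hn hr using fun j => exists_frac hgen (y0 j)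
  have hxn : ∀ j, W602.GT.val x (g0 j) ≠ 0 := fun j h0 => hn j ((hx _ ⟨e j, hg0 j⟩).2 h0)
  have hι0y : ∀ j, ι0 (y0 j) = W602.GT.val x (g1 j) / W602.GT.val x (g0 j) := by
    intro j
    rw [← hι0 (e j) (g1 j) (g0 j) (hg1 j) (hg0 j) (hn j), ← hr j]
  -- the extension of the derivation
  obtain ⟨D', hD'⟩ : ∃ D' : Derivation ℂ F F, ∀ f : K, D' (ι0 f) = ι0 (D i0 f) := by
    let _ : Algebra K F := ι0.toRingHom.toAlgebra
    have t0 : IsScalarTower ℂ K F := IsScalarTower.of_algebraMap_eq fun c => by
      change _ = ι0 (algebraMap ℂ K c)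
      rw [ι0.commutes]
    exact ext_der (L := F) hw (D i0)
  let t : (Fin p → Fin w) → F := fun J => ι0 (θ fun i => E (J i))
  let a : Fin p → Fin w → F := fun i j => ι0 (D i (y0 j))
  have hθa : Th t a = ι0 (θ D) := by
    have h1 : θ D = Th (fun J => θ fun i => E (J i)) (fun i j => D i (y0 j)) := by
      rw [Th_apply, ← theta_expand θ E fun i l => D i (y0 l)]
      congr 1
      funext i
      exact h.expand (D i)
    rw [h1]
    exact (Th_map (ι0 : K →+* F) _ _).symm
  let κ : Fin w → F := fun j => Th t (Function.update a i0 (Pi.single j 1))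
  have hsum : Th t a = ∑ j, a i0 j * κ j := by
    have h1 := Th_slot t a i0 (a i0)
    rwa [Function.update_eq_self] at h1
  let c : Fin w → F := fun j => κ j / W602.GT.val x (g0 j) ^ 2
  obtain ⟨W, hW0, hW1, hW2⟩ := hF D' (by rw [hD', hD, map_zero]) w c g1 g0 e hg1 hg0 (by
    have h1 : ∑ j, c j * (D' (W602.GT.val x (g1 j)) * W602.GT.val x (g0 j) -
        W602.GT.val x (g1 j) * D' (W602.GT.val x (g0 j))) = ι0 (θ D) := by
      rw [← hθa, hsum]
      refine Finset.sum_congr rfl fun j _ => ?_
      have h2 : W602.GT.val x (g1 j) = ι0 (y0 j) * W602.GT.val x (g0 j) := by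
        rw [hι0y, div_mul_cancel₀ _ (hxn j)]
      have h3 : D' (W602.GT.val x (g1 j)) = ι0 (y0 j) * D' (W602.GT.val x (g0 j)) +
          W602.GT.val x (g0 j) * ι0 (D i0 (y0 j)) := by
        rw [h2, D'.leibniz, hD']
        simp only [smul_eq_mul]
      have h4 := hxn j
      simp only [c, a]
      rw [h3, h2]
      field_simp
      ring
    rw [h1]
    intro h0
    exact hne ((map_eq_zero ι0).1 h0))
  obtain ⟨M, m, W', x', φ, ι, hm, hmap, hW'1, hx', hφ, hι⟩ := fam_pack hy hgen hx W hW0 hW1
  obtain ⟨δ, hδ, htop⟩ := exists_delta ℂ M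
  have hX0 : (RatFunc.X : RatFunc M) ≠ 0 := RatFunc.X_ne_zero
  have hX : δ (RatFunc.X : RatFunc M) = RatFunc.X := by
    have := hδ Polynomial.X
    rwa [RatFunc.algebraMap_X, Polynomial.derivative_X, map_one, mul_one] at this
  have hL : Algebra.trdeg ℂ (RatFunc M) = (m + 1 : ℕ) := trdeg_ratFunc ℂ M hm
  -- values at the point `1`
  have hvx' : ∀ G : MvPolynomial (Fin (n + 1)) ℂ, ((W602.GT.val x' G : M) : F) =
      W602.GT.val x G := by
    intro G
    have h4 := MvPolynomial.comp_aeval_apply (f := x') M.val G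
    have h5 : (fun i => M.val (x' i)) = x := funext hx'
    rw [h5] at h4
    exact h4
  have hW'v : ∀ G : MvPolynomial (Fin (n + 1)) ℂ, (aeval W' G : Polynomial M).eval 1 =
      W602.GT.val x' G := eval_aeval W' hW'1
  have hx'n : ∀ (d : ℕ) (g : MvPolynomial (Fin (n + 1)) ℂ), g.IsHomogeneous d →
      W602.GT.val y g ≠ 0 → W602.GT.val x' g ≠ 0 := by
    intro d g hg hn h0
    apply hn
    rw [hx g ⟨d, hg⟩, ← hvx', h0]
    rfl
  have hιF : ∀ r : K, ((ι r : M) : F) = ι0 r := by
    intro r
    obtain ⟨d, f1, f0, i1, i0', im, rfl⟩ := exists_frac hgen r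
    rw [hι d f1 f0 i1 i0' im, hι0 d f1 f0 i1 i0' im, ← hvx', ← hvx']
    rfl
  have hEvφ : ∀ r : K, Ev (φ r) (ι r) := by
    intro r
    obtain ⟨d, f1, f0, i1, i0', im, rfl⟩ := exists_frac hgen r
    rw [hφ d f1 f0 i1 i0' im, hι d f1 f0 i1 i0' im, ← hW'v, ← hW'v]
    exact (Ev.poly _).div (Ev.poly _) (by rw [hW'v]; exact hx'n d f0 i0' im)
  -- derivations
  obtain ⟨DM, hDM⟩ : ∃ DM : Fin p → Derivation ℂ M M, ∀ i (f : K), DM i (ι f) = ι (D i f) := by
    let _ : Algebra K M := ι.toRingHom.toAlgebra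
    have t0 : IsScalarTower ℂ K M := IsScalarTower.of_algebraMap_eq fun c => by
      change _ = ι (algebraMap ℂ K c)
      rw [ι.commutes]
    choose DM hDM using fun i => ext_der (L := M) hw (D i)
    exact ⟨DM, hDM⟩
  choose DR hDRX hDR using fun i => ext_ratFunc hm hδ (DM i)
  let Dh : Fin p → Derivation ℂ (RatFunc M) (RatFunc M) := fun i => if i = i0 then δ else DR i
  let wM : Fin w → M := fun j => (Polynomial.derivative (aeval W' (g1 j) : Polynomial M) *
      aeval W' (g0 j) - aeval W' (g1 j) *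
        Polynomial.derivative (aeval W' (g0 j) : Polynomial M)).eval 1 /
      (aeval W' (g0 j) : Polynomial M).eval 1 ^ 2
  let aM : Fin p → Fin w → M := fun i j => if i = i0 then wM j else ι (D i (y0 j))
  have hzero : Th (fun J => ι (θ fun i => E (J i))) aM = 0 := by
    let _ : Algebra K (RatFunc M) := φ.toRingHom.toAlgebra
    have t1 : IsScalarTower ℂ K (RatFunc M) := IsScalarTower.of_algebraMap_eq fun c => by
      change _ = φ (algebraMap ℂ K c)
      rw [φ.commutes]
    have h1 : pull θ y0 E Dh = 0 := core_tensor' hw hL hθ h δ hX0 hX htop Dh i0 (by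
      simp only [Dh, if_true])
    rw [pull_eq_Th] at h1
    apply Ev.zero_unique
    rw [← h1]
    refine Ev.Th (fun J => hEvφ _) (fun i j => ?_)
    change Ev (Dh i (φ (y0 j))) (aM i j)
    by_cases hi : i = i0
    · simp only [Dh, aM, if_pos hi]
      have h2 : φ (y0 j) = rf (aeval W' (g1 j)) / rf (aeval W' (g0 j)) := by
        rw [← hφ (e j) (g1 j) (g0 j) (hg1 j) (hg0 j) (hn j), ← hr j]
      rw [h2]
      exact Ev.delta hδ (by rw [hW'v]; exact hx'n _ _ (hg0 j) (hn j))
    · simp only [Dh, aM, if_neg hi]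
      rw [← hDM]
      exact Ev.der (hDRX i) (hDR i) (hEvφ _)
  have hzero' : Th t (Function.update a i0 fun j => ((wM j : M) : F)) = 0 := by
    have h1 := congrArg (algebraMap M F) hzero
    rw [Th_map, map_zero] at h1
    have ht : (fun J : Fin p → Fin w => algebraMap M F (ι (θ fun i => E (J i)))) = t :=
      funext fun J => hιF _
    have ha : (fun i j => algebraMap M F (aM i j)) =
        Function.update a i0 fun j => ((wM j : M) : F) := by
      funext i j
      by_cases hi : i = i0
      · subst hi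
        simp only [aM, if_true, Function.update_self]
        rfl
      · rw [Function.update_of_ne hi]
        simp only [aM, if_neg hi, a]
        exact hιF _
    rwa [ht, ha] at h1
  rw [Th_slot] at hzero'
  apply hW2
  rw [← hzero']
  refine Finset.sum_congr rfl fun j _ => ?_
  have hmd : ∀ G : MvPolynomial (Fin (n + 1)) ℂ,
      (Polynomial.derivative (aeval W' G : Polynomial M)).map (algebraMap M F) =
        Polynomial.derivative (aeval W G : Polynomial F) := by
    intro G
    rw [← Polynomial.derivative_map, hmap]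
  have hev : ∀ P : Polynomial M, (P.map (algebraMap M F)).eval 1 = ((P.eval 1 : M) : F) := by
    intro P
    rw [Polynomial.eval_map, Polynomial.eval₂_at_one]
    rfl
  have h5 : ((wM j : M) : F) = (Polynomial.derivative (aeval W (g1 j) : Polynomial F) *
      aeval W (g0 j) - aeval W (g1 j) *
        Polynomial.derivative (aeval W (g0 j) : Polynomial F)).eval 1 /
      W602.GT.val x (g0 j) ^ 2 := by
    have h6 : W602.GT.val x (g0 j) = (((aeval W' (g0 j) : Polynomial M).eval 1 : M) : F) := by
      rw [hW'v, hvx']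
    rw [← hmd, ← hmd, ← hmap, ← hmap, ← Polynomial.map_mul, ← Polynomial.map_mul,
      ← Polynomial.map_sub, hev, h6]
    rfl
  rw [h5]
  simp only [c, κ]
  ring

end Pool.Agent.TH8.TEN
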