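import Pool.Agent.TH8.TEN.Step
import Pool.Agent.TH8.TEN.Ev

/-!
A place with a rational residue field is a specialization of an unramified prime divisor.
-/

set_option autoImplicit false

open FF Pool.Agent.W602.GT Pool.Agent.W603.LV Pool.Agent.TH143.GT

namespace Pool.Agent.TH8.TEN

variable {k K : Type} [Field k] [Field K] [Algebra k K]

/-- a finitely generated subalgebra which is stable under finitely many derivations, with a
filtration -/
theorem exists_filt {m : ℕ} (E : Fin m → Derivation k K K) [Algebra.EssFiniteType k K]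
    (v : Place k K) (S0 : Finset K) :
    ∃ (A : Subalgebra k K) (F : ℕ → Set K) (c : ℕ), (S0 : Set K) ⊆ A ∧
      (∀ x : K, ∃ a ∈ A, ∃ b ∈ A, b ≠ 0 ∧ x = a / b) ∧
      (∀ i, ∀ a ∈ A, E i a ∈ A) ∧ (∀ a ∈ A, ∃ n, a ∈ F n) ∧
      (∀ i n, ∀ a ∈ F n, E i a ∈ F (n + 1)) ∧
      (∀ n, ∀ a ∈ F n, Ge v (-(c * n : ℤ)) a) := by
  classical
  obtain ⟨S1, hS1⟩ := IntermediateField.fg_top k K
  set S : Finset K := S0 ∪ S1 with hS
  set B : Subalgebra k K := Algebra.adjoin k (S : Set K) with hB
  have hfrac : ∀ x : K, ∃ a ∈ B, ∃ b ∈ B, b ≠ 0 ∧ x = a / b := by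
    intro x
    have hx : x ∈ IntermediateField.adjoin k (S1 : Set K) := by
      rw [hS1]
      trivial
    have hx' : x ∈ IntermediateField.adjoin k (S : Set K) := by
      refine IntermediateField.adjoin.mono k _ _ ?_ hx
      intro z hz
      rw [hS]
      push_cast
      exact Or.inr hz
    obtain ⟨a, ha, b, hb, rfl⟩ := IntermediateField.mem_adjoin_iff_div.1 hx'
    by_cases hb0 : b = 0
    · exact ⟨0, zero_mem _, 1, one_mem _, one_ne_zero, by rw [hb0, div_zero, zero_div]⟩
    · exact ⟨a, ha, b, hb, hb0, rfl⟩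
  choose num hnum den hden hd0 heq using hfrac
  set G : Finset K := insert 1 (S ∪ (Finset.univ ×ˢ S).image
    (fun p : Fin m × K => (den (E p.1 p.2))⁻¹)) with hG
  have h1G : (1 : K) ∈ G := Finset.mem_insert_self _ _
  have hSG : ∀ s ∈ S, s ∈ G := fun s hs =>
    Finset.mem_insert_of_mem (Finset.mem_union_left _ hs)
  have hdG : ∀ i, ∀ s ∈ S, (den (E i s))⁻¹ ∈ G := fun i s hs =>
    Finset.mem_insert_of_mem (Finset.mem_union_right _ (Finset.mem_image.2
      ⟨(i, s), Finset.mem_product.2 ⟨Finset.mem_univ _, hs⟩, rfl⟩))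
  set A : Subalgebra k K := Algebra.adjoin k (G : Set K) with hA
  have hBA : B ≤ A := Algebra.adjoin_mono fun s hs => hSG s hs
  have hGA : ∀ g ∈ G, g ∈ A := fun g hg => Algebra.subset_adjoin hg
  have hES : ∀ i, ∀ s ∈ S, E i s ∈ A := by
    intro i s hs
    rw [heq (E i s), div_eq_mul_inv]
    exact mul_mem (hBA (hnum _)) (hGA _ (hdG i s hs))
  have hEadj : ∀ (i : Fin m) (T : Set K), (∀ g ∈ T, g ∈ A ∧ E i g ∈ A) →
      ∀ a ∈ Algebra.adjoin k T, a ∈ A ∧ E i a ∈ A := by
    intro i T hT a ha
    induction ha using Algebra.adjoin_induction with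
    | mem z hz => exact hT z hz
    | algebraMap r =>
      exact ⟨A.algebraMap_mem r, by rw [(E i).map_algebraMap]; exact zero_mem _⟩
    | add f g hf' hg' hf hg =>
      exact ⟨add_mem hf.1 hg.1, by rw [map_add]; exact add_mem hf.2 hg.2⟩
    | mul f g hf' hg' hf hg =>
      refine ⟨mul_mem hf.1 hg.1, ?_⟩
      rw [(E i).leibniz]
      exact add_mem (mul_mem hf.1 hg.2) (mul_mem hg.1 hf.2)
  have hEB : ∀ i, ∀ a ∈ B, E i a ∈ A := fun i a ha =>
    (hEadj i _ (fun g hg => ⟨hGA _ (hSG g hg), hES i g hg⟩) a ha).2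
  have hEG : ∀ i, ∀ g ∈ G, E i g ∈ A := by
    intro i g hg
    rcases Finset.mem_insert.1 hg with rfl | hg
    · rw [(E i).map_one_eq_zero]
      exact zero_mem _
    rcases Finset.mem_union.1 hg with hg | hg
    · exact hES i g hg
    · obtain ⟨⟨j, s⟩, hp, rfl⟩ := Finset.mem_image.1 hg
      have hs := (Finset.mem_product.1 hp).2
      have h1 : (den (E j s))⁻¹ ∈ A := hGA _ (hdG j s hs)
      change E i (den (E j s))⁻¹ ∈ A
      rw [Derivation.leibniz_inv, smul_eq_mul]
      exact mul_mem (neg_mem (pow_mem h1 2)) (hEB i _ (hden _))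
  have hEA : ∀ i, ∀ a ∈ A, E i a ∈ A := fun i a ha =>
    (hEadj i _ (fun g hg => ⟨hGA g hg, hEG i g hg⟩) a ha).2
  -- the filtration
  set V : Submodule k K := Submodule.span k (G : Set K) with hV
  have hGV : ∀ g ∈ G, g ∈ V := fun g hg => Submodule.subset_span hg
  have hV1 : 1 ≤ V := Submodule.one_le.2 (hGV 1 h1G)
  have hmono : ∀ {n n' : ℕ}, n ≤ n' → V ^ n ≤ V ^ n' := fun h => pow_le_pow_right' hV1 h
  have hAV : ∀ a ∈ A, ∃ n, a ∈ V ^ n := by
    intro a ha
    induction ha using Algebra.adjoin_induction with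
    | mem z hz => exact ⟨1, by rw [pow_one]; exact hGV z hz⟩
    | algebraMap r =>
      exact ⟨0, by rw [pow_zero]; exact Submodule.mem_one.2 ⟨r, rfl⟩⟩
    | add f g hf' hg' hf hg =>
      obtain ⟨n1, h1⟩ := hf
      obtain ⟨n2, h2⟩ := hg
      exact ⟨max n1 n2, add_mem (hmono (le_max_left _ _) h1) (hmono (le_max_right _ _) h2)⟩
    | mul f g hf' hg' hf hg =>
      obtain ⟨n1, h1⟩ := hf
      obtain ⟨n2, h2⟩ := hg
      exact ⟨n1 + n2, by rw [pow_add]; exact Submodule.mul_mem_mul h1 h2⟩
  obtain ⟨D, hD⟩ : ∃ D : ℕ, ∀ i, ∀ g ∈ G, E i g ∈ V ^ D := by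
    choose! nn hnn using fun (p : Fin m × K) (hp : p.2 ∈ G) => hAV (E p.1 p.2) (hEG p.1 p.2 hp)
    refine ⟨(Finset.univ ×ˢ G).sup nn, fun i g hg => ?_⟩
    have h1 : nn (i, g) ≤ (Finset.univ ×ˢ G).sup nn :=
      Finset.le_sup (f := nn) (Finset.mem_product.2 ⟨Finset.mem_univ _, hg⟩)
    exact hmono h1 (hnn (i, g) hg)
  have hEV1 : ∀ i, ∀ a ∈ V, E i a ∈ V ^ D := by
    intro i a ha
    induction ha using Submodule.span_induction with
    | mem x hx => exact hD i x hx
    | zero => rw [map_zero]; exact zero_mem _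
    | add x y hx' hy' hx hy => rw [map_add]; exact add_mem hx hy
    | smul c x hx' hx => rw [Derivation.map_smul]; exact Submodule.smul_mem _ _ hx
  have hEV : ∀ i (n : ℕ), ∀ a ∈ V ^ n, E i a ∈ V ^ (n + D) := by
    intro i n
    induction n with
    | zero =>
      intro a ha
      rw [pow_zero] at ha
      obtain ⟨r, rfl⟩ := Submodule.mem_one.1 ha
      rw [(E i).map_algebraMap]
      exact zero_mem _
    | succ n ih =>
      intro a ha
      rw [pow_succ] at ha
      induction ha using Submodule.mul_induction_on' with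
      | mem_mul_mem x hx g hg =>
        rw [(E i).leibniz]
        refine add_mem ?_ ?_
        · have h1 := Submodule.mul_mem_mul hx (hEV1 i g hg)
          rw [← pow_add] at h1
          exact hmono (by omega) h1
        · have h1 := Submodule.mul_mem_mul hg (ih x hx)
          rw [← pow_succ'] at h1
          exact hmono (by omega) h1
      | add x hx' y hy' hx hy => rw [map_add]; exact add_mem hx hy
  obtain ⟨c0, hc0⟩ : ∃ c0 : ℕ, ∀ g ∈ G, Ge v (-(c0 : ℤ)) g := by
    refine ⟨G.sup fun g => (-v.ord g).toNat, fun g hg => ?_⟩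
    right
    have h1 : (-v.ord g).toNat ≤ G.sup fun g => (-v.ord g).toNat :=
      Finset.le_sup (f := fun g => (-v.ord g).toNat) hg
    have h2 := Int.self_le_toNat (-v.ord g)
    omega
  have hc1 : ∀ a ∈ V, Ge v (-(c0 : ℤ)) a := by
    intro a ha
    induction ha using Submodule.span_induction with
    | mem x hx => exact hc0 x hx
    | zero => exact Ge.zero
    | add x y hx' hy' hx hy => exact hx.add hy
    | smul c x hx' hx =>
      rw [Algebra.smul_def]
      have := (Ge.const (P := v) c).mul hx
      rwa [zero_add] at this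
  have hc2 : ∀ n : ℕ, ∀ a ∈ V ^ n, Ge v (-(c0 * n : ℤ)) a := by
    intro n
    induction n with
    | zero =>
      intro a ha
      rw [pow_zero] at ha
      obtain ⟨r, rfl⟩ := Submodule.mem_one.1 ha
      simpa using Ge.const (P := v) r
    | succ n ih =>
      intro a ha
      rw [pow_succ] at ha
      induction ha using Submodule.mul_induction_on' with
      | mem_mul_mem x hx g hg =>
        have h1 := (ih x hx).mul (hc1 g hg)
        refine Ge.mono (le_of_eq ?_) h1
        push_cast
        ring
      | add x hx' y hy' hx hy => exact hx.add hy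
  refine ⟨A, fun n => {a | a ∈ V ^ ((D + 1) * n)}, c0 * (D + 1), ?_, ?_, hEA, ?_, ?_, ?_⟩
  · intro s hs
    refine hGA s (hSG s ?_)
    rw [hS]
    exact Finset.mem_union_left _ hs
  · intro x
    exact ⟨num x, hBA (hnum x), den x, hBA (hden x), hd0 x, heq x⟩
  · intro a ha
    obtain ⟨n, hn⟩ := hAV a ha
    exact ⟨n, hmono (by nlinarith) hn⟩
  · intro i n a ha
    exact hmono (n' := (D + 1) * (n + 1)) (by nlinarith) (hEV i _ a ha)
  · intro n a ha
    have h1 := hc2 _ a ha
    refine Ge.mono (le_of_eq ?_) h1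
    push_cast
    ring

/-- truncated Laurent expansions -/
theorem exists_laurent {v : Place k K}
    (hrat : ∀ f, v.Reg f → ∃ c : k, Ge v 1 (f - algebraMap k K c)) {t : K} (ht : v.ord t = 1)
    (y : K) (n : ℤ) : ∃ q ∈ Algebra.adjoin k ({t, t⁻¹} : Set K), Ge v n (y - q) := by
  have ht0 : t ≠ 0 := by
    rintro rfl
    rw [v.ord_zero] at ht
    omega
  have hz : ∀ z : ℤ, v.ord (t ^ z) = z := by
    intro z
    rcases Int.eq_nat_or_neg z with ⟨j, rfl | rfl⟩
    · rw [zpow_natCast, v.ord_pow, ht, mul_one]
    · rw [zpow_neg, v.ord_inv, zpow_natCast, v.ord_pow, ht, mul_one]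
  have hzm : ∀ z : ℤ, t ^ z ∈ Algebra.adjoin k ({t, t⁻¹} : Set K) := by
    intro z
    rcases Int.eq_nat_or_neg z with ⟨j, rfl | rfl⟩
    · rw [zpow_natCast]
      exact pow_mem (Algebra.subset_adjoin (by simp)) _
    · rw [zpow_neg, zpow_natCast, ← inv_pow]
      exact pow_mem (Algebra.subset_adjoin (by simp)) _
  have key : ∀ j : ℕ, ∃ q ∈ Algebra.adjoin k ({t, t⁻¹} : Set K), Ge v (v.ord y + j) (y - q) := by
    intro j
    induction j with
    | zero => exact ⟨0, zero_mem _, by simpa using ge_ord v (f := y)⟩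
    | succ j ih =>
      obtain ⟨q, hq, h1⟩ := ih
      have h2 : Ge v 0 (t ^ (-(v.ord y + j)) * (y - q)) := by
        have h3 : Ge v (-(v.ord y + j)) (t ^ (-(v.ord y + j))) := Or.inr (hz _).ge
        have h4 := h3.mul h1
        rwa [neg_add_cancel] at h4
      obtain ⟨c, hc⟩ := hrat _ h2
      refine ⟨q + algebraMap k K c * t ^ (v.ord y + j), add_mem hq (mul_mem
        (Subalgebra.algebraMap_mem _ c) (hzm _)), ?_⟩
      have h3 : Ge v (v.ord y + j) (t ^ (v.ord y + j)) := Or.inr (hz _).ge
      have h4 := h3.mul hc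
      have h5 : t ^ (v.ord y + j) * (t ^ (-(v.ord y + j)) * (y - q) - algebraMap k K c) =
          y - (q + algebraMap k K c * t ^ (v.ord y + j)) := by
        rw [mul_sub, ← mul_assoc, ← zpow_add₀ ht0, add_neg_cancel, zpow_zero, one_mul]
        ring
      rw [h5] at h4
      push_cast
      rwa [← add_assoc]
  obtain ⟨q, hq, h1⟩ := key (n - v.ord y).toNat
  refine ⟨q, hq, Ge.mono ?_ h1⟩
  have := Int.self_le_toNat (n - v.ord y)
  omega

/-- **Unramified prime divisors.** -/
theorem unram [CharZero k] [Algebra.EssFiniteType k K] {m : ℕ}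
    (hw : Algebra.trdeg k K = (m + 1 : ℕ)) (v : Place k K)
    (hrat : ∀ f, v.Reg f → ∃ c : k, Ge v 1 (f - algebraMap k K c)) {t : K} (ht : v.ord t = 1) :
    ∃ P : Place k K, Divisorial (m + 1) P ∧ P.ord t = 1 := by
  classical
  have ht0 : t ≠ 0 := by
    rintro rfl
    rw [v.ord_zero] at ht
    omega
  have htr : Transcendental k t := by
    intro halg
    have := v.ord_eq_zero_of_isAlgebraic ht0 halg
    omega
  obtain ⟨y, i0, hy, hyt⟩ : ∃ (y : Fin (m + 1) → K) (i0 : Fin (m + 1)),
      IsTranscendenceBasis k y ∧ y i0 = t := by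
    have h1 : AlgebraicIndepOn k id ({t} : Set K) :=
      (algebraicIndependent_singleton_iff (⟨t, rfl⟩ : ({t} : Set K))).2 htr
    obtain ⟨B, hB1, hB⟩ := exists_isTranscendenceBasis_superset h1
    have hcard := hB.cardinalMk_eq_trdeg
    rw [hw] at hcard
    have hfin : Finite B := by
      rw [← Cardinal.lt_aleph0_iff_finite, hcard]
      exact Cardinal.natCast_lt_aleph0
    obtain ⟨m', ⟨e⟩⟩ := Finite.exists_equiv_fin B
    obtain rfl : m' = m + 1 := by
      rw [Cardinal.mk_congr e, Cardinal.mk_fin] at hcard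
      exact_mod_cast hcard
    have htB : t ∈ B := hB1 (Set.mem_singleton t)
    exact ⟨fun i => (e.symm i : K), e ⟨t, htB⟩, hB.comp_equiv e.symm, by simp⟩
  choose E0 hE0 using fun i => exists_der y hy (fun j => if i = j then (1 : K) else 0)
  have hdual : Dual y E0 := ⟨hy, hE0⟩
  let E : Fin m → Derivation k K K := fun l => E0 (i0.succAbove l)
  let y' : Fin m → K := fun l => y (i0.succAbove l)
  have hEt : ∀ l, E l t = 0 := by
    intro l
    rw [← hyt]
    change E0 (i0.succAbove l) (y i0) = 0
    rw [hE0, if_neg (Fin.succAbove_ne i0 l)]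
  have hEy : ∀ l j, E l (y' j) = if l = j then 1 else 0 := by
    intro l j
    change E0 (i0.succAbove l) (y (i0.succAbove j)) = _
    rw [hE0]
    simp only [Fin.succAbove_right_inj]
  have hcomm : ∀ l j a, E l (E j a) = E j (E l a) := by
    intro l j a
    have h1 := hdual.expand ⁅E l, E j⁆
    have h2 : ∀ i, ⁅E l, E j⁆ (y i) = 0 := by
      intro i
      rw [Derivation.commutator_apply]
      have h3 : ∀ j : Fin m, E j (y i) = if i0.succAbove j = i then 1 else 0 := fun j => hE0 _ _
      rw [h3, h3]
      split_ifs <;> simp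
    rw [Finset.sum_eq_zero fun i _ => by rw [h2, zero_smul]] at h1
    have h3 := congrArg (fun D : Derivation k K K => D a) h1
    simp only [Derivation.commutator_apply, Derivation.zero_apply] at h3
    exact sub_eq_zero.1 h3
  obtain ⟨A, F, c, hSA, hA, hEA, hF1, hF2, hF3⟩ := exists_filt E v
    (insert t (insert t⁻¹ (Finset.univ.image y')))
  have htA : t ∈ A := hSA (by simp)
  have htA' : t⁻¹ ∈ A := hSA (by simp)
  have hyA : ∀ l, y' l ∈ A := fun l => hSA (by simp)
  have hadj : Algebra.adjoin k ({t, t⁻¹} : Set K) ≤ A := by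
    rw [Algebra.adjoin_le_iff]
    rintro z (rfl | hz)
    · exact htA
    · rw [Set.mem_singleton_iff.1 hz]
      exact htA'
  choose q hq1 hq2 using fun l => exists_laurent hrat ht (y' l) (c : ℤ)
  have hEq : ∀ l, ∀ a ∈ Algebra.adjoin k ({t, t⁻¹} : Set K), E l a = 0 := by
    intro l a ha
    induction ha using Algebra.adjoin_induction with
    | mem z hz =>
      rcases hz with rfl | hz
      · exact hEt l
      · rw [Set.mem_singleton_iff.1 hz, Derivation.leibniz_inv, hEt, smul_zero]
    | algebraMap r => exact (E l).map_algebraMap r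
    | add f g hf' hg' hf hg => rw [map_add, hf, hg, add_zero]
    | mul f g hf' hg' hf hg => rw [(E l).leibniz, hf, hg, smul_zero, smul_zero, add_zero]
  let s : Fin m → K := fun l => (y' l - q l) * t⁻¹ ^ c
  have hsA : ∀ l, s l ∈ A := fun l => mul_mem (sub_mem (hyA l) (hadj (hq1 l))) (pow_mem htA' _)
  have hti : ∀ l, E l (t⁻¹ ^ c) = 0 := fun l =>
    hEq l _ (pow_mem (Algebra.subset_adjoin (by simp)) _)
  have hEs : ∀ l j, E l (s j) = if l = j then t⁻¹ ^ c else 0 := by
    intro l j
    change E l ((y' j - q j) * t⁻¹ ^ c) = _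
    rw [(E l).leibniz, hti, smul_zero, zero_add, map_sub, hEy, hEq l _ (hq1 j), sub_zero,
      smul_eq_mul]
    split_ifs <;> simp
  have hvs : ∀ l, Ge v 0 (s l) := by
    intro l
    have h1 : Ge v (-(c : ℤ)) (t⁻¹ ^ c) := by
      right
      rw [v.ord_pow, v.ord_inv, ht]
      simp
    have h2 := (hq2 l).mul h1
    rwa [add_neg_cancel] at h2
  have hE0' : ∀ (l : Fin m) (j : ℕ), (E l)^[j] (0 : K) = 0 := by
    intro l j
    induction j with
    | zero => rfl
    | succ j ih => rw [Function.iterate_succ_apply', ih, map_zero]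
  -- the iteration
  obtain ⟨P, hP1, hP2, hP3, hP4⟩ : ∃ P : Place k K, P.ord t = 1 ∧ (∀ l, Ge P 0 (s l)) ∧
      (∀ n, ∀ a ∈ A, a ∈ F n → Ge P (-(c * n : ℤ)) a) ∧
      (∀ l ∈ (Finset.univ : Finset (Fin m)), ∀ a ∈ A, ∀ n : ℤ, Ge P n a → Ge P (n - c) (E l a)) := by
    induction (Finset.univ : Finset (Fin m)) using Finset.induction_on with
    | empty => exact ⟨v, ht, hvs, fun n a _ => hF3 n a, fun l hl => absurd hl (Finset.notMem_empty l)⟩
    | insert l S hl ih =>
      obtain ⟨w, h1, h2, h3, h4⟩ := ih
      have hiter : ∀ (j n : ℕ), ∀ a ∈ F n, (E l)^[j] a ∈ F (n + j) := by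
        intro j n a ha
        induction j with
        | zero => exact ha
        | succ j ih => rw [Function.iterate_succ_apply']; exact hF2 l _ _ ih
      have hiterA : ∀ (j : ℕ), ∀ a ∈ A, (E l)^[j] a ∈ A := by
        intro j a ha
        induction j with
        | zero => exact ha
        | succ j ih => rw [Function.iterate_succ_apply']; exact hEA l _ ih
      obtain ⟨w', hw'⟩ := step w A hA (E l) (hEA l) (c := c) (N := c) le_rfl (by
        intro a ha
        obtain ⟨n, hn⟩ := hF1 a ha
        refine ⟨c * n, fun j => ?_⟩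
        refine Ge.mono (le_of_eq ?_) (h3 _ _ (hiterA j a ha) (hiter j n a hn))
        push_cast
        ring) htA h1 (hEt l)
      have hkill : ∀ a ∈ A, E l a = 0 → ∀ n : ℤ, Ge w' n a ↔ Ge w n a := by
        intro a ha h0 n
        rw [hw' a ha n]
        constructor
        · intro h
          simpa using h 0
        · intro h j
          rcases Nat.eq_zero_or_pos j with rfl | hj
          · simpa using h
          · left
            obtain ⟨j', rfl⟩ := Nat.exists_eq_succ_of_ne_zero hj.ne'
            rw [Function.iterate_succ_apply, h0, hE0']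
      have hordt : w'.ord t = 1 := by
        have h5 := (hkill t htA (hEt l) 1).2 (Or.inr h1.ge)
        have h6 : ¬ Ge w' 2 t := by
          rw [hkill t htA (hEt l) 2]
          intro h
          have := ge_lt ht0 h
          omega
        have h7 := ge_lt ht0 h5
        have h8 : ¬ (2 ≤ w'.ord t) := fun h => h6 (Or.inr h)
        omega
      refine ⟨w', hordt, fun j => ?_, fun n a ha hn => ?_, fun j hj a ha n hn => ?_⟩
      · rw [hw' _ (hsA j)]
        intro i
        rcases i with _ | _ | i
        · simpa using h2 j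
        · rw [Function.iterate_succ_apply, hEs]
          split_ifs
          · right
            rw [Function.iterate_zero_apply, w.ord_pow, w.ord_inv, h1]
            push_cast
            ring_nf
            omega
          · rw [hE0']
            exact Ge.zero
        · rw [Function.iterate_succ_apply, hEs]
          left
          split_ifs
          · rw [Function.iterate_succ_apply, hti, hE0']
          · rw [hE0']
      · rw [hw' _ ha]
        intro i
        refine Ge.mono (le_of_eq ?_) (h3 _ _ (hiterA i a ha) (hiter i n a hn))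
        push_cast
        ring
      · rw [hw' _ (hEA j a ha)]
        rw [hw' a ha] at hn
        intro i
        rcases Finset.mem_insert.1 hj with rfl | hj
        · have h5 := hn (i + 1)
          rw [Function.iterate_succ_apply] at h5
          refine Ge.mono (le_of_eq ?_) h5
          push_cast
          ring
        · have h6 : ∀ i : ℕ, (E l)^[i] (E j a) = E j ((E l)^[i] a) := by
            intro i
            induction i with
            | zero => rfl
            | succ i ih =>
              rw [Function.iterate_succ_apply', ih, Function.iterate_succ_apply', hcomm]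
          rw [h6]
          refine Ge.mono (le_of_eq ?_) (h4 j hj _ (hiterA i a ha) _ (hn i))
          ring
  -- the residues of the `s l` are independent
  have hchain : ∀ (l : Fin m) (G : MvPolynomial (Fin m) k),
      E l (MvPolynomial.aeval s G) = MvPolynomial.aeval s (MvPolynomial.pderiv l G) * t⁻¹ ^ c := by
    intro l G
    induction G using MvPolynomial.induction_on with
    | C a =>
      rw [MvPolynomial.aeval_C, (E l).map_algebraMap, MvPolynomial.pderiv_C, map_zero, zero_mul]
    | add p q hp hq => rw [map_add, map_add, hp, hq, map_add, map_add, add_mul]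
    | mul_X p j hp =>
      rw [map_mul, MvPolynomial.aeval_X, (E l).leibniz, hp, hEs, Derivation.leibniz,
        MvPolynomial.pderiv_X, map_add, smul_eq_mul, smul_eq_mul, smul_eq_mul, smul_eq_mul,
        map_mul, map_mul, MvPolynomial.aeval_X, Pi.single_apply]
      by_cases hlj : l = j
      · subst hlj
        rw [if_pos rfl, if_pos rfl, map_one]
        ring
      · rw [if_neg hlj, if_neg (Ne.symm hlj), map_zero]
        ring
  have hsF : ∀ G : MvPolynomial (Fin m) k, MvPolynomial.aeval s G ∈ A := by
    intro G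
    induction G using MvPolynomial.induction_on with
    | C a => rw [MvPolynomial.aeval_C]; exact A.algebraMap_mem a
    | add p q hp hq => rw [map_add]; exact add_mem hp hq
    | mul_X p j hp => rw [map_mul, MvPolynomial.aeval_X]; exact mul_mem hp (hsA j)
  have hge : ∀ G : MvPolynomial (Fin m) k, Ge P 0 (MvPolynomial.aeval s G) := by
    intro G
    induction G using MvPolynomial.induction_on with
    | C a => rw [MvPolynomial.aeval_C]; exact Ge.const a
    | add p q hp hq => rw [map_add]; exact hp.add hq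
    | mul_X p j hp =>
      rw [map_mul, MvPolynomial.aeval_X]
      have := hp.mul (hP2 j)
      rwa [zero_add] at this
  have hunit : ∀ (d : ℕ) (G : MvPolynomial (Fin m) k),
      (∀ α, MvPolynomial.coeff α G ≠ 0 → α.degree < d) → Ge P 1 (MvPolynomial.aeval s G) →
        G = 0 := by
    intro d
    induction d with
    | zero =>
      intro G hG _
      ext α
      by_contra h
      exact absurd (hG α h) (Nat.not_lt_zero _)
    | succ d ih =>
      intro G hG hGe
      have h1 : ∀ l, MvPolynomial.pderiv l G = 0 := by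
        intro l
        apply ih
        · intro α hα
          rw [MvPolynomial.coeff_pderiv] at hα
          have h2 := hG _ (left_ne_zero_of_mul hα)
          rw [map_add, Finsupp.degree_single] at h2
          omega
        · have h2 := hP4 l (Finset.mem_univ _) _ (hsF G) _ hGe
          rw [hchain] at h2
          have h3 : Ge P (c : ℤ) (t ^ c) := by
            right
            rw [P.ord_pow, hP1, mul_one]
          have h4 := h2.mul h3
          rw [mul_assoc, ← mul_pow, inv_mul_cancel₀ ht0, one_pow, mul_one] at h4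
          rwa [sub_add_cancel] at h4
      have h2 : ∀ α : Fin m →₀ ℕ, α ≠ 0 → MvPolynomial.coeff α G = 0 := by
        intro α hα
        obtain ⟨l, hl⟩ := Finsupp.ne_iff.1 hα
        have h3 : α = (α - Finsupp.single l 1) + Finsupp.single l 1 := by
          rw [tsub_add_cancel_of_le]
          rw [Finsupp.single_le_iff]
          exact Nat.one_le_iff_ne_zero.2 hl
        have h4 := MvPolynomial.coeff_pderiv (i := l) G (α - Finsupp.single l 1)
        rw [h1 l, MvPolynomial.coeff_zero, ← h3] at h4
        refine (mul_eq_zero.1 h4.symm).resolve_right ?_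
        exact Nat.cast_add_one_ne_zero _
      have h3 : G = MvPolynomial.C (MvPolynomial.coeff 0 G) := by
        ext α
        rw [MvPolynomial.coeff_C]
        split_ifs with h
        · rw [h]
        · exact h2 α (Ne.symm h)
      rw [h3, MvPolynomial.aeval_C] at hGe
      rw [h3]
      by_contra h4
      have h5 : MvPolynomial.coeff 0 G ≠ 0 := by
        intro h0
        rw [h0, MvPolynomial.C_0] at h4
        exact h4 rfl
      have h6 := ge_lt ((map_ne_zero (algebraMap k K)).2 h5) hGe
      rw [P.ord_const h5] at h6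
      omega
  refine ⟨P, ⟨s, fun G hG => ?_⟩, hP1⟩
  have h1 : ¬ Ge P 1 (MvPolynomial.aeval s G) := by
    intro h
    obtain ⟨d, hd⟩ : ∃ d : ℕ, ∀ α, MvPolynomial.coeff α G ≠ 0 → α.degree < d :=
      ⟨G.support.sup (fun α => α.degree) + 1, fun α hα => Nat.lt_succ_of_le
        (Finset.le_sup (f := fun α : Fin m →₀ ℕ => α.degree) (MvPolynomial.mem_support_iff.2 hα))⟩
    exact hG (hunit d G hd h)
  have h2 : MvPolynomial.aeval s G ≠ 0 := fun h0 => h1 (Or.inl h0)
  have h3 := ge_lt h2 (hge G)
  have h4 : ¬ (1 ≤ P.ord (MvPolynomial.aeval s G)) := fun h => h1 (Or.inr h)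
  refine ⟨h2, ?_⟩
  change P.ord (MvPolynomial.aeval s G) = 0
  omega

end Pool.Agent.TH8.TEN
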